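import Pool.Agent.Y116.MT.Trace

/-!
# Duals, shifts and realisations
-/

set_option autoImplicit false
set_option linter.unusedSectionVars false
set_option linter.unusedSimpArgs false
set_option backward.isDefEq.respectTransparency false
set_option backward.defeqAttrib.useBackward true

open CategoryTheory Limits MonoidalCategory Pretriangulated Triangulated

namespace Pool.Agent.L0h15.MT

open Pool.Agent.Y116.MT

universe v u w

open Functor.LaxMonoidal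

section

variable {C : Type u} [Category.{v} C] [Preadditive C] [HasZeroObject C] [HasShift C ℤ]
  [∀ n : ℤ, (shiftFunctor C n).Additive] [Pretriangulated C] [MonoidalCategory C]
  [SymmetricCategory C] [TensorTriangulated C]

lemma lShift_natural_right (X : C) {Y Y' : C} (f : Y ⟶ Y') (n : ℤ) :
    X⟦n⟧ ◁ f ≫ (lShift X Y' n).hom = (lShift X Y n).hom ≫ (X ◁ f)⟦n⟧' := by
  simp only [lShift, Iso.trans_hom, Functor.mapIso_hom, Category.assoc]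
  rw [BraidedCategory.braiding_naturality_right_assoc, ← Category.assoc (f ▷ _),
    rShift_natural_left]
  simp only [Category.assoc, ← Functor.map_comp, BraidedCategory.braiding_naturality_left]

lemma lShift_natural_left {X X' : C} (f : X ⟶ X') (Y : C) (n : ℤ) :
    (f⟦n⟧') ▷ Y ≫ (lShift X' Y n).hom = (lShift X Y n).hom ≫ (f ▷ Y)⟦n⟧' := by
  simp only [lShift, Iso.trans_hom, Functor.mapIso_hom, Category.assoc]
  rw [BraidedCategory.braiding_naturality_left_assoc, ← Category.assoc (_ ◁ _),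
    rShift_natural_right]
  simp only [Category.assoc, ← Functor.map_comp, BraidedCategory.braiding_naturality_right]

/-- The tensor product with a shifted object. -/
noncomputable def tensorLeftShift (X : C) (n : ℤ) :
    tensorLeft (X⟦n⟧) ≅ tensorLeft X ⋙ shiftFunctor C n :=
  NatIso.ofComponents (fun Y => lShift X Y n) (fun f => lShift_natural_right X f n)

variable [RightRigidCategory C]

/-- The dual of a shifted object. -/
noncomputable def dualShift (X : C) (n : ℤ) : (X⟦n⟧)ᘁ ≅ (Xᘁ)⟦-n⟧ :=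
  (ρ_ _).symm ≪≫
    (((tensorLeftAdjunction (X⟦n⟧) (X⟦n⟧)ᘁ).ofNatIsoRight (tensorLeftShift X n)).leftAdjointUniq
      ((shiftEquiv' C (-n) n (by simp)).toAdjunction.comp (tensorLeftAdjunction X Xᘁ))).app (𝟙_ C) ≪≫
    rShift Xᘁ (𝟙_ C) (-n) ≪≫ (shiftFunctor C (-n)).mapIso (ρ_ _)

/-- The evaluation of the shift of the dual. -/
noncomputable def evs (X : C) (j : ℤ) : (Xᘁ)⟦j⟧ ⊗ X ⟶ (𝟙_ C)⟦j⟧ :=
  (lShift Xᘁ X j).hom ≫ (ε_ X Xᘁ)⟦j⟧'

lemma evs_isIso (X : C) (j : ℤ) :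
    IsIso (tensorRightHomEquiv ((Xᘁ)⟦j⟧) X Xᘁ ((𝟙_ C)⟦j⟧) (evs X j)) := by
  rw [isIso_iff_yoneda_map_bijective]
  intro T
  have key : ∀ x : T ⟶ (Xᘁ)⟦j⟧,
      x ≫ tensorRightHomEquiv ((Xᘁ)⟦j⟧) X Xᘁ ((𝟙_ C)⟦j⟧) (evs X j) =
        tensorRightHomEquiv T X Xᘁ ((𝟙_ C)⟦j⟧) (x ▷ X ≫ evs X j) := by
    intro x
    apply (tensorRightHomEquiv T X Xᘁ ((𝟙_ C)⟦j⟧)).symm.injective
    rw [tensorRightHomEquiv_symm_naturality, Equiv.symm_apply_apply, Equiv.symm_apply_apply]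
  let e : (T⟦-j⟧)⟦j⟧ ≅ T := (shiftFunctorCompIsoId C (-j) j (by simp)).app T
  have key2 : ∀ g : T⟦-j⟧ ⟶ Xᘁ, (e.inv ≫ g⟦j⟧') ▷ X ≫ evs X j =
      (e.inv ▷ X) ≫ (lShift (T⟦-j⟧) X j).hom ≫ (g ▷ X ≫ ε_ X Xᘁ)⟦j⟧' := by
    intro g
    rw [comp_whiskerRight, Category.assoc, evs, ← Category.assoc (g⟦j⟧' ▷ X),
      lShift_natural_left, Category.assoc, ← Functor.map_comp]
  have hsurj : ∀ x : T ⟶ (Xᘁ)⟦j⟧, ∃ g : T⟦-j⟧ ⟶ Xᘁ, x = e.inv ≫ g⟦j⟧' := by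
    intro x
    obtain ⟨g, hg⟩ := (shiftFunctor C j).map_surjective (e.hom ≫ x)
    exact ⟨g, by rw [hg, Iso.inv_hom_id_assoc]⟩
  have hinj : ∀ g g' : T⟦-j⟧ ⟶ Xᘁ, g ▷ X ≫ ε_ X Xᘁ = g' ▷ X ≫ ε_ X Xᘁ → g = g' := by
    intro g g' h
    have h1 := congrArg (tensorRightHomEquiv (T⟦-j⟧) X Xᘁ (𝟙_ C)) h
    rw [tensorRightHomEquiv_whiskerRight_comp_evaluation,
      tensorRightHomEquiv_whiskerRight_comp_evaluation] at h1
    exact (cancel_mono _).1 h1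
  constructor
  · intro x x' h
    dsimp only at h
    rw [key, key] at h
    have h1 := (tensorRightHomEquiv T X Xᘁ ((𝟙_ C)⟦j⟧)).injective h
    obtain ⟨g, rfl⟩ := hsurj x
    obtain ⟨g', rfl⟩ := hsurj x'
    rw [key2, key2] at h1
    have h2 := (shiftFunctor C j).map_injective ((cancel_epi _).1 ((cancel_epi _).1 h1))
    rw [hinj g g' h2]
  · intro y
    obtain ⟨z, rfl⟩ := (tensorRightHomEquiv T X Xᘁ ((𝟙_ C)⟦j⟧)).surjective y
    obtain ⟨z', hz'⟩ := (shiftFunctor C j).map_surjective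
      ((lShift (T⟦-j⟧) X j).inv ≫ (e.hom ▷ X) ≫ z)
    refine ⟨e.inv ≫ ((tensorRightHomEquiv (T⟦-j⟧) X Xᘁ (𝟙_ C)) z' ≫ (λ_ _).hom)⟦j⟧', ?_⟩
    dsimp only
    rw [key, key2]
    congr 1
    have h1 : ((tensorRightHomEquiv (T⟦-j⟧) X Xᘁ (𝟙_ C)) z' ≫ (λ_ _).hom) ▷ X ≫ ε_ X Xᘁ = z' := by
      apply (tensorRightHomEquiv (T⟦-j⟧) X Xᘁ (𝟙_ C)).injective
      rw [tensorRightHomEquiv_whiskerRight_comp_evaluation, Category.assoc, Iso.hom_inv_id,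
        Category.comp_id]
    rw [h1, hz', Iso.hom_inv_id_assoc, ← comp_whiskerRight_assoc, Iso.inv_hom_id,
      id_whiskerRight, Category.id_comp]

variable {E : Type w} [Field E] {R : Realisation C E}

/-- The dual of an object in degree zero is in degree zero. -/
lemma Deg.dual0 {X : C} (h : R.Deg X 0) : R.Deg (Xᘁ : C) 0 := by
  intro j hj
  have hiso := evs_isIso X j
  have h1 := h.isIso_mu Xᘁ
  have h0 : R.H.map (tensorRightHomEquiv ((Xᘁ)⟦j⟧) X Xᘁ ((𝟙_ C)⟦j⟧) (evs X j)) = 0 := by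
    have h2 : R.H.map (evs X j) = 0 := (deg_unit (R := R) j hj).eq_of_tgt _ _
    simp only [tensorRightHomEquiv, Equiv.coe_fn_mk, Functor.map_comp]
    set Y := (Xᘁ)⟦j⟧
    have h3 : R.H.map (ρ_ Y).inv ≫ R.H.map (Y ◁ η_ X Xᘁ) =
        (ρ_ (R.H.obj Y)).inv ≫ (R.H.obj Y ◁ (ε R.H ≫ R.H.map (η_ X Xᘁ))) ≫ μ R.H Y (X ⊗ Xᘁ) := by
      rw [MonoidalCategory.whiskerLeft_comp, Category.assoc, μ_natural_right,
        ← cancel_epi (ρ_ (R.H.obj Y)).hom, Iso.hom_inv_id_assoc, right_unitality]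
      simp only [Category.assoc]
      rw [← Functor.map_comp_assoc, Iso.hom_inv_id, CategoryTheory.Functor.map_id,
        Category.id_comp]
    have h4 : (R.H.obj Y ◁ (ε R.H ≫ R.H.map (η_ X Xᘁ))) ≫ μ R.H Y (X ⊗ Xᘁ) =
        (R.H.obj Y ◁ (ε R.H ≫ R.H.map (η_ X Xᘁ) ≫ inv (μ R.H X Xᘁ))) ≫
          (R.H.obj Y ◁ μ R.H X Xᘁ) ≫ μ R.H Y (X ⊗ Xᘁ) := by
      rw [← Category.assoc, ← MonoidalCategory.whiskerLeft_comp]
      simp
    have h5 : (R.H.obj Y ◁ μ R.H X Xᘁ) ≫ μ R.H Y (X ⊗ Xᘁ) ≫ R.H.map (α_ Y X Xᘁ).inv =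
        (α_ _ _ _).inv ≫ (μ R.H Y X ▷ R.H.obj Xᘁ) ≫ μ R.H (Y ⊗ X) Xᘁ := by
      rw [associativity_inv]
    have h6 : μ R.H (Y ⊗ X) Xᘁ ≫ R.H.map (evs X j ▷ Xᘁ) = 0 := by
      have h7 : (0 : R.H.obj (Y ⊗ X) ⟶ R.H.obj ((𝟙_ C)⟦j⟧)) ▷ R.H.obj Xᘁ = 0 :=
        (tensorRight _).map_zero _ _
      rw [← μ_natural_left, h2, h7, zero_comp]
    rw [← Category.assoc, h3, h4]
    simp only [Category.assoc]
    rw [reassoc_of% h5, h6]
    simp
  have h8 : IsZero (R.H.obj ((Xᘁ)⟦j⟧)) := by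
    rw [IsZero.iff_id_eq_zero, ← cancel_mono (R.H.map (tensorRightHomEquiv ((Xᘁ)⟦j⟧) X Xᘁ
      ((𝟙_ C)⟦j⟧) (evs X j))), h0, comp_zero, comp_zero]
  exact h8

/-- The dual of an object in degree `a` is in degree `-a`. -/
lemma Deg.dual {X : C} {a : ℤ} (h : R.Deg X a) : R.Deg (Xᘁ : C) (-a) := by
  have h1 : R.Deg (X⟦a⟧) 0 := h.shift a 0 (by omega)
  have h2 := (Deg.dual0 h1).iso (dualShift X a)
  have h3 : R.Deg (((Xᘁ)⟦-a⟧)⟦a⟧) (-a) := h2.shift a (-a) (by omega)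
  exact h3.iso ((shiftFunctorCompIsoId C (-a) a (by simp)).app _)

end

end Pool.Agent.L0h15.MT
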