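import Pool.Agent.L0h15.MT.Blk

/-!
# The t-structure of a generating class of blocks
-/

set_option autoImplicit false
set_option linter.unusedSectionVars false
set_option linter.unusedSimpArgs false
set_option backward.isDefEq.respectTransparency false
set_option backward.defeqAttrib.useBackward true

open CategoryTheory Limits Pretriangulated Triangulated ZeroObject

namespace Pool.Agent.L0h15.MT

open Pool.Agent.Y116.MT

universe v u

section

variable {C : Type u} [Category.{v} C] [Preadditive C] [HasZeroObject C] [HasShift C ℤ]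
  [∀ n : ℤ, (shiftFunctor C n).Additive] [Pretriangulated C]

variable {S : C → Prop}

/-- Direct summands of words. -/
def RW (S : C → Prop) (I : ℤ → Prop) : ObjectProperty C := fun X =>
  ∃ (Y : C) (i : X ⟶ Y) (r : Y ⟶ X), WI S I Y ∧ i ≫ r = 𝟙 X

lemma RW.retract {I : ℤ → Prop} {X Y : C} (i : Y ⟶ X) (r : X ⟶ Y) (hir : i ≫ r = 𝟙 Y)
    (hX : RW S I X) : RW S I Y := by
  obtain ⟨Z, j, p, hZ, hjp⟩ := hX
  exact ⟨Z, i ≫ j, p ≫ r, hZ, by
    rw [Category.assoc, ← Category.assoc j, hjp, Category.id_comp, hir]⟩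

lemma RW.iso {I : ℤ → Prop} {X Y : C} (e : X ≅ Y) (hX : RW S I X) : RW S I Y :=
  hX.retract e.inv e.hom e.inv_hom_id

lemma RW.of_wi {I : ℤ → Prop} {X : C} (hX : WI S I X) : RW S I X :=
  ⟨X, 𝟙 _, 𝟙 _, hX, Category.id_comp _⟩

lemma RW.mono {I J : ℤ → Prop} (hIJ : ∀ n, I n → J n) {X : C} (hX : RW S I X) : RW S J X := by
  obtain ⟨Z, j, p, hZ, hjp⟩ := hX
  exact ⟨Z, j, p, WI.mono hIJ hZ, hjp⟩

lemma RW.shift (h : Blocks S) {I J : ℤ → Prop} (a : ℤ) (hIJ : ∀ n, I n → J (n + a)) {X : C}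
    (hX : RW S I X) : RW S J (X⟦a⟧) := by
  obtain ⟨Z, j, p, hZ, hjp⟩ := hX
  exact ⟨Z⟦a⟧, j⟦a⟧', p⟦a⟧', h.wi_shift a hIJ hZ, by
    rw [← Functor.map_comp, hjp, CategoryTheory.Functor.map_id]⟩

lemma RW.zero {I : ℤ → Prop} {X : C} (hX : IsZero X) : RW S I X := RW.of_wi (Wd.zero _ hX)

lemma RW.hom_zero {I : ℤ → Prop} {X Y : C} (hX : RW S I X)
    (h0 : ∀ n, I n → ∀ A, Sh S n A → ∀ f : A ⟶ Y, f = 0) (f : X ⟶ Y) : f = 0 := by
  obtain ⟨Z, j, p, hZ, hjp⟩ := hX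
  have h1 : p ≫ f = 0 := Wd.hom_zero hZ (fun A ⟨n, hn, hA⟩ => h0 n hn A hA) _
  rw [← Category.id_comp f, ← hjp, Category.assoc, h1, comp_zero]

lemma RW.hom_zero' {I : ℤ → Prop} {X Y : C} (hY : RW S I Y)
    (h0 : ∀ n, I n → ∀ A, Sh S n A → ∀ f : X ⟶ A, f = 0) (f : X ⟶ Y) : f = 0 := by
  obtain ⟨Z, j, p, hZ, hjp⟩ := hY
  have h1 : f ≫ j = 0 := Wd.hom_zero' hZ (fun A ⟨n, hn, hA⟩ => h0 n hn A hA) _
  rw [← Category.comp_id f, ← hjp, ← Category.assoc, h1, zero_comp]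

lemma Blocks.rw_hom (h : Blocks S) {I J : ℤ → Prop} (hIJ : ∀ m n, I m → J n → n < m) {X Y : C}
    (hX : RW S I X) (hY : RW S J Y) (f : X ⟶ Y) : f = 0 :=
  hX.hom_zero (fun m hm _ hA g => hY.hom_zero' (fun n hn _ hB k =>
    h.hom hA hB (hIJ m n hm hn) k) g) f

variable [IsTriangulated C]

lemma WI.append {I : ℤ → Prop} {X Y Z : C} (hT : Tr X Y Z) (hX : WI S I X) (hZ : WI S I Z) :
    WI S I Y := Wd.append hX hT hZ

lemma RW.append {I : ℤ → Prop} {X Y Z : C} (hT : Tr X Y Z) (hX : RW S I X) (hZ : RW S I Z) :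
    RW S I Y := by
  obtain ⟨X', i, r, hX', hir⟩ := hX
  obtain ⟨Z', j, p, hZ', hjp⟩ := hZ
  obtain ⟨f, g, k, hT⟩ := hT
  obtain ⟨W, hW, ⟨e⟩⟩ := ObjectProperty.extensionProduct_retractClosure_retractClosure_le
    (WI S I : ObjectProperty C) (WI S I) Y ⟨X, Z, f, g, k, hT, ⟨X', hX', ⟨i, r, hir⟩⟩,
      ⟨Z', hZ', ⟨j, p, hjp⟩⟩⟩
  obtain ⟨A, B, a, b, c, hT', hA, hB⟩ := hW
  exact ⟨W, e.i, e.r, WI.append ⟨a, b, c, hT'⟩ hA hB, e.retract⟩

/-- Truncations of direct summands of words. -/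
lemma Blocks.trunc (h : Blocks S) [IsIdempotentComplete C] (k : ℤ)
    {X : C} (hX : RW S (fun _ => True) X) :
    ∃ U V : C, RW S (fun m => k ≤ m) U ∧ RW S (fun m => m < k) V ∧ Tr U X V := by
  obtain ⟨Y, i, r, hY, hir⟩ := hX
  obtain ⟨U, V, hU, hV, α, β, γ, hT⟩ := h.sorted k hY
  have hUV : ∀ f : U ⟶ V, f = 0 := h.rw_hom (I := fun m => k ≤ m) (J := fun m => m < k)
    (fun m n hm hn => by omega) (RW.of_wi hU) (RW.of_wi hV)
  have hUV1 : ∀ f : U⟦(1 : ℤ)⟧ ⟶ V, f = 0 := h.rw_hom (I := fun m => k + 1 ≤ m)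
    (J := fun m => m < k) (fun m n hm hn => by omega)
    (RW.of_wi (h.wi_shift 1 (fun n hn => by omega) hU)) (RW.of_wi hV)
  obtain ⟨e, he⟩ := ce2 hT (α ≫ r ≫ i) (hUV _)
  have hee : e ≫ e = e := by
    have h1 : (e ≫ e - e) ≫ α = 0 := by
      rw [Preadditive.sub_comp, Category.assoc, ← he, sub_eq_zero]
      calc e ≫ α ≫ r ≫ i = (e ≫ α) ≫ r ≫ i := by simp only [Category.assoc]
        _ = α ≫ r ≫ (i ≫ r) ≫ i := by rw [← he]; simp only [Category.assoc]
        _ = α ≫ r ≫ i := by rw [hir, Category.id_comp]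
    obtain ⟨l, hl⟩ := ce1 hT ((e ≫ e - e)⟦(1 : ℤ)⟧') (by
      rw [← Functor.map_comp, h1, Functor.map_zero])
    rw [hUV1 l, zero_comp] at hl
    have h2 := (shiftFunctor C (1 : ℤ)).map_injective (hl.trans (Functor.map_zero _ _ _).symm)
    exact sub_eq_zero.1 h2
  obtain ⟨U1, j, p, hjp, hpj⟩ := IsIdempotentComplete.idempotents_split U e hee
  obtain ⟨Z, b, c, hT1⟩ := distinguished_cocone_triangle (j ≫ α ≫ r)
  have hc1 : (j ≫ α ≫ r) ≫ i = j ≫ α := by
    rw [Category.assoc, Category.assoc, he, ← hpj]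
    simp only [← Category.assoc]
    rw [hjp, Category.id_comp]
  have hc2 : α ≫ r = p ≫ j ≫ α ≫ r := by
    calc α ≫ r = α ≫ r ≫ (i ≫ r) := by rw [hir, Category.comp_id]
      _ = (α ≫ r ≫ i) ≫ r := by simp only [Category.assoc]
      _ = p ≫ j ≫ α ≫ r := by rw [he, ← hpj]; simp only [Category.assoc]
  obtain ⟨z, hz1, hz2⟩ := complete_distinguished_triangle_morphism _ _ hT1 hT j i hc1
  obtain ⟨z', hz1', hz2'⟩ := complete_distinguished_triangle_morphism _ _ hT hT1 p r hc2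
  dsimp at z hz1 hz2 z' hz1' hz2'
  let φ := Triangle.homMk (Triangle.mk (j ≫ α ≫ r) b c) (Triangle.mk (j ≫ α ≫ r) b c) (𝟙 U1)
    (𝟙 X) (z ≫ z') (by simp) (by
      dsimp
      rw [Category.id_comp, ← Category.assoc, hz1, Category.assoc, hz1', ← Category.assoc, hir,
        Category.id_comp]) (by
      dsimp
      rw [CategoryTheory.Functor.map_id, Category.comp_id, Category.assoc, ← hz2',
        ← Category.assoc, ← hz2, Category.assoc, ← Functor.map_comp, hjp,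
        CategoryTheory.Functor.map_id, Category.comp_id])
  have hiso : IsIso (z ≫ z') := isIso₃_of_isIso₁₂ φ hT1 hT1 (IsIso.id _) (IsIso.id _)
  refine ⟨U1, Z, ⟨U, j, p, hU, hjp⟩, ⟨V, z, z' ≫ inv (z ≫ z'), hV, ?_⟩, ⟨_, b, c, hT1⟩⟩
  rw [← Category.assoc, IsIso.hom_inv_id]

/-- The direct summands of words are the thick subcategory generated by the blocks. -/
lemma Blocks.all (h : Blocks S)     (hgen : ObjectProperty.IsClassicalTriangulatedGenerator (C := C) S) (X : C) :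
    RW S (fun _ => True) X := by
  have i1 : (RW S (fun _ => True)).IsStableUnderRetracts := ⟨fun e hX => hX.retract e.i e.r e.retract⟩
  have i2 : (RW S (fun _ => True)).IsTriangulated :=
    { exists_zero := ⟨0, isZero_zero C, RW.zero (isZero_zero C)⟩
      isStableUnderShiftBy := fun n => ⟨fun X hX => hX.shift h n (fun _ _ => trivial)⟩
      ext₂' := fun T hT h1 h3 => ObjectProperty.le_isoClosure _ _
        (RW.append ⟨T.mor₁, T.mor₂, T.mor₃, hT⟩ h1 h3) }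
  have h1 : ObjectProperty.triangEnvelope (C := C) S ≤ RW S (fun _ => True) := by
    rw [ObjectProperty.triangEnvelope_le_iff]
    intro Y hY
    exact RW.of_wi (Wd.single ⟨0, trivial, h.sh_zero.2 hY⟩)
  have h2 : ObjectProperty.triangEnvelope (C := C) S = ⊤ := hgen
  exact h1 X (by rw [h2]; trivial)

/-- The t-structure. -/
noncomputable def Blocks.tStructure (h : Blocks S) [IsIdempotentComplete C]
    (hall : ∀ X : C, RW S (fun _ => True) X) : TStructure C where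
  le n := RW S (fun m => -n ≤ m)
  ge n := RW S (fun m => m ≤ -n)
  le_isClosedUnderIsomorphisms n := ⟨fun e hX => hX.iso e⟩
  ge_isClosedUnderIsomorphisms n := ⟨fun e hX => hX.iso e⟩
  le_shift n a n' hn X hX := hX.shift h a (fun m hm => by omega)
  ge_shift n a n' hn X hX := hX.shift h a (fun m hm => by omega)
  zero' X Y f hX hY := h.rw_hom (fun m n hm hn => by omega) hX hY f
  le_zero_le X hX := hX.mono (fun m hm => by omega)
  ge_one_le X hX := hX.mono (fun m hm => by omega)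
  exists_triangle_zero_one X := by
    obtain ⟨U, V, hU, hV, f, g, k, hT⟩ := h.trunc 0 (hall X)
    exact ⟨U, V, hU.mono (fun m hm => by simpa using hm), hV.mono (fun m hm => by omega), f, g, k,
      hT⟩

lemma Wd.bounded {P : ℤ → C → Prop} {X : C} (hX : Wd (fun X => ∃ n, P n X) X) :
    ∃ N : ℕ, Wd (fun X => ∃ n, n.natAbs ≤ N ∧ P n X) X := by
  induction hX with
  | zero X h0 => exact ⟨0, Wd.zero _ h0⟩
  | cons A X B hT hA _ ih =>
    obtain ⟨n, hn⟩ := hA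
    obtain ⟨N, hN⟩ := ih
    refine ⟨max N n.natAbs, Wd.cons A X B hT ⟨n, by omega, hn⟩ (hN.mono ?_)⟩
    rintro Y ⟨m, hm, hY⟩
    exact ⟨m, by omega, hY⟩

lemma RW.bounded {X : C} (hX : RW S (fun _ => True) X) :
    ∃ N : ℕ, RW S (fun m => m.natAbs ≤ N) X := by
  obtain ⟨Z, j, p, hZ, hjp⟩ := hX
  have h1 : Wd (fun X => ∃ n, Sh S n X) Z := Wd.mono (fun _ ⟨n, _, hn⟩ => ⟨n, hn⟩) hZ
  obtain ⟨N, hN⟩ := h1.bounded
  exact ⟨N, Z, j, p, hN, hjp⟩

end

end Pool.Agent.L0h15.MT
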