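import Pool.Agent.L0h15.MT.Defs
import Pool.Agent.L0h15.MT.TS
import Pool.Agent.L0h15.MT.Dual

/-!
# From pure Chow motives to the t-structure
-/

set_option autoImplicit false
set_option linter.unusedSectionVars false
set_option linter.unusedSimpArgs false
set_option backward.isDefEq.respectTransparency false
set_option backward.defeqAttrib.useBackward true

open CategoryTheory Limits MonoidalCategory Pretriangulated Triangulated ZeroObject

namespace Pool.Agent.L0h15.MT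

open Pool.Agent.Y116.MT

universe v u w

section

variable {C : Type u} [Category.{v} C] [Preadditive C] [HasZeroObject C] [HasShift C ℤ]
  [∀ n : ℤ, (shiftFunctor C n).Additive] [Pretriangulated C] [IsTriangulated C]
  [MonoidalCategory C] [SymmetricCategory C] [TensorTriangulated C] [RightRigidCategory C]
  {Chow : ObjectProperty C} {T : C} {Λ : Type*} {E : Λ → Type w} [∀ l, Field (E l)]
  {R : ∀ l, Realisation C (E l)}

lemma IsChow.iso (h : IsChow Chow T R) {X Y : C} (e : X ≅ Y) (hX : Chow X) : Chow Y :=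
  h.retract e.inv e.hom e.inv_hom_id hX

/-- The objects of degree zero with a Chow motive as a shift. -/
def Zr (Chow : ObjectProperty C) (R : ∀ l, Realisation C (E l)) (X : C) : Prop :=
  ∃ i : ℤ, Chow (X⟦-i⟧) ∧ ∀ l, (R l).Deg X 0

variable (h : IsChow Chow T R)

include h

lemma zr_retract {X Y : C} (i : Y ⟶ X) (r : X ⟶ Y) (hir : i ≫ r = 𝟙 Y) (hX : Zr Chow R X) :
    Zr Chow R Y := by
  obtain ⟨a, h1, h2⟩ := hX
  exact ⟨a, h.retract (i⟦-a⟧') (r⟦-a⟧') (by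
    rw [← Functor.map_comp, hir, CategoryTheory.Functor.map_id]) h1,
    fun l => (h2 l).retract i r hir⟩

lemma zr_pure {X : C} {i : ℤ} (h1 : Chow (X⟦-i⟧)) (h2 : ∀ l, (R l).Deg X 0) :
    Pure Chow R i (X⟦-i⟧) :=
  ⟨h1, fun l => (h2 l).shift (-i) i (by omega)⟩

lemma pure_zr {P : C} {i : ℤ} (hP : Pure Chow R i P) : Zr Chow R (P⟦i⟧) :=
  ⟨i, h.iso ((shiftFunctorCompIsoId C i (-i) (by simp)).app P).symm hP.1,
    fun l => (hP.2 l).shift i 0 (by omega)⟩

omit [IsTriangulated C] [TensorTriangulated C] [RightRigidCategory C] h in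
lemma eqShift (X : C) {a b : ℤ} (hab : a = b) : Nonempty (X⟦a⟧ ≅ X⟦b⟧) := by
  subst hab
  exact ⟨Iso.refl _⟩

lemma chow_tensor_shift {X Y : C} {i j k : ℤ} (hX : Chow (X⟦-i⟧)) (hY : Chow (Y⟦-j⟧))
    (hk : i + j = k) : Chow ((X ⊗ Y)⟦-k⟧) := by
  obtain ⟨e⟩ := eqShift (X ⊗ Y) (show -i + -j = -k by omega)
  exact h.iso (lrShift X Y (-i) (-j) ≪≫ e) (h.tensor hX hY)

lemma chow_dual_shift {X : C} {i k : ℤ} (hX : Chow (X⟦-i⟧)) (hk : k = -i) :
    Chow ((Xᘁ : C)⟦-k⟧) := by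
  obtain ⟨e⟩ := eqShift (Xᘁ : C) (show -(-i) = -k by omega)
  exact h.iso (dualShift X (-i) ≪≫ e) (h.dual hX)

/-- The internal Hom of objects of degree zero. -/
lemma hom_data {X Y : C} {i j : ℤ} (hX : Chow (X⟦-i⟧)) (hX' : ∀ l, (R l).Deg X 0)
    (hY : Chow (Y⟦-j⟧)) (hY' : ∀ l, (R l).Deg Y 0) :
    Chow ((Y ⊗ (Xᘁ : C))⟦-(j - i)⟧) ∧ ∀ l, (R l).Deg (Y ⊗ (Xᘁ : C)) 0 :=
  ⟨chow_tensor_shift h hY (chow_dual_shift h hX rfl) (by omega),
    fun l => by simpa using (hY' l).tensor (Deg.dual0 (hX' l))⟩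

variable [MonoidalPreadditive C]

lemma hom_vanish (hV : Vanishing Chow R) {X Y : C} {i j : ℤ} (hX : Chow (X⟦-i⟧))
    (hX' : ∀ l, (R l).Deg X 0) (hY : Chow (Y⟦-j⟧)) (hY' : ∀ l, (R l).Deg Y 0) (n : ℤ)
    (hn : n < 0 ∨ n = 0 ∧ i ≠ j) (f : X ⟶ Y⟦n⟧) : f = 0 := by
  apply eq_zero_of_nm
  obtain ⟨h1, h2⟩ := hom_data h hX hX' hY hY'
  rw [← cancel_mono (lShift Y (Xᘁ : C) n).hom, zero_comp,
    ← cancel_mono ((shiftFunctorAdd' C (-(j - i)) (n + (j - i)) n (by omega)).hom.app _),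
    zero_comp]
  exact hV (j - i) _ (zr_pure h h1 h2) (n + (j - i)) (by omega) _

end

end Pool.Agent.L0h15.MT
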