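import Pool.Agent.L0h15.MT.Reg

/-!
# The t-structure of pure Chow motives is motivic
-/

set_option autoImplicit false
set_option linter.unusedSectionVars false
set_option linter.unusedSimpArgs false
set_option backward.isDefEq.respectTransparency false
set_option backward.defeqAttrib.useBackward true

open CategoryTheory Limits MonoidalCategory Pretriangulated Triangulated ZeroObject

namespace Pool.Agent.L0h15.MT

open Pool.Agent.Y116.MT

universe v u w

section

variable {C : Type u} [Category.{v} C] [Preadditive C] [HasZeroObject C] [HasShift C ℤ]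
  [∀ n : ℤ, (shiftFunctor C n).Additive] [Pretriangulated C] [IsTriangulated C]
  [MonoidalCategory C] [SymmetricCategory C] [TensorTriangulated C]

lemma Wd.tensor_left [MonoidalPreadditive C] {P Q : C → Prop} (Y : C)
    (hPQ : ∀ X, P X → Q (Y ⊗ X)) {X : C} (hX : Wd P X) : Wd Q (Y ⊗ X) := by
  induction hX with
  | zero X h0 => exact Wd.zero _ (isZero_tensor_right h0 Y)
  | cons A X B hT hA _ ih =>
    obtain ⟨f, g, k, hT⟩ := hT
    exact Wd.cons _ _ _ ⟨_, _, _, tensor_dist Y hT⟩ (hPQ A hA) ih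

lemma Wd.tensor [MonoidalPreadditive C] {P Q P' : C → Prop} {X Y : C} (hX : Wd P X) (hY : Wd P' Y)
    (hPQ : ∀ X Y, P X → P' Y → Q (X ⊗ Y)) : Wd Q (X ⊗ Y) := by
  induction hX with
  | zero X h0 => exact Wd.zero _ (isZero_tensor_left h0 Y)
  | cons A X B hT hA _ ih =>
    obtain ⟨f, g, k, hT⟩ := hT
    have h1 : Tr (A ⊗ Y) (X ⊗ Y) (B ⊗ Y) :=
      Tr.iso ⟨_, _, _, tensor_dist Y hT⟩ (β_ Y A) (β_ Y X) (β_ Y B)
    exact Wd.append (Wd.tensor_left A (fun Z hZ => hPQ A Z hA hZ) hY) h1 ih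

lemma RW.tensor [MonoidalPreadditive C] {S : C → Prop} {I J K : ℤ → Prop} {X Y : C}
    (hX : RW S I X) (hY : RW S J Y)
    (hS : ∀ m n A B, I m → J n → Sh S m A → Sh S n B → ∃ k, K k ∧ Sh S k (A ⊗ B)) :
    RW S K (X ⊗ Y) := by
  obtain ⟨X', i, r, hX', hir⟩ := hX
  obtain ⟨Y', j, p, hY', hjp⟩ := hY
  refine ⟨X' ⊗ Y', i ⊗ₘ j, r ⊗ₘ p, Wd.tensor hX' hY' ?_, by
    rw [tensorHom_comp_tensorHom, hir, hjp]; simp⟩
  rintro A B ⟨m, hm, hA⟩ ⟨n, hn, hB⟩
  exact hS m n A B hm hn hA hB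

variable [RightRigidCategory C] [MonoidalPreadditive C] [Linear ℚ C]
  {Chow : ObjectProperty C} {T : C} {Λ : Type*} [Nonempty Λ] {E : Λ → Type w} [∀ l, Field (E l)]
  [∀ l, CharZero (E l)] {R : ∀ l, Realisation C (E l)} (h : IsChow Chow T R)
  (hN : NumericalEquivalence Chow R)
  (hU : ∀ c : 𝟙_ C ⟶ 𝟙_ C, ∃ q : ℚ, c = q • 𝟙 _)

include h

lemma zr_blocks (hN : NumericalEquivalence Chow R)
    (hU : ∀ c : 𝟙_ C ⟶ 𝟙_ C, ∃ q : ℚ, c = q • 𝟙 _) (hV : Vanishing Chow R) :
    Blocks (Zr Chow R) where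
  retract i r hir hX := zr_retract h i r hir hX
  neg := by
    rintro X Y ⟨i, hX, hX'⟩ ⟨j, hY, hY'⟩ n hn f
    exact hom_vanish h hV hX hX' hY hY' n (Or.inl hn) f
  reg := by
    rintro X Y ⟨i, hX, hX'⟩ ⟨j, hY, hY'⟩ f
    by_cases hij : i = j
    · subst hij
      exact zr_regular h hN hU hX hX' hY hY' f
    · refine ⟨0, ?_⟩
      have h1 : f = 0 := by
        rw [← cancel_mono ((shiftFunctorZero C ℤ).inv.app Y), zero_comp]
        exact hom_vanish h hV hX hX' hY hY' 0 (Or.inr ⟨rfl, hij⟩) _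
      rw [h1]
      simp

lemma zr_gen (hK : KunnethDecomposition Chow R) :
    ObjectProperty.IsClassicalTriangulatedGenerator (C := C) (Zr Chow R) := by
  have hne : ObjectProperty.Nonempty (C := C) (Zr Chow R) := by
    refine ⟨𝟙_ C, 0, h.iso ((shiftFunctorZero' C (-0 : ℤ) (by simp)).app _).symm h.unit,
      fun l => deg_unit⟩
  have h1 : Chow ≤ ObjectProperty.triangEnvelope (C := C) (Zr Chow R) := by
    intro P hP
    obtain ⟨n, d, Q, hQ, ⟨e⟩⟩ := hK P hP
    have h2 : ∀ j, ObjectProperty.triangEnvelope (C := C) (Zr Chow R) (Q j) := by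
      intro j
      have h3 : ObjectProperty.triangEnvelope (C := C) (Zr Chow R) ((Q j)⟦d j⟧) :=
        ObjectProperty.le_triangEnvelope _ _ (pure_zr h (hQ j))
      exact ObjectProperty.prop_of_iso _ ((shiftFunctorCompIsoId C (d j) (-(d j)) (by simp)).app _)
        ((ObjectProperty.triangEnvelope (C := C) (Zr Chow R)).le_shift (-(d j)) _ h3)
    exact ObjectProperty.prop_of_iso _ (e ≪≫ biproduct.isoProduct Q).symm
      (ObjectProperty.prop_product _ h2)
  have h2 : Chow.triangEnvelope ≤ ObjectProperty.triangEnvelope (C := C) (Zr Chow R) := by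
    rw [ObjectProperty.triangEnvelope_le_iff]
    exact h1
  have h3 : Chow.triangEnvelope = ⊤ := h.generate
  rw [h3] at h2
  exact le_antisymm le_top h2

lemma zr_sh_tensor {X Y : C} {m n : ℤ} (hX : Sh (Zr Chow R) m X) (hY : Sh (Zr Chow R) n Y) :
    Sh (Zr Chow R) (m + n) (X ⊗ Y) := by
  obtain ⟨i, hX, hX'⟩ := hX
  obtain ⟨j, hY, hY'⟩ := hY
  have h1 : Zr Chow R ((X⟦-m⟧) ⊗ (Y⟦-n⟧)) :=
    ⟨i + j, chow_tensor_shift h hX hY rfl, fun l => by simpa using (hX' l).tensor (hY' l)⟩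
  obtain ⟨e⟩ := eqShift (X ⊗ Y) (show -m + -n = -(m + n) by omega)
  exact zr_retract h _ _ (lrShift X Y (-m) (-n) ≪≫ e).inv_hom_id h1

omit h in
lemma wi_deg {I : ℤ → Prop} {X : C} (hX : WI (Zr Chow R) I X) (l : Λ) (i : ℤ) (hi : ¬ I (-i)) :
    IsZero ((R l).H.obj (X⟦i⟧)) := by
  induction hX with
  | zero X h0 => exact (R l).H.map_isZero ((shiftFunctor C i).map_isZero h0)
  | cons A X B hT hA _ ih =>
    obtain ⟨f, g, k, hT⟩ := hT
    obtain ⟨m, hm, a, hA, hA'⟩ := hA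
    have h1 : (R l).Deg ((A⟦-m⟧)⟦m⟧) (-m) := (hA' l).shift m (-m) (by omega)
    have h2 : (R l).Deg A (-m) := h1.iso ((shiftFunctorCompIsoId C (-m) m (by simp)).app A)
    exact hz2 (R l).H hT i (h2 i (fun h0 => hi (by rw [h0, neg_neg]; exact hm))) ih

omit h in
lemma rw_deg {I : ℤ → Prop} {X : C} (hX : RW (Zr Chow R) I X) (l : Λ) (i : ℤ) (hi : ¬ I (-i)) :
    IsZero ((R l).H.obj (X⟦i⟧)) := by
  obtain ⟨Y, j, r, hY, hjr⟩ := hX
  have h1 := wi_deg hY l i hi
  rw [IsZero.iff_id_eq_zero]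
  have h2 : 𝟙 ((R l).H.obj (X⟦i⟧)) = (R l).H.map (j⟦i⟧') ≫ (R l).H.map (r⟦i⟧') := by
    rw [← Functor.map_comp, ← Functor.map_comp, hjr, CategoryTheory.Functor.map_id,
      CategoryTheory.Functor.map_id]
  rw [h2, h1.eq_of_tgt ((R l).H.map (j⟦i⟧')) 0, zero_comp]

/-- The Künneth decomposition, the coincidence of rational and numerical equivalence on pure motives
of degree zero and the vanishing of motivic cohomology imply the existence of a motivic
t-structure. -/
theorem exists_motivic [IsIdempotentComplete C] (hK : KunnethDecomposition Chow R)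
    (hN : NumericalEquivalence Chow R) (hV : Vanishing Chow R)
    (hU : ∀ c : 𝟙_ C ⟶ 𝟙_ C, ∃ q : ℚ, c = q • 𝟙 _) :
    ∃ t : TStructure C, IsMotivic t R := by
  have hB := zr_blocks h hN hU hV
  have hall := hB.all (zr_gen h hK)
  refine ⟨hB.tStructure hall, ?_⟩
  constructor
  · intro X hX
    obtain ⟨N, hN⟩ := (hall X).bounded
    rw [IsZero.iff_id_eq_zero]
    exact hB.rw_hom (fun m n hm hn => by omega) (hX (-(N + 1))) hN _
  · intro X hX
    obtain ⟨N, hN⟩ := (hall X).bounded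
    rw [IsZero.iff_id_eq_zero]
    exact hB.rw_hom (fun m n hm hn => by omega) hN (hX (N + 1)) _
  · intro X Y hX hY
    exact hX.tensor hY (fun m n A B hm hn hA hB => ⟨m + n, by omega, zr_sh_tensor h hA hB⟩)
  · intro X Y hX hY
    exact hX.tensor hY (fun m n A B hm hn hA hB => ⟨m + n, by omega, zr_sh_tensor h hA hB⟩)
  · intro l X hX i hi
    exact rw_deg hX l i (by omega)
  · intro l X hX i hi
    exact rw_deg hX l i (by omega)

end

end Pool.Agent.L0h15.MT
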