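import Pool.Agent.L0h15.MT.Fwd

/-!
# Independence of the prime
-/

set_option autoImplicit false
set_option linter.unusedSectionVars false
set_option linter.unusedSimpArgs false
set_option backward.isDefEq.respectTransparency false
set_option backward.defeqAttrib.useBackward true

open CategoryTheory Limits MonoidalCategory Pretriangulated Triangulated ZeroObject

namespace Pool.Agent.L0h15.MT

open Pool.Agent.Y116.MT

universe v u w

section Twist

variable {C : Type u} [Category.{v} C] [Preadditive C] [HasZeroObject C] [HasShift C ℤ]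
  [∀ n : ℤ, (shiftFunctor C n).Additive] [Pretriangulated C] [IsTriangulated C]
  [MonoidalCategory C] [MonoidalPreadditive C] [SymmetricCategory C] [TensorTriangulated C]
  [RightRigidCategory C] {K : Type w} [Field K] {R : Realisation C K}

/-- An invertible object concentrated in degree `-2` shifts the cohomology by two. -/
lemma isZero_tensor_inv {T T' : C} (e : T ⊗ T' ≅ 𝟙_ C) (hT : R.Deg T (-2)) (X : C) (i : ℤ) :
    IsZero (R.H.obj ((X ⊗ T)⟦i⟧)) ↔ IsZero (R.H.obj (X⟦i + 2⟧)) := by
  have hu0 : ¬ IsZero (R.H.obj ((𝟙_ C)⟦(0 : ℤ)⟧)) := fun h0 =>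
    not_isZero_H_unit R (h0.of_iso (R.H.mapIso ((shiftFunctorZero C ℤ).app _).symm))
  have hT2 : ¬ IsZero (R.H.obj (T⟦(-2 : ℤ)⟧)) := by
    intro h0
    have h1 : ∀ i : ℤ, IsZero (R.H.obj (T⟦i⟧)) := by
      intro i
      by_cases hi : i = -2
      · subst hi; exact h0
      · exact hT i hi
    have h2 : R.Deg T 0 := fun i _ => h1 i
    have h3 := h2.isIso_mu T'
    have h4 : IsZero (R.H.obj (T ⊗ T')) := by
      have h5 : IsZero (R.H.obj T ⊗ R.H.obj T') := by
        have h6 : IsZero (R.H.obj T) :=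
          (h1 0).of_iso (R.H.mapIso ((shiftFunctorZero C ℤ).app _).symm)
        rw [ModuleCat.isZero_iff_subsingleton]
        exact tensor_subsingleton_left h6
      exact h5.of_iso (asIso (Functor.LaxMonoidal.μ R.H T T')).symm
    exact not_isZero_H_unit R (h4.of_iso (R.H.mapIso e.symm))
  have hT'1 : ∀ j : ℤ, j ≠ 2 → IsZero (R.H.obj (T'⟦j⟧)) := by
    intro j hj
    by_contra h0
    have h1 := not_isZero_tensor hT2 h0
    apply h1
    exact (deg_unit (R := R) (-2 + j) (by omega)).of_iso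
      (R.H.mapIso ((shiftFunctor C (-2 + j)).mapIso e))
  have hT'2 : ¬ IsZero (R.H.obj (T'⟦(2 : ℤ)⟧)) := by
    intro h0
    have h1 : ∀ i : ℤ, IsZero (R.H.obj (T'⟦i⟧)) := by
      intro i
      by_cases hi : i = 2
      · subst hi; exact h0
      · exact hT'1 i hi
    have h2 : R.Deg T' 0 := fun i _ => h1 i
    have h3 := h2.isIso_mu T
    have h4 : IsZero (R.H.obj (T' ⊗ T)) := by
      have h5 : IsZero (R.H.obj T' ⊗ R.H.obj T) := by
        have h6 : IsZero (R.H.obj T') :=
          (h1 0).of_iso (R.H.mapIso ((shiftFunctorZero C ℤ).app _).symm)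
        rw [ModuleCat.isZero_iff_subsingleton]
        exact tensor_subsingleton_left h6
      exact h5.of_iso (asIso (Functor.LaxMonoidal.μ R.H T' T)).symm
    exact not_isZero_H_unit R (h4.of_iso (R.H.mapIso (e.symm ≪≫ β_ T T')))
  constructor
  · intro h0
    by_contra h1
    have h2 := not_isZero_tensor h1 hT2
    rw [show i + 2 + -2 = i by ring] at h2
    exact h2 h0
  · intro h0
    by_contra h1
    have h2 := not_isZero_tensor h1 hT'2
    apply h2
    exact h0.of_iso (R.H.mapIso ((shiftFunctor C (i + 2)).mapIso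
      (α_ X T T' ≪≫ whiskerLeftIso X e ≪≫ ρ_ X)))

lemma isZero_twist {T T' : C} (e : T ⊗ T' ≅ 𝟙_ C) (hT : R.Deg T (-2)) (X : C) (k : ℕ) :
    ∀ i : ℤ, IsZero (R.H.obj ((twist T X k)⟦i⟧)) ↔ IsZero (R.H.obj (X⟦i + 2 * k⟧)) := by
  induction k with
  | zero => intro i; simp [twist]
  | succ k ih =>
    intro i
    rw [show i + 2 * ((k + 1 : ℕ) : ℤ) = i + 2 + 2 * k by push_cast; ring, ← ih (i + 2)]
    exact isZero_tensor_inv e hT _ i

end Twist

section Rank

variable {C : Type u} [Category.{v} C] [Preadditive C] [HasZeroObject C] [HasShift C ℤ]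
  [∀ n : ℤ, (shiftFunctor C n).Additive] [Pretriangulated C] [IsTriangulated C]
  [MonoidalCategory C] [MonoidalPreadditive C] [SymmetricCategory C] [TensorTriangulated C]
  [RightRigidCategory C] [Linear ℚ C] {K K' : Type w} [Field K] [Field K'] [CharZero K]
  [CharZero K'] {R : Realisation C K} {R' : Realisation C K'}

/-- The dimension of the cohomology of an object in degree zero does not depend on the
realisation. -/
lemma rank_eq (hU : ∀ c : 𝟙_ C ⟶ 𝟙_ C, ∃ q : ℚ, c = q • 𝟙 _) {X : C} (h : R.Deg X 0)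
    (h' : R'.Deg X 0) :
    Module.finrank K (R.H.obj X) = Module.finrank K' (R'.H.obj X) := by
  obtain ⟨q, hq⟩ := hU (tr (𝟙 X))
  have h1 : (Module.finrank K (R.H.obj X) : K) = algebraMap ℚ K q := by
    rw [← sc_rat R q, ← hq, ← LinearMap.trace_id (R := K) (M := R.H.obj X)]
    have := H_trace h (𝟙 X)
    rw [CategoryTheory.Functor.map_id] at this
    exact this.symm
  have h2 : (Module.finrank K' (R'.H.obj X) : K') = algebraMap ℚ K' q := by
    rw [← sc_rat R' q, ← hq, ← LinearMap.trace_id (R := K') (M := R'.H.obj X)]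
    have := H_trace h' (𝟙 X)
    rw [CategoryTheory.Functor.map_id] at this
    exact this.symm
  have h3 : (Module.finrank K (R.H.obj X) : ℚ) = q := by
    apply (algebraMap ℚ K).injective
    rw [← h1, map_natCast]
  have h4 : (Module.finrank K' (R'.H.obj X) : ℚ) = q := by
    apply (algebraMap ℚ K').injective
    rw [← h2, map_natCast]
  exact_mod_cast h3.trans h4.symm

lemma rank_iso {X Y : C} (e : X ≅ Y) :
    Module.finrank K (R.H.obj X) = Module.finrank K (R.H.obj Y) :=
  (R.H.mapIso e).toLinearEquiv.finrank_eq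

/-- The same in degree `n`. -/
lemma rank_eq_deg (hU : ∀ c : 𝟙_ C ⟶ 𝟙_ C, ∃ q : ℚ, c = q • 𝟙 _) {X : C} {n : ℤ}
    (h : R.Deg X n) (h' : R'.Deg X n) (i : ℤ) :
    Module.finrank K (R.H.obj (X⟦i⟧)) = Module.finrank K' (R'.H.obj (X⟦i⟧)) := by
  by_cases hi : i = n
  · subst hi
    exact rank_eq hU (h.shift i 0 (by omega)) (h'.shift i 0 (by omega))
  · have h1 : Subsingleton (R.H.obj (X⟦i⟧)) := ModuleCat.subsingleton_of_isZero (h i hi)
    have h2 : Subsingleton (R'.H.obj (X⟦i⟧)) := ModuleCat.subsingleton_of_isZero (h' i hi)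
    rw [Module.finrank_zero_of_subsingleton, Module.finrank_zero_of_subsingleton]

omit [CharZero K] in
lemma rank_sum {X Y Z : C} (e : Z ≅ X ⊞ Y) (i : ℤ) :
    Module.finrank K (R.H.obj (Z⟦i⟧)) =
      Module.finrank K (R.H.obj (X⟦i⟧)) + Module.finrank K (R.H.obj (Y⟦i⟧)) := by
  have h1 := preservesBinaryBiproducts_of_preservesBiproducts (shiftFunctor C i)
  have h2 := preservesBinaryBiproducts_of_preservesBiproducts R.H
  have e1 : R.H.obj (Z⟦i⟧) ≅ R.H.obj (X⟦i⟧) ⊞ R.H.obj (Y⟦i⟧) :=
    R.H.mapIso ((shiftFunctor C i).mapIso e ≪≫ (shiftFunctor C i).mapBiprod X Y) ≪≫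
      R.H.mapBiprod _ _
  have e2 := (e1 ≪≫ ModuleCat.biprodIsoProd _ _).toLinearEquiv.finrank_eq
  rw [e2]
  exact Module.finrank_prod

omit [CharZero K] in
lemma isZero_of_rank {X : C} (h : Module.finrank K (R.H.obj X) = 0) : IsZero (R.H.obj X) := by
  rw [ModuleCat.isZero_iff_subsingleton]
  exact Module.finrank_zero_iff.1 h

omit [CharZero K] in
lemma rank_of_isZero {X : C} (h : IsZero (R.H.obj X)) : Module.finrank K (R.H.obj X) = 0 := by
  have h2 : Subsingleton (R.H.obj X) := ModuleCat.subsingleton_of_isZero h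
  exact Module.finrank_zero_of_subsingleton

end Rank

end Pool.Agent.L0h15.MT
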