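import Pool.Agent.L0h15.MT.Word
import Pool.Agent.Y116.MT.Heart

/-!
# t-structures from classes of simple objects
-/

set_option autoImplicit false
set_option linter.unusedSectionVars false
set_option linter.unusedSimpArgs false
set_option backward.isDefEq.respectTransparency false
set_option backward.defeqAttrib.useBackward true

open CategoryTheory Limits Pretriangulated Triangulated ZeroObject

namespace Pool.Agent.L0h15.MT

open Pool.Agent.Y116.MT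

universe v u

section

variable {C : Type u} [Category.{v} C] [Preadditive C] [HasZeroObject C] [HasShift C ℤ]
  [∀ n : ℤ, (shiftFunctor C n).Additive] [Pretriangulated C]

/-- The conditions on a class of objects to be of degree zero for a t-structure. -/
structure Blocks (S : C → Prop) : Prop where
  retract {X Y : C} (i : Y ⟶ X) (r : X ⟶ Y) : i ≫ r = 𝟙 Y → S X → S Y
  neg {X Y : C} : S X → S Y → ∀ n : ℤ, n < 0 → ∀ f : X ⟶ Y⟦n⟧, f = 0
  reg {X Y : C} : S X → S Y → ∀ f : X ⟶ Y, ∃ g : Y ⟶ X, f ≫ g ≫ f = f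

/-- The class `S⟦n⟧`. -/
def Sh (S : C → Prop) (n : ℤ) (X : C) : Prop := S (X⟦-n⟧)

variable {S : C → Prop}

lemma Blocks.sh_retract (h : Blocks S) {n : ℤ} {X Y : C} (i : Y ⟶ X) (r : X ⟶ Y)
    (hir : i ≫ r = 𝟙 Y) (hX : Sh S n X) : Sh S n Y :=
  h.retract (i⟦-n⟧') (r⟦-n⟧') (by rw [← Functor.map_comp, hir, CategoryTheory.Functor.map_id]) hX

lemma Blocks.sh_iso (h : Blocks S) {n : ℤ} {X Y : C} (e : X ≅ Y) (hX : Sh S n X) : Sh S n Y :=
  h.sh_retract e.inv e.hom e.inv_hom_id hX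

lemma Blocks.iso (h : Blocks S) {X Y : C} (e : X ≅ Y) (hX : S X) : S Y :=
  h.retract e.inv e.hom e.inv_hom_id hX

lemma Blocks.sh_shift (h : Blocks S) {n : ℤ} {X : C} (hX : Sh S n X) (a m : ℤ)
    (hm : n + a = m) : Sh S m (X⟦a⟧) :=
  h.iso ((shiftFunctorAdd' C a (-m) (-n) (by omega)).app X) hX

lemma Blocks.sh_zero (h : Blocks S) {X : C} : Sh S 0 X ↔ S X :=
  ⟨fun hX => h.iso ((shiftFunctorZero' C (-0 : ℤ) (by simp)).app X) hX,
    fun hX => h.iso ((shiftFunctorZero' C (-0 : ℤ) (by simp)).app X).symm hX⟩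

lemma Blocks.hom (h : Blocks S) {X Y : C} {m n : ℤ} (hX : Sh S m X) (hY : Sh S n Y)
    (hmn : n < m) (f : X ⟶ Y) : f = 0 := by
  apply (shiftFunctor C (-m)).map_injective
  rw [Functor.map_zero, ← cancel_mono ((shiftFunctorAdd' C (-n) (n - m) (-m) (by omega)).hom.app Y),
    zero_comp]
  exact h.neg hX hY (n - m) (by omega) _

/-- The exchange of two blocks. -/
lemma Blocks.exchange (h : Blocks S) [IsTriangulated C] [IsIdempotentComplete C] {b X a : C}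
    {n m : ℤ} (hnm : n < m) (hT : Tr b X a) (hb : Sh S n b) (ha : Sh S m a) :
    ∃ a' b' : C, Sh S m a' ∧ Sh S n b' ∧ Tr a' X b' := by
  obtain ⟨i, g, φ, hT⟩ := hT
  obtain ⟨g', hg'⟩ : ∃ g' : b⟦(1 : ℤ)⟧ ⟶ a, φ ≫ g' ≫ φ = φ := by
    have hb1 : Sh S (n + 1) (b⟦(1 : ℤ)⟧) := h.sh_shift hb 1 _ rfl
    by_cases hnm' : n + 1 = m
    · subst hnm'
      obtain ⟨k, hk⟩ := h.reg ha hb1 (φ⟦-(n + 1)⟧')
      obtain ⟨k', rfl⟩ := (shiftFunctor C (-(n + 1))).map_surjective k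
      refine ⟨k', (shiftFunctor C (-(n + 1))).map_injective ?_⟩
      rw [Functor.map_comp, Functor.map_comp, hk]
    · exact ⟨0, by rw [h.hom ha hb1 (by omega) φ]; simp⟩
  have hidem : (𝟙 a - φ ≫ g') ≫ (𝟙 a - φ ≫ g') = 𝟙 a - φ ≫ g' := by
    have : (φ ≫ g') ≫ (φ ≫ g') = φ ≫ g' := by
      calc (φ ≫ g') ≫ (φ ≫ g') = (φ ≫ g' ≫ φ) ≫ g' := by simp only [Category.assoc]
        _ = φ ≫ g' := by rw [hg']
    simp only [Preadditive.sub_comp, Preadditive.comp_sub, Category.id_comp, Category.comp_id, this]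
    abel
  obtain ⟨a2, w, p, hwp, hpw⟩ := IsIdempotentComplete.idempotents_split a _ hidem
  have hwφ : w ≫ φ = 0 := by
    have : w ≫ (𝟙 a - φ ≫ g') ≫ φ = 0 := by
      rw [Preadditive.sub_comp, Category.id_comp, Category.assoc, hg', sub_self, comp_zero]
    rwa [← hpw, Category.assoc, ← Category.assoc w, hwp, Category.id_comp] at this
  obtain ⟨u, hu⟩ := ce3 hT w hwφ
  obtain ⟨a1, c, d, ha1⟩ := distinguished_cocone_triangle w
  obtain ⟨W, q, s, hW⟩ := distinguished_cocone_triangle u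
  have O := someOctahedron hu.symm hW (rotD hT) ha1
  have hd : d = 0 := by
    have h1 := comp31 ha1
    have h2 : w⟦(1 : ℤ)⟧' ≫ p⟦(1 : ℤ)⟧' = 𝟙 _ := by rw [← Functor.map_comp, hwp, CategoryTheory.Functor.map_id]
    rw [← Category.comp_id d, ← h2, ← Category.assoc, h1, zero_comp]
  obtain ⟨c', hc'⟩ := split3' ha1 hd
  have hψ : O.m₃ ≫ g' ≫ c = 𝟙 _ := by
    have h1 : c ≫ O.m₃ = φ := O.comm₃
    have h2 : c ≫ O.m₃ ≫ g' ≫ c = c := by
      rw [← Category.assoc, h1, ← Category.assoc]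
      have h3 : φ ≫ g' = 𝟙 a - p ≫ w := by rw [hpw]; abel
      rw [h3, Preadditive.sub_comp, Category.id_comp, Category.assoc, comp12 ha1, comp_zero,
        sub_zero]
    rw [← Category.id_comp (O.m₃ ≫ g' ≫ c), ← hc', Category.assoc, h2]
  refine ⟨a2, W, h.sh_retract w p hwp ha, ?_, ⟨u, q, s, hW⟩⟩
  have hm1 : O.m₁ = 0 := by
    have h1 : O.m₁ ≫ O.m₃ = 0 := comp12 O.mem
    rw [← Category.comp_id O.m₁, ← hψ, ← Category.assoc, h1, zero_comp]
  obtain ⟨r, hr⟩ := split1 O.mem hm1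
  have hW1 : Sh S (n + 1) (W⟦(1 : ℤ)⟧) := h.sh_retract _ _ hr (h.sh_shift hb 1 _ rfl)
  exact h.sh_iso ((shiftEquiv C (1 : ℤ)).unitIso.symm.app W) (h.sh_shift hW1 (-1) n (by omega))

/-- Words in the blocks of degrees in `I`. -/
def WI (S : C → Prop) (I : ℤ → Prop) : C → Prop := Wd fun X => ∃ n, I n ∧ Sh S n X

lemma WI.iso {I : ℤ → Prop} {X Y : C} (hX : WI S I X) (e : X ≅ Y) : WI S I Y := Wd.iso hX e

lemma WI.mono {I J : ℤ → Prop} (hIJ : ∀ n, I n → J n) {X : C} (hX : WI S I X) : WI S J X :=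
  Wd.mono (fun _ ⟨n, hn, h⟩ => ⟨n, hIJ n hn, h⟩) hX

lemma Blocks.wi_shift (h : Blocks S) {I J : ℤ → Prop} (a : ℤ) (hIJ : ∀ n, I n → J (n + a)) {X : C}
    (hX : WI S I X) : WI S J (X⟦a⟧) :=
  Wd.shift a (fun _ ⟨n, hn, hY⟩ => ⟨n + a, hIJ n hn, h.sh_shift hY a _ rfl⟩) hX

lemma Blocks.sort (h : Blocks S) [IsTriangulated C] [IsIdempotentComplete C] {k n : ℤ}
    (hn : n < k) {U : C} (hU : WI S (fun m => k ≤ m) U) : ∀ {b X : C}, Sh S n b → Tr b X U →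
    ∃ U' b' : C, WI S (fun m => k ≤ m) U' ∧ Sh S n b' ∧ Tr U' X b' := by
  induction hU with
  | zero U h0 =>
    intro b X hb hT
    obtain ⟨e⟩ := hT.iso_of_zero_right h0
    exact ⟨0, b, Wd.zero _ (isZero_zero C), hb,
      (tr_zero_left (isZero_zero C)).iso (Iso.refl _) e (Iso.refl _)⟩
  | cons a U U1 hU ha _ ih =>
    intro b X hb hT
    obtain ⟨m, hm, ha⟩ := ha
    obtain ⟨X1, h1, h2⟩ := hT.assoc_left hU
    obtain ⟨a', b', ha', hb', h3⟩ := h.exchange (by omega) h1 hb ha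
    obtain ⟨Y, h4, h5⟩ := h2.assoc_right h3
    obtain ⟨U1', b'', hU1', hb'', h6⟩ := ih hb' h5
    obtain ⟨F, h7, h8⟩ := h4.assoc_left h6
    exact ⟨F, b'', Wd.cons _ _ _ h7 ⟨m, hm, ha'⟩ hU1', hb'', h8⟩

lemma Blocks.sorted (h : Blocks S) [IsTriangulated C] [IsIdempotentComplete C] (k : ℤ)
    {X : C} (hX : WI S (fun _ => True) X) :
    ∃ U V : C, WI S (fun m => k ≤ m) U ∧ WI S (fun m => m < k) V ∧ Tr U X V := by
  induction hX with
  | zero X h0 =>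
    exact ⟨X, X, Wd.zero _ h0, Wd.zero _ h0, tr_zero_left h0⟩
  | cons w X X1 hX hw _ ih =>
    obtain ⟨n, -, hw⟩ := hw
    obtain ⟨U1, V1, hU1, hV1, h1⟩ := ih
    obtain ⟨F, h2, h3⟩ := hX.assoc_left h1
    by_cases hn : k ≤ n
    · exact ⟨F, V1, Wd.cons _ _ _ h2 ⟨n, hn, hw⟩ hU1, hV1, h3⟩
    · obtain ⟨U', b', hU', hb', h4⟩ := h.sort (by omega) hU1 hw h2
      obtain ⟨Y, h5, h6⟩ := h3.assoc_right h4
      exact ⟨U', Y, hU', Wd.cons _ _ _ h6 ⟨n, by omega, hb'⟩ hV1, h5⟩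

end

end Pool.Agent.L0h15.MT
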