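import Pool.Agent.Y116.MT.Deg

/-!
# Chow motives inside a category of constructible motives: definitions
-/

set_option autoImplicit false

open CategoryTheory Limits MonoidalCategory Pretriangulated Triangulated

namespace Pool.Agent.L0h15.MT

open Pool.Agent.Y116.MT

universe v u w

section

variable {C : Type u} [Category.{v} C] [Preadditive C] [HasZeroObject C] [HasShift C ℤ]
  [∀ n : ℤ, (shiftFunctor C n).Additive] [Pretriangulated C] [IsTriangulated C]
  [MonoidalCategory C] [SymmetricCategory C] [TensorTriangulated C] [RightRigidCategory C]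

/-- The properties used of the class of Chow motives in a category of constructible motives (the
direct summands of the objects `M(X)(m)[2m]`, where `X` is smooth and projective): it contains the
unit object and the Lefschetz object `T = 𝟙(1)[2]`, it is closed under direct summands, direct sums,
tensor products and duals, there are no non zero morphisms `X ⟶ Y⟦n⟧` of positive degree `n` between
Chow motives (by the comparison of these groups with higher Chow groups), every constructible motive is
obtained from Chow motives by finitely many shifts, extensions and direct summands, and the hard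
Lefschetz theorem holds. -/
structure IsChow (Chow : ObjectProperty C) (T : C) {Λ : Type*} {E : Λ → Type w}
    [∀ l, Field (E l)] (R : ∀ l, Realisation C (E l)) : Prop where
  unit : Chow (𝟙_ C)
  tate : Chow T
  retract {X Y : C} (i : Y ⟶ X) (r : X ⟶ Y) : i ≫ r = 𝟙 Y → Chow X → Chow Y
  sum {X Y : C} : Chow X → Chow Y → Chow (X ⊞ Y)
  tensor {X Y : C} : Chow X → Chow Y → Chow (X ⊗ Y)
  dual {X : C} : Chow X → Chow (Xᘁ : C)
  orthogonal {X Y : C} : Chow X → Chow Y → ∀ n : ℤ, 0 < n → ∀ f : X ⟶ Y⟦n⟧, f = 0
  generate : Chow.IsClassicalTriangulatedGenerator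
  lefschetz : HardLefschetz Chow T R

/-- `P` is a Chow motive, pure of degree `i`: its cohomology vanishes in all degrees except `i`, for
all realisations. -/
def Pure (Chow : ObjectProperty C) {Λ : Type*} {E : Λ → Type w}
    [∀ l, Field (E l)] (R : ∀ l, Realisation C (E l)) (i : ℤ) (P : C) : Prop :=
  Chow P ∧ ∀ l, (R l).Deg P i

/-- Every Chow motive is a finite direct sum of pure ones (the Künneth decomposition). -/
def KunnethDecomposition (Chow : ObjectProperty C) {Λ : Type*} {E : Λ → Type w}
    [∀ l, Field (E l)] (R : ∀ l, Realisation C (E l)) : Prop :=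
  ∀ P : C, Chow P → ∃ (n : ℕ) (d : Fin n → ℤ) (Q : Fin n → C),
    (∀ j, Pure Chow R (d j) (Q j)) ∧ Nonempty (P ≅ ⨁ Q)

/-- On pure Chow motives of degree zero rational and numerical equivalence agree: a cycle class
`f : 𝟙 ⟶ P` with `f ≫ g = 0` for all `g : P ⟶ 𝟙` is zero. -/
def NumericalEquivalence (Chow : ObjectProperty C) {Λ : Type*} {E : Λ → Type w}
    [∀ l, Field (E l)] (R : ∀ l, Realisation C (E l)) : Prop :=
  ∀ P : C, Pure Chow R 0 P → ∀ f : 𝟙_ C ⟶ P, (∀ g : P ⟶ 𝟙_ C, f ≫ g = 0) → f = 0

/-- The motivic cohomology `Hom(𝟙, P⟦n⟧)` of a pure Chow motive `P` of degree `i` vanishes for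
`n < i`, and for `n = i` if `i ≠ 0`. -/
def Vanishing (Chow : ObjectProperty C) {Λ : Type*} {E : Λ → Type w}
    [∀ l, Field (E l)] (R : ∀ l, Realisation C (E l)) : Prop :=
  ∀ (i : ℤ) (P : C), Pure Chow R i P → ∀ n : ℤ, (n < i ∨ n = i ∧ i ≠ 0) →
    ∀ f : 𝟙_ C ⟶ P⟦n⟧, f = 0

end

end Pool.Agent.L0h15.MT
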