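import Pool.Agent.Y116.MT.Deg

/-!
# Powers, names of endomorphisms, classes and pairings: definitions
-/

set_option autoImplicit false

open CategoryTheory Limits MonoidalCategory Pretriangulated Triangulated TensorProduct

namespace Pool.Agent.L0h15.MT

open Pool.Agent.Y116.MT

universe v u w

open Functor.LaxMonoidal Functor.OplaxMonoidal

/-- Powers of an endomorphism. -/
def pwr {C : Type u} [Category.{v} C] {X : C} (f : X ⟶ X) : ℕ → (X ⟶ X)
  | 0 => 𝟙 X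
  | n + 1 => pwr f n ≫ f

section

variable {L : Type u} [Category.{v} L] [MonoidalCategory L] [RightRigidCategory L]
  {B : Type u} [Category.{v} B] [MonoidalCategory B]

/-- The name in `s (P ⊗ P^∨)` of an endomorphism of `s P`. -/
def nm' (s : L ⥤ B) [s.Monoidal] (P : L) (e : s.obj P ⟶ s.obj P) :
    𝟙_ B ⟶ s.obj (P ⊗ (Pᘁ : L)) :=
  ε s ≫ s.map (η_ P Pᘁ) ≫ δ s P Pᘁ ≫ (e ▷ s.obj (Pᘁ : L)) ≫ μ s P Pᘁ

/-- The pairing of `s P` and `s P^∨`. -/
def prg [BraidedCategory L] (s : L ⥤ B) [s.Monoidal] (P : L) :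
    s.obj P ⊗ s.obj (Pᘁ : L) ⟶ 𝟙_ B :=
  μ s P Pᘁ ≫ s.map ((β_ P Pᘁ).hom ≫ ε_ P Pᘁ) ≫ η s

end

section

variable {B : Type u} [Category.{v} B] [Preadditive B] [HasZeroObject B] [HasShift B ℤ]
  [∀ n : ℤ, (shiftFunctor B n).Additive] [Pretriangulated B]
  [MonoidalCategory B] [SymmetricCategory B] [TensorTriangulated B]
  {K : Type w} [Field K] (R : Realisation B K)

/-- The class in `H^0(X)` of a morphism from the unit. -/
noncomputable def cls {X : B} (f : 𝟙_ B ⟶ X) : R.H.obj X :=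
  (R.H.map f).hom ((ε R.H).hom (1 : K))

/-- The pairing of two classes defined by a morphism `X ⊗ Y ⟶ 𝟙`. -/
noncomputable def pair {X Y : B} (θ : X ⊗ Y ⟶ 𝟙_ B) (x : R.H.obj X) (y : R.H.obj Y) :
    R.H.obj (𝟙_ B) :=
  (R.H.map θ).hom ((μ R.H X Y).hom (x ⊗ₜ[K] y))

end

end Pool.Agent.L0h15.MT
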