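import Pool.Agent.L0h15.MT.Nam

/-!
# Families: vanishing and numerical equivalence
-/

set_option autoImplicit false
set_option linter.unusedSectionVars false
set_option linter.unusedSimpArgs false
set_option backward.isDefEq.respectTransparency false
set_option backward.defeqAttrib.useBackward true

open CategoryTheory Limits MonoidalCategory Pretriangulated Triangulated ZeroObject

namespace Pool.Agent.L0h15.MT

open Pool.Agent.Y116.MT

universe v u w

open Functor.LaxMonoidal Functor.OplaxMonoidal Functor.Monoidal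

section

variable {B : Type u} [Category.{v} B] [Preadditive B] [HasZeroObject B] [HasShift B ℤ]
  [∀ n : ℤ, (shiftFunctor B n).Additive] [Pretriangulated B] [IsTriangulated B]
  [MonoidalCategory B] [MonoidalPreadditive B] [SymmetricCategory B] [TensorTriangulated B]
  [RightRigidCategory B]
  {L : Type u} [Category.{v} L] [Preadditive L] [HasZeroObject L] [HasShift L ℤ]
  [∀ n : ℤ, (shiftFunctor L n).Additive] [Pretriangulated L] [IsTriangulated L]
  [MonoidalCategory L] [MonoidalPreadditive L] [SymmetricCategory L] [TensorTriangulated L]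
  [RightRigidCategory L]
  {K : Type w} [Field K] {RB : Realisation B K} {RL : Realisation L K}
  {s : L ⥤ B} [s.Monoidal] [s.CommShift ℤ] (κ : RL.H ≅ s ⋙ RB.H)

/-- The comparison of the cohomology. -/
noncomputable def hs (X : L) (i : ℤ) : RL.H.obj (X⟦i⟧) ≅ RB.H.obj ((s.obj X)⟦i⟧) :=
  κ.app (X⟦i⟧) ≪≫ RB.H.mapIso ((s.commShiftIso i).app X)

lemma hs_nat {X Y : L} (f : X ⟶ Y) (i : ℤ) :
    RL.H.map (f⟦i⟧') ≫ (hs κ Y i).hom = (hs κ X i).hom ≫ RB.H.map ((s.map f)⟦i⟧') := by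
  have h1 := κ.hom.naturality (f⟦i⟧')
  have h2 := (s.commShiftIso i).hom.naturality f
  simp only [hs, Iso.trans_hom, Iso.app_hom, Functor.mapIso_hom, Category.assoc]
  rw [reassoc_of% h1]
  simp only [Functor.comp_map] at h2 ⊢
  rw [← Functor.map_comp, ← Functor.map_comp, h2]

include κ in
lemma isZero_s {X : L} {i : ℤ} :
    IsZero (RL.H.obj (X⟦i⟧)) ↔ IsZero (RB.H.obj ((s.obj X)⟦i⟧)) :=
  ⟨fun h => h.of_iso (hs κ X i).symm, fun h => h.of_iso (hs κ X i)⟩

include κ in
lemma deg_s {X : L} {i : ℤ} : RL.Deg X i ↔ RB.Deg (s.obj X) i :=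
  ⟨fun h j hj => (isZero_s κ).1 (h j hj), fun h j hj => (isZero_s κ).2 (h j hj)⟩

include κ in
lemma map_zero_s {X Y : L} (f : X ⟶ Y) (i : ℤ) :
    RL.H.map (f⟦i⟧') = 0 ↔ RB.H.map ((s.map f)⟦i⟧') = 0 := by
  have h1 := hs_nat κ f i
  constructor
  · intro h0
    rw [h0, zero_comp] at h1
    rw [← cancel_epi (hs κ X i).hom, ← h1, comp_zero]
  · intro h0
    rw [h0, comp_zero] at h1
    rw [← cancel_mono (hs κ Y i).hom, h1, zero_comp]

omit [IsTriangulated B] [MonoidalPreadditive B] [RightRigidCategory B] in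
lemma cls_comp {X Y : B} (f : 𝟙_ B ⟶ X) (g : X ⟶ Y) :
    cls RB (f ≫ g) = (RB.H.map g).hom (cls RB f) := by
  simp [cls]

omit [IsTriangulated B] [MonoidalPreadditive B] [RightRigidCategory B] in
lemma map_eq_of_cls {X : B} (f g : 𝟙_ B ⟶ X) (h : cls RB f = cls RB g) :
    RB.H.map f = RB.H.map g := by
  rw [← cancel_epi (ε RB.H)]
  ext
  exact h

omit [IsTriangulated B] [MonoidalPreadditive B] [RightRigidCategory B] in
lemma cls_zero {X : B} (f : 𝟙_ B ⟶ X) (h : cls RB f = 0) : RB.H.map f = 0 := by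
  have h0 : cls RB (0 : 𝟙_ B ⟶ X) = 0 := by simp [cls]
  rw [map_eq_of_cls f 0 (h.trans h0.symm), Functor.map_zero]

variable {π : L ⥤ B} (ρ : π ⟶ s) (υ : 𝟙_ B ⟶ π.obj (𝟙_ L))
  (hυ : υ ≫ ρ.app (𝟙_ L) = ε s)
  (hadj : ∀ X : L, Function.Bijective (fun f : 𝟙_ L ⟶ X => υ ≫ π.map f))
  (hlow : ∀ (X : L) (i : ℤ), RL.Deg X i → (∀ j : ℤ, j < i → IsZero (RB.H.obj ((π.obj X)⟦j⟧))) ∧
    Mono (RB.H.map ((ρ.app X)⟦i⟧')))

omit [IsTriangulated B] [MonoidalPreadditive B] [RightRigidCategory B] [IsTriangulated L]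
  [MonoidalPreadditive L] [RightRigidCategory L] [Preadditive L] [HasZeroObject L] [HasShift L ℤ]
  [∀ n : ℤ, (shiftFunctor L n).Additive] [Pretriangulated L] [SymmetricCategory L]
  [TensorTriangulated L] [s.CommShift ℤ] [Preadditive B] [HasZeroObject B] [HasShift B ℤ]
  [∀ n : ℤ, (shiftFunctor B n).Additive] [Pretriangulated B] [SymmetricCategory B]
  [TensorTriangulated B] in
include hυ in
lemma adj_comp {X : L} (f : 𝟙_ L ⟶ X) : (υ ≫ π.map f) ≫ ρ.app X = ε s ≫ s.map f := by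
  rw [Category.assoc, ρ.naturality, ← Category.assoc, hυ]

include κ hυ hadj hlow in
/-- Classes in low degrees are determined by the fibre. -/
lemma s_inj (hB : SplitsDeg RB) [s.Additive] {X : L} {m : ℤ} (hX : RL.Deg X m) (hm : 0 ≤ m)
    (f : 𝟙_ L ⟶ X) (hf : s.map f = 0) : f = 0 := by
  obtain ⟨h1, h2⟩ := hlow X m hX
  obtain ⟨Φ, a, d, hT⟩ := distinguished_cocone_triangle₁ (ρ.app X)
  have h3 : (υ ≫ π.map f) ≫ ρ.app X = 0 := by
    rw [adj_comp ρ υ hυ, hf, comp_zero]
  obtain ⟨g, hg⟩ := ce2 hT _ h3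
  have hsX := (deg_s κ).1 hX
  have h4 : CohGE RB Φ (m + 1) := by
    intro j hj
    have k1 : IsZero (RB.H.obj ((s.obj X)⟦j - 1⟧)) := hsX _ (by omega)
    have k2 := hmono1 RB.H hT j k1
    have k3 : Mono (RB.H.map ((ρ.app X)⟦j⟧')) := by
      by_cases hjm : j = m
      · subst hjm; exact h2
      · constructor
        intro Z x y _
        exact (h1 j (by omega)).eq_of_tgt _ _
    rw [IsZero.iff_id_eq_zero, ← cancel_mono (RB.H.map (a⟦j⟧')),
      ← cancel_mono (RB.H.map ((ρ.app X)⟦j⟧'))]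
    simp only [Category.assoc, zero_comp, Category.id_comp]
    rw [← Functor.map_comp, ← Functor.map_comp, comp12 hT]
    simp
  have h5 : g = 0 := hB.orth' g (n := 0) (m := m + 1)
    (fun i hi => deg_unit i (by omega)) h4 (by omega)
  have h6 : υ ≫ π.map f = υ ≫ π.map 0 := by
    have h7 : (υ ≫ π.map f) = 0 := by rw [hg, h5, zero_comp]
    have h8 : υ ≫ π.map (0 : 𝟙_ L ⟶ X) = 0 := by
      have h9 : (υ ≫ π.map (0 : 𝟙_ L ⟶ X)) ≫ ρ.app X = 0 := by
        rw [adj_comp ρ υ hυ, Functor.map_zero, comp_zero]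
      obtain ⟨g', hg'⟩ := ce2 hT _ h9
      have h10 : g' = 0 := hB.orth' g' (n := 0) (m := m + 1)
        (fun i hi => deg_unit i (by omega)) h4 (by omega)
      rw [hg', h10, zero_comp]
    rw [h7, h8]
  exact (hadj X).1 h6

variable {ChowL : ObjectProperty L} {TL : L} {ChowB : ObjectProperty B} {TB : B}
  (hL : IsChow ChowL TL (fun _ : Unit => RL)) (hBc : IsChow ChowB TB (fun _ : Unit => RB))
  (hs : ∀ X : L, ChowL X → ChowB (s.obj X))

include κ hυ hadj hlow hs in
/-- The vanishing of motivic cohomology in families. -/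
theorem van_L (hB : SplitsDeg RB) [s.Additive] (hV : Vanishing ChowB (fun _ : Unit => RB)) :
    Vanishing ChowL (fun _ : Unit => RL) := by
  intro i P hP n hn f
  have h1 : RL.Deg (P⟦n⟧) (i - n) := (hP.2 ()).shift n (i - n) (by omega)
  refine s_inj κ ρ υ hυ hadj hlow hB h1 (by omega) f ?_
  have h2 : ε s ≫ s.map f ≫ ((s.commShiftIso n).app P).hom = 0 :=
    hV i (s.obj P) ⟨hs P hP.1, fun _ => (deg_s κ).1 (hP.2 ())⟩ n hn _
  rw [← cancel_mono ((s.commShiftIso n).app P).hom, zero_comp, ← cancel_epi (ε s), comp_zero]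
  exact h2

end

end Pool.Agent.L0h15.MT
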