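import Pool.Agent.L0h15.MT.FamN

/-!
# Families: the Künneth decomposition
-/

set_option autoImplicit false
set_option linter.unusedSectionVars false
set_option linter.unusedSimpArgs false
set_option backward.isDefEq.respectTransparency false
set_option backward.defeqAttrib.useBackward true

open CategoryTheory Limits MonoidalCategory Pretriangulated Triangulated ZeroObject

namespace Pool.Agent.L0h15.MT

open Pool.Agent.Y116.MT

universe v u w

open Functor.LaxMonoidal Functor.OplaxMonoidal Functor.Monoidal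

section

variable {C : Type u} [Category.{v} C] [Preadditive C] [HasZeroObject C] [HasShift C ℤ]
  [∀ n : ℤ, (shiftFunctor C n).Additive] [Pretriangulated C]
  [MonoidalCategory C] [SymmetricCategory C] [TensorTriangulated C]
  {K : Type w} [Field K] (R : Realisation C K)

/-- The action of the endomorphisms on the cohomology. -/
noncomputable def rhoAll (X : C) : End X →+* (∀ j : ℤ, Module.End K (R.H.obj (X⟦j⟧))) where
  toFun f j := (R.H.map (f⟦j⟧')).hom
  map_one' := by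
    funext j
    change (R.H.map ((𝟙 X)⟦j⟧')).hom = 1
    rw [CategoryTheory.Functor.map_id, CategoryTheory.Functor.map_id]
    rfl
  map_mul' f g := by
    funext j
    change (R.H.map ((g ≫ f)⟦j⟧')).hom = _
    rw [Functor.map_comp, Functor.map_comp]
    rfl
  map_zero' := by
    funext j
    change (R.H.map ((0 : X ⟶ X)⟦j⟧')).hom = 0
    rw [Functor.map_zero, Functor.map_zero]
    rfl
  map_add' f g := by
    funext j
    change (R.H.map (((f : X ⟶ X) + g)⟦j⟧')).hom = _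
    rw [Functor.map_add, Functor.map_add]
    rfl

omit [HasZeroObject C] [HasShift C ℤ] [∀ n : ℤ, (shiftFunctor C n).Additive] [Pretriangulated C]
  [MonoidalCategory C] [SymmetricCategory C] [TensorTriangulated C] in
lemma pow_eq_pwr {X : C} (g : End X) (n : ℕ) : g ^ n = pwr (X := X) g n := by
  induction n with
  | zero => rfl
  | succ n ih =>
    rw [pow_succ, ih, pwr_succ']
    rfl

variable [MonoidalPreadditive C]

/-- The cohomology of `f ▷ Y` in all degrees. -/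
lemma map_whisker_zero' [RightRigidCategory C] {X X' : C} (hX : R.Deg X 0) (f : X ⟶ X') (hf : R.H.map f = 0) (Y : C)
    (i : ℤ) : R.H.map ((f ▷ Y)⟦i⟧') = 0 := by
  have h1 : (f ▷ Y)⟦i⟧' = (rShift X Y i).inv ≫ f ▷ (Y⟦i⟧) ≫ (rShift X' Y i).hom := by
    rw [rShift_natural_left, Iso.inv_hom_id_assoc]
  rw [h1, Functor.map_comp, Functor.map_comp, map_whisker_zero hX f hf, zero_comp, comp_zero]

/-- The direct sum decomposition given by an idempotent. -/
lemma idem_split [IsIdempotentComplete C] {P : C} (p : P ⟶ P) (hp : p ≫ p = p) :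
    ∃ (A B : C) (i : A ⟶ P) (r : P ⟶ A) (j : B ⟶ P) (q : P ⟶ B), i ≫ r = 𝟙 A ∧ j ≫ q = 𝟙 B ∧
      r ≫ i = p ∧ q ≫ j = 𝟙 P - p ∧ Nonempty (P ≅ A ⊞ B) := by
  obtain ⟨A, i, r, h1, h2⟩ := IsIdempotentComplete.idempotents_split P p hp
  obtain ⟨B, j, q, h3, h4⟩ := IsIdempotentComplete.idempotents_split P (𝟙 P - p) (by
    simp [hp])
  have h5 : i ≫ q = 0 := by
    have : i ≫ q = (i ≫ r ≫ i) ≫ (q ≫ j) ≫ q := by
      rw [reassoc_of% h1, Category.assoc, h3, Category.comp_id]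
    rw [this, h2, h4]
    simp [reassoc_of% hp]
  have h6 : j ≫ r = 0 := by
    have : j ≫ r = (j ≫ q ≫ j) ≫ (r ≫ i) ≫ r := by
      rw [reassoc_of% h3, Category.assoc, h1, Category.comp_id]
    rw [this, h2, h4]
    simp [reassoc_of% hp]
  refine ⟨A, B, i, r, j, q, h1, h3, h2, h4, ⟨⟨biprod.lift r q, biprod.desc i j, ?_, ?_⟩⟩⟩
  · rw [biprod.lift_desc, h2, h4]
    abel
  · apply biprod.hom_ext' <;> apply biprod.hom_ext <;> simp [h1, h3, h5, h6]

end

section

variable {B : Type u} [Category.{v} B] [Preadditive B] [HasZeroObject B] [HasShift B ℤ]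
  [∀ n : ℤ, (shiftFunctor B n).Additive] [Pretriangulated B] [IsTriangulated B]
  [MonoidalCategory B] [MonoidalPreadditive B] [SymmetricCategory B] [TensorTriangulated B]
  [RightRigidCategory B] [Linear ℚ B]
  {L : Type u} [Category.{v} L] [Preadditive L] [HasZeroObject L] [HasShift L ℤ]
  [∀ n : ℤ, (shiftFunctor L n).Additive] [Pretriangulated L] [IsTriangulated L]
  [MonoidalCategory L] [MonoidalPreadditive L] [SymmetricCategory L] [TensorTriangulated L]
  [RightRigidCategory L]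
  {K : Type w} [Field K] [CharZero K] {RB : Realisation B K} {RL : Realisation L K}
  {s : L ⥤ B} [s.Monoidal] [s.CommShift ℤ] (κ : RL.H ≅ s ⋙ RB.H)

/-- The cohomology of the endomorphism with a given name. -/
lemma map_unnm'_eq {P : L} (u u' : 𝟙_ B ⟶ s.obj (P ⊗ (Pᘁ : L)))
    (h : RB.H.map u = RB.H.map u') (i : ℤ) :
    RB.H.map ((unnm' s P u)⟦i⟧') = RB.H.map ((unnm' s P u')⟦i⟧') := by
  have h1 : unnm' s P u - unnm' s P u' = unnm' s P (u - u') := by
    have h2 : (u - u') ▷ s.obj P = u ▷ s.obj P - u' ▷ s.obj P := (tensorRight _).map_sub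
    simp only [unnm', h2, Preadditive.comp_sub, Preadditive.sub_comp]
  have h3 : RB.H.map (u - u') = 0 := by rw [Functor.map_sub, h, sub_self]
  have h4 : RB.H.map ((unnm' s P (u - u'))⟦i⟧') = 0 := by
    simp only [unnm', Functor.map_comp]
    rw [map_whisker_zero' RB deg_unit _ h3, zero_comp, comp_zero]
  rw [← sub_eq_zero, ← Functor.map_sub, ← Functor.map_sub, h1, h4]

variable {π : L ⥤ B} (ρ : π ⟶ s) (υ : 𝟙_ B ⟶ π.obj (𝟙_ L))
  (hυ : υ ≫ ρ.app (𝟙_ L) = ε s)
  (hadj : ∀ X : L, Function.Bijective (fun f : 𝟙_ L ⟶ X => υ ≫ π.map f))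
  {ChowL : ObjectProperty L} {TL : L} {ChowB : ObjectProperty B} {TB : B}
  (hfix : ∀ P : L, ChowL P → ∃ (N : B) (ν : N ⟶ π.obj P), ChowB N ∧
    ∀ y : RB.H.obj (π.obj P), ∃ z : RB.H.obj N,
      (RB.H.map (ν ≫ ρ.app P)).hom z = (RB.H.map (ρ.app P)).hom y)
  (hler : ∀ (P : L) (g : P ⟶ P), ChowL P → (∀ j : ℤ, RL.H.map (g⟦j⟧') = 0) →
    ∃ n : ℕ, ∀ (Q : L) (j : ℤ), RB.H.map ((π.map ((pwr g n) ▷ Q))⟦j⟧') = 0)
  (hinv : ∀ (P : L) (e : s.obj P ⟶ s.obj P), ChowL P →
    (∀ i : ℤ, RB.H.map (e⟦i⟧') = 0 ∨ RB.H.map (e⟦i⟧') = 𝟙 _) →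
      ∃ x : RB.H.obj (π.obj (P ⊗ (Pᘁ : L))),
        (RB.H.map (ρ.app (P ⊗ (Pᘁ : L)))).hom x = cls RB (nm' s P e))
  (hL : IsChow ChowL TL (fun _ : Unit => RL)) (hBc : IsChow ChowB TB (fun _ : Unit => RB))
  (hsC : ∀ X : L, ChowL X → ChowB (s.obj X))

include hadj hler in
/-- Endomorphisms which are zero on the cohomology are nilpotent. -/
theorem nil_L [π.Additive] {t : TStructure B} (H : OneExact t RB) {P : L} (hP : ChowL P)
    (g : P ⟶ P) (hg : ∀ j : ℤ, RL.H.map (g⟦j⟧') = 0) : ∃ N : ℕ, pwr g N = 0 := by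
  obtain ⟨n, hn⟩ := hler P g hP hg
  obtain ⟨N, hN1, hN2⟩ := H.bounded (π.obj (P ⊗ (Pᘁ : L)))
  have h1 := nilp_of H (2 * N) (π.obj (P ⊗ (Pᘁ : L))) (-N) hN2
    (t.isLE_of_le _ N _ (by push_cast; omega)) (π.map ((pwr g n) ▷ (Pᘁ : L))) (hn _)
  have h2 : ∀ m : ℕ, pwr (π.map ((pwr g n) ▷ (Pᘁ : L))) m =
      π.map ((pwr g (n * m)) ▷ (Pᘁ : L)) := by
    intro m
    induction m with
    | zero => simp [pwr]
    | succ m ih =>
      change pwr _ m ≫ _ = _
      rw [ih, ← Functor.map_comp, ← comp_whiskerRight, ← pwr_add, Nat.mul_succ]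
  rw [h2] at h1
  refine ⟨n * (2 * N + 1), eq_zero_of_nm _ ?_⟩
  apply (hadj _).1
  dsimp only
  rw [nm, Functor.map_comp, h1, Functor.map_zero, comp_zero, comp_zero]

include κ hυ hadj hfix hler hinv hL hBc hsC in
/-- The truncation of a Chow motive is a direct summand. -/
theorem peel_L [IsIdempotentComplete L] [π.Additive] [s.Additive] {t : TStructure B}
    (H : OneExact t RB) (hU : ∀ c : 𝟙_ B ⟶ 𝟙_ B, ∃ q : ℚ, c = q • 𝟙 _) {P : L} (hP : ChowL P)
    (n : ℤ) : ∃ (A B' : L) (i : A ⟶ P) (r : P ⟶ A) (j : B' ⟶ P) (q : P ⟶ B'),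
      i ≫ r = 𝟙 A ∧ j ≫ q = 𝟙 B' ∧ CohLE RL A n ∧ CohGE RL B' (n + 1) ∧
      Nonempty (P ≅ A ⊞ B') := by
  obtain ⟨A, A', a, b, c, s', d, hT, hac, hsb, hA, hA'⟩ := chow_trunc hBc () H (s.obj P)
    (hsC P hP) n
  set e : s.obj P ⟶ s.obj P := c ≫ a with he
  have e1 : ∀ i : ℤ, n < i → RB.H.map (e⟦i⟧') = 0 := by
    intro i hi
    rw [he, Functor.map_comp, Functor.map_comp,
      (H.exact.isLE hA i hi).eq_of_tgt (RB.H.map (c⟦i⟧')) 0, zero_comp]
  have e2 : ∀ i : ℤ, i ≤ n → RB.H.map (e⟦i⟧') = 𝟙 _ := by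
    intro i hi
    have i1 : IsIso (RB.H.map (a⟦i⟧')) :=
      hiso1 RB.H hT i (H.exact.isGE hA' _ (by omega)) (H.exact.isGE hA' _ (by omega))
    have k2 : RB.H.map (a⟦i⟧') ≫ RB.H.map (c⟦i⟧') = 𝟙 _ := by
      rw [← Functor.map_comp, ← Functor.map_comp, hac, CategoryTheory.Functor.map_id,
        CategoryTheory.Functor.map_id]
    rw [he, Functor.map_comp, Functor.map_comp, ← cancel_epi (RB.H.map (a⟦i⟧')), ← Category.assoc,
      k2, Category.id_comp, Category.comp_id]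
  obtain ⟨x, hx⟩ := hinv P e hP (fun i => by
    by_cases hi : i ≤ n
    · exact Or.inr (e2 i hi)
    · exact Or.inl (e1 i (by omega)))
  obtain ⟨N, ν, hN, hν⟩ := hfix (P ⊗ (Pᘁ : L)) (hL.tensor hP (hL.dual hP))
  obtain ⟨z, hz⟩ := hν x
  obtain ⟨c', hc'⟩ := chow_lift hBc H hU hN (hsC _ (hL.tensor hP (hL.dual hP)))
    (ν ≫ ρ.app (P ⊗ (Pᘁ : L))) (nm' s P e) z (hz.trans hx)
  obtain ⟨ch, hch⟩ := (hadj (P ⊗ (Pᘁ : L))).2 (c' ≫ ν)
  dsimp only at hch
  have h7 : ε s ≫ s.map ch = c' ≫ ν ≫ ρ.app (P ⊗ (Pᘁ : L)) := by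
    rw [← adj_comp ρ υ hυ, hch, Category.assoc]
  have h8 : ∀ i : ℤ, RB.H.map ((s.map (unnm ch))⟦i⟧') = RB.H.map (e⟦i⟧') := by
    intro i
    rw [map_unnm, h7]
    conv_rhs => rw [← unnm'_nm' s P e]
    exact map_unnm'_eq _ _ (map_eq_of_cls _ _ hc') i
  have f1 : ∀ i : ℤ, n < i → RL.H.map ((unnm ch)⟦i⟧') = 0 := by
    intro i hi
    rw [map_zero_s κ, h8, e1 i hi]
  have f2 : ∀ i : ℤ, i ≤ n → RL.H.map ((unnm ch)⟦i⟧') = 𝟙 _ := by
    intro i hi
    rw [← cancel_mono (hs κ P i).hom, hs_nat, h8, e2 i hi, Category.comp_id, Category.id_comp]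
  -- lifting the idempotent
  have hnil : ∀ g ∈ RingHom.ker (rhoAll RL P), IsNilpotent g := by
    intro g hg
    have hg' : ∀ j : ℤ, RL.H.map ((show P ⟶ P from g)⟦j⟧') = 0 := by
      intro j
      have := congrFun (RingHom.mem_ker.1 hg) j
      ext y
      exact LinearMap.congr_fun this y
    obtain ⟨M, hM⟩ := nil_L υ hadj hler H hP g hg'
    exact ⟨M, by rw [pow_eq_pwr]; exact hM⟩
  obtain ⟨p, hp1, hp2⟩ := exists_isIdempotentElem_eq_of_ker_isNilpotent (rhoAll RL P) hnil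
    (rhoAll RL P (unnm ch)) ⟨_, rfl⟩ (by
      funext j
      by_cases hj : j ≤ n
      · have h9 : rhoAll RL P (unnm ch) j = 1 := by
          change (RL.H.map ((unnm ch)⟦j⟧')).hom = 1
          rw [f2 j hj]
          rfl
        rw [Pi.mul_apply, h9, one_mul]
      · have h9 : rhoAll RL P (unnm ch) j = 0 := by
          change (RL.H.map ((unnm ch)⟦j⟧')).hom = 0
          rw [f1 j (by omega)]
          rfl
        rw [Pi.mul_apply, h9, zero_mul])
  have hp3 : ∀ j : ℤ, RL.H.map ((show P ⟶ P from p)⟦j⟧') = RL.H.map ((unnm ch)⟦j⟧') := by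
    intro j
    ext y
    exact LinearMap.congr_fun (congrFun hp2 j) y
  obtain ⟨A1, B1, i, r, j, q, h1, h2, h3, h4, h5⟩ := idem_split (show P ⟶ P from p) hp1
  refine ⟨A1, B1, i, r, j, q, h1, h2, ?_, ?_, h5⟩
  · intro k hk
    rw [IsZero.iff_id_eq_zero]
    have h6 : 𝟙 A1 = i ≫ (show P ⟶ P from p) ≫ r := by
      rw [← h3]
      simp only [Category.assoc, h1, Category.comp_id]
    have h7 : 𝟙 (RL.H.obj (A1⟦k⟧)) = RL.H.map ((𝟙 A1)⟦k⟧') := by
      rw [CategoryTheory.Functor.map_id, CategoryTheory.Functor.map_id]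
    rw [h7, h6]
    simp only [Functor.map_comp]
    rw [hp3, f1 k hk, zero_comp, comp_zero]
  · intro k hk
    rw [IsZero.iff_id_eq_zero]
    have h6 : 𝟙 B1 = j ≫ (𝟙 P - (show P ⟶ P from p)) ≫ q := by
      rw [← h4]
      simp only [Category.assoc, h2, Category.comp_id]
    have h7 : 𝟙 (RL.H.obj (B1⟦k⟧)) = RL.H.map ((𝟙 B1)⟦k⟧') := by
      rw [CategoryTheory.Functor.map_id, CategoryTheory.Functor.map_id]
    rw [h7, h6]
    simp only [Functor.map_comp, Functor.map_sub]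
    rw [hp3, f2 k (by omega), CategoryTheory.Functor.map_id, CategoryTheory.Functor.map_id,
      sub_self, zero_comp, comp_zero]

include κ hυ hadj hfix hler hinv hL hBc hsC in
/-- The Künneth decomposition in families. -/
theorem kun_L [IsIdempotentComplete L] [π.Additive] [s.Additive] {t : TStructure B}
    (H : OneExact t RB) (hU : ∀ c : 𝟙_ B ⟶ 𝟙_ B, ∃ q : ℚ, c = q • 𝟙 _) :
    KunnethDecomposition ChowL (fun _ : Unit => RL) := by
  have key : ∀ (m : ℕ) (P : L) (a : ℤ), ChowL P → CohGE RL P a → CohLE RL P (a + m) →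
      ∃ (n : ℕ) (d : Fin n → ℤ) (Q : Fin n → L),
        (∀ j, Pure ChowL (fun _ : Unit => RL) (d j) (Q j)) ∧ Nonempty (P ≅ ⨁ Q) := by
    intro m
    induction m with
    | zero =>
      intro P a hP h1 h2
      refine ⟨1, fun _ => a, fun _ => P, fun j => ⟨hP, fun _ i hi => ?_⟩, ⟨?_⟩⟩
      · have hi' : i ≠ a := hi
        rcases lt_or_gt_of_ne hi' with h' | h'
        · exact h1 i h'
        · exact h2 i (by push_cast; omega)
      · exact (biproductUniqueIso (fun _ : Fin 1 => P)).symm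
    | succ m ih =>
      intro P a hP h1 h2
      obtain ⟨A, B', i, r, j, q, hir, hjq, hA, hB', ⟨e⟩⟩ := peel_L κ ρ υ hυ hadj hfix hler hinv hL
        hBc hsC H hU hP a
      have hA2 : CohGE RL A a := h1.retract i r hir
      have hB2 : CohLE RL B' (a + 1 + m) := (h2.retract j q hjq).mono (by push_cast; omega)
      obtain ⟨n, d, Q, hQ, ⟨e'⟩⟩ := ih B' (a + 1) (hL.retract j q hjq hP) hB' hB2
      refine ⟨n + 1, Fin.cons a d, Fin.cons A Q, ?_, ⟨?_⟩⟩
      · intro k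
        refine Fin.cases ?_ (fun k => ?_) k
        · refine ⟨hL.retract i r hir hP, fun _ l hl => ?_⟩
          rcases lt_or_gt_of_ne hl with h' | h'
          · exact hA2 l h'
          · exact hA l h'
        · exact hQ k
      · exact e ≪≫ biprod.mapIso (Iso.refl _) e' ≪≫ consIso A Q
  intro P hP
  obtain ⟨N, hN1, hN2⟩ := H.bounded (s.obj P)
  refine key (2 * N) P (-N) hP ?_ ?_
  · intro i hi
    exact (isZero_s κ).2 (H.exact.isGE hN2 i hi)
  · intro i hi
    have hi' : (N : ℤ) < i := by push_cast at hi; linarith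
    exact (isZero_s κ).2 (H.exact.isLE hN1 i hi')

end

end Pool.Agent.L0h15.MT
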