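import Pool.Agent.L0h15.MT.Part

/-!
# Families: rational and numerical equivalence
-/

set_option autoImplicit false
set_option linter.unusedSectionVars false
set_option linter.unusedSimpArgs false
set_option backward.isDefEq.respectTransparency false
set_option backward.defeqAttrib.useBackward true

open CategoryTheory Limits MonoidalCategory Pretriangulated Triangulated ZeroObject TensorProduct

namespace Pool.Agent.L0h15.MT

open Pool.Agent.Y116.MT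

universe v u w

open Functor.LaxMonoidal Functor.OplaxMonoidal Functor.Monoidal

section

variable {B : Type u} [Category.{v} B] [Preadditive B] [HasZeroObject B] [HasShift B ℤ]
  [∀ n : ℤ, (shiftFunctor B n).Additive] [Pretriangulated B]
  [MonoidalCategory B] [SymmetricCategory B] [TensorTriangulated B]
  {K : Type w} [Field K] (R : Realisation B K)

lemma map_leftUnitor_inv_apply {N : B} (w : R.H.obj N) :
    (R.H.map (λ_ N).inv).hom w = (μ R.H (𝟙_ B) N).hom ((ε R.H).hom (1 : K) ⊗ₜ[K] w) := by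
  have h1 := left_unitality R.H N
  have h2 : (λ_ (R.H.obj N)).inv ≫ ε R.H ▷ R.H.obj N ≫ μ R.H (𝟙_ B) N = R.H.map (λ_ N).inv := by
    rw [← cancel_mono (R.H.map (λ_ N).hom), ← cancel_epi (λ_ (R.H.obj N)).hom]
    simp only [Category.assoc, Iso.hom_inv_id_assoc]
    rw [← Functor.map_comp, Iso.inv_hom_id, CategoryTheory.Functor.map_id, Category.comp_id, h1]
  rw [← h2]
  rfl

lemma pair_unit {X Y N : B} (θ : X ⊗ Y ⟶ 𝟙_ B) (a : 𝟙_ B ⟶ X) (b : N ⟶ Y) (w : R.H.obj N) :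
    (R.H.map ((λ_ N).inv ≫ (a ⊗ₘ b) ≫ θ)).hom w = pair R θ (cls R a) ((R.H.map b).hom w) := by
  have h1 : (μ R.H (𝟙_ B) N) ≫ R.H.map (a ⊗ₘ b) = (R.H.map a ⊗ₘ R.H.map b) ≫ μ R.H X Y :=
    (μ_natural R.H a b).symm
  have h2 := LinearMap.congr_fun (congrArg ModuleCat.Hom.hom h1) ((ε R.H).hom (1 : K) ⊗ₜ[K] w)
  rw [Functor.map_comp, Functor.map_comp, ModuleCat.hom_comp, ModuleCat.hom_comp,
    LinearMap.comp_apply, LinearMap.comp_apply, map_leftUnitor_inv_apply]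
  refine (congrArg (R.H.map θ).hom h2).trans ?_
  rfl

end

section

variable {B : Type u} [Category.{v} B] [Preadditive B] [HasZeroObject B] [HasShift B ℤ]
  [∀ n : ℤ, (shiftFunctor B n).Additive] [Pretriangulated B] [IsTriangulated B]
  [MonoidalCategory B] [MonoidalPreadditive B] [SymmetricCategory B] [TensorTriangulated B]
  [RightRigidCategory B] [Linear ℚ B]
  {L : Type u} [Category.{v} L] [Preadditive L] [HasZeroObject L] [HasShift L ℤ]
  [∀ n : ℤ, (shiftFunctor L n).Additive] [Pretriangulated L] [IsTriangulated L]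
  [MonoidalCategory L] [MonoidalPreadditive L] [SymmetricCategory L] [TensorTriangulated L]
  [RightRigidCategory L]
  {K : Type w} [Field K] [CharZero K] {RB : Realisation B K} {RL : Realisation L K}
  {s : L ⥤ B} [s.Monoidal] [s.CommShift ℤ] (κ : RL.H ≅ s ⋙ RB.H)

variable {π : L ⥤ B} (ρ : π ⟶ s) (υ : 𝟙_ B ⟶ π.obj (𝟙_ L))
  (hυ : υ ≫ ρ.app (𝟙_ L) = ε s)
  (hadj : ∀ X : L, Function.Bijective (fun f : 𝟙_ L ⟶ X => υ ≫ π.map f))
  (hlow : ∀ (X : L) (i : ℤ), RL.Deg X i → (∀ j : ℤ, j < i → IsZero (RB.H.obj ((π.obj X)⟦j⟧))) ∧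
    Mono (RB.H.map ((ρ.app X)⟦i⟧')))
  {ChowL : ObjectProperty L} {TL : L} {ChowB : ObjectProperty B} {TB : B}
  (hpol : ∀ P : L, ChowL P → RL.Deg P 0 → ∀ x : RB.H.obj (π.obj P),
    (RB.H.map (ρ.app P)).hom x ≠ 0 → ∃ y : RB.H.obj (π.obj (Pᘁ : L)),
      pair RB (prg s P) ((RB.H.map (ρ.app P)).hom x) ((RB.H.map (ρ.app (Pᘁ : L))).hom y) ≠ 0)
  (hfix : ∀ P : L, ChowL P → ∃ (N : B) (ν : N ⟶ π.obj P), ChowB N ∧
    ∀ y : RB.H.obj (π.obj P), ∃ z : RB.H.obj N,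
      (RB.H.map (ν ≫ ρ.app P)).hom z = (RB.H.map (ρ.app P)).hom y)
  (hL : IsChow ChowL TL (fun _ : Unit => RL)) (hBc : IsChow ChowB TB (fun _ : Unit => RB))

include κ hυ hadj hlow hpol hfix hL hBc in
/-- Rational and numerical equivalence agree in families. -/
theorem num_L {t : TStructure B} (H : OneExact t RB) [s.Additive] 
    (hU : ∀ c : 𝟙_ B ⟶ 𝟙_ B, ∃ q : ℚ, c = q • 𝟙 _) :
    NumericalEquivalence ChowL (fun _ : Unit => RL) := by
  intro P hP f hf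
  by_contra hne
  have hP0 : RL.Deg P 0 := hP.2 ()
  have h1 : s.map f ≠ 0 := fun h0 => hne (s_inj κ ρ υ hυ hadj hlow H.splits hP0 le_rfl f h0)
  have h2 : (RB.H.map (ρ.app P)).hom (cls RB (υ ≫ π.map f)) = cls RB (ε s ≫ s.map f) := by
    rw [← adj_comp ρ υ hυ, cls_comp (f := υ ≫ π.map f)]
  have h3 : (RB.H.map (ρ.app P)).hom (cls RB (υ ≫ π.map f)) ≠ 0 := by
    intro h0
    rw [h2] at h0
    have h4 := cls_zero _ h0
    have h5 : Hrt t (s.obj P) := ⟨H.isLE_deg ((deg_s κ).1 hP0), H.isGE_deg ((deg_s κ).1 hP0)⟩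
    have h6 := faithful_heart H.tensor H.exact H.unit H.idem H.unit h5 _ h4
    apply h1
    rw [← cancel_epi (ε s), h6, comp_zero]
  obtain ⟨y, hy⟩ := hpol P hP.1 hP0 _ h3
  obtain ⟨N, ν, hN, hν⟩ := hfix (Pᘁ : L) (hL.dual hP.1)
  obtain ⟨z, hz⟩ := hν y
  obtain ⟨N0, i, r, hir, hN0, hN1, hN2, hN3⟩ := chow_part hBc () H N hN
  set θ : N0 ⟶ 𝟙_ B := (λ_ N0).inv ≫ ((ε s ≫ s.map f) ⊗ₘ (i ≫ ν ≫ ρ.app (Pᘁ : L))) ≫ prg s P
    with hθ
  have h4 : (RB.H.map θ).hom ((RB.H.map r).hom z) ≠ 0 := by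
    rw [hθ, pair_unit]
    have h5 : (RB.H.map (i ≫ ν ≫ ρ.app (Pᘁ : L))).hom ((RB.H.map r).hom z) =
        (RB.H.map (ρ.app (Pᘁ : L))).hom y := by
      rw [← hz]
      have h6 : (RB.H.map i).hom ((RB.H.map r).hom z) = z :=
        LinearMap.congr_fun (congrArg ModuleCat.Hom.hom hN3) z
      rw [Functor.map_comp, ModuleCat.hom_comp, LinearMap.comp_apply, h6]
    rw [h5, ← h2]
    exact hy
  have h5 : θ ≠ 0 := by
    intro h0
    apply h4
    rw [h0, Functor.map_zero]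
    rfl
  have hu : ChowB (𝟙_ B) := hBc.unit
  obtain ⟨g, hg⟩ := chow_regular hBc H hU hN0 hN1 hN2 hu H.unit.1 H.unit.2 θ
  have h6 : g ≫ θ ≠ 0 := by
    intro h0
    apply h5
    rw [← hg, h0, comp_zero]
  obtain ⟨yh, hyh⟩ := (hadj (Pᘁ : L)).2 (g ≫ i ≫ ν)
  have h7 : ε s ≫ s.map yh = g ≫ i ≫ ν ≫ ρ.app (Pᘁ : L) := by
    rw [← adj_comp ρ υ hυ]
    dsimp only at hyh
    rw [hyh]
    simp only [Category.assoc]
  have h8 := hf ((ρ_ P).inv ≫ (P ◁ yh) ≫ (β_ P Pᘁ).hom ≫ ε_ P Pᘁ)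
  apply h6
  have h9 : g ≫ θ = ε s ≫ s.map (f ≫ (ρ_ P).inv ≫ (P ◁ yh) ≫ (β_ P Pᘁ).hom ≫ ε_ P Pᘁ) ≫ η s := by
    rw [hθ]
    have e1 : g ≫ (λ_ N0).inv ≫ ((ε s ≫ s.map f) ⊗ₘ (i ≫ ν ≫ ρ.app (Pᘁ : L))) ≫ prg s P =
        (λ_ (𝟙_ B)).inv ≫ ((ε s ≫ s.map f) ⊗ₘ (ε s ≫ s.map yh)) ≫ prg s P := by
      rw [h7, leftUnitor_inv_naturality_assoc, ← id_tensorHom, tensorHom_comp_tensorHom_assoc,
        Category.id_comp]
    rw [e1, prg]
    simp only [Functor.map_comp, map_rightUnitor_inv, map_whiskerLeft, Category.assoc, μ_δ_assoc]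
    have e2 : (λ_ (𝟙_ B)).inv ≫ ((ε s ≫ s.map f) ⊗ₘ (ε s ≫ s.map yh)) =
        ε s ≫ s.map f ≫ (ρ_ (s.obj P)).inv ≫ s.obj P ◁ ε s ≫ s.obj P ◁ s.map yh := by
      rw [← MonoidalCategory.whiskerLeft_comp, rightUnitor_inv_naturality_assoc,
        rightUnitor_inv_naturality_assoc, ← comp_whiskerRight_assoc, unitors_inv_equal,
        MonoidalCategory.tensorHom_def]
    rw [reassoc_of% e2]
  rw [h9, h8, Functor.map_zero, zero_comp, comp_zero]

end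

end Pool.Agent.L0h15.MT
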