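import Pool.Agent.L0h15.MT.Sys

/-!
# Transfer of the t-structure along extensions of the base field
-/

set_option autoImplicit false
set_option linter.unusedSectionVars false
set_option linter.unusedSimpArgs false
set_option linter.checkUnivs false
set_option backward.isDefEq.respectTransparency false
set_option backward.defeqAttrib.useBackward true

open CategoryTheory Limits MonoidalCategory Pretriangulated Triangulated ZeroObject

namespace Pool.Agent.L0h15.MT

open Pool.Agent.Y116.MT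

universe v u w

open Functor.LaxMonoidal

variable {K : Type w} [Field K]

lemma Mot.oneExact (A : Mot.{v, u} K) (h : SplitsDeg (A.R)) :
    OneExact h.tStructure (A.R) :=
  IsMotivic.oneExact h.motivic (hid_of A.unit ⟨K, inferInstance, ⟨A.R⟩⟩) ()

/-- The t-structure in families. -/
theorem splits_family [CharZero K] {B : Mot.{v, u} K} (D : FamilyData B) (hD : IsFamily D)
    (h : SplitsDeg (B.R)) : SplitsDeg (D.L.R) := by
  have H := B.oneExact h
  have hL : IsChow D.L.Chow D.L.T (fun _ : Unit => D.L.R) := D.L.chow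
  have hB : IsChow B.Chow B.T (fun _ : Unit => B.R) := B.chow
  have hpol : ∀ P : D.L.C, D.L.Chow P → (D.L.R).Deg P 0 → ∀ x : (B.R).H.obj (D.π.obj P),
    ((B.R).H.map (D.ρ.app P)).hom x ≠ 0 → ∃ y : (B.R).H.obj (D.π.obj (Pᘁ : D.L.C)),
      pair (B.R) (prg D.s.F P) (((B.R).H.map (D.ρ.app P)).hom x)
        (((B.R).H.map (D.ρ.app (Pᘁ : D.L.C))).hom y) ≠ 0 := hD.semisimple
  have hfix : ∀ P : D.L.C, D.L.Chow P → ∃ (N : B.C) (ν : N ⟶ D.π.obj P), B.Chow N ∧
    ∀ y : (B.R).H.obj (D.π.obj P), ∃ z : (B.R).H.obj N,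
      ((B.R).H.map (ν ≫ D.ρ.app P)).hom z = ((B.R).H.map (D.ρ.app P)).hom y := by
    intro P hP
    obtain ⟨N, ν, hN, hν⟩ := hD.fixedPart P hP
    refine ⟨N, ν, hN, fun y => ?_⟩
    obtain ⟨z, hz⟩ := hν y
    refine ⟨z, ?_⟩
    rw [Functor.map_comp]
    exact hz
  have hK := kun_L D.s.compare D.ρ D.υ hD.adjoint.1 hD.adjoint.2 hfix hD.leray hD.degenerate hL hB
    D.s.chow H B.unit
  have hN := num_L D.s.compare D.ρ D.υ hD.adjoint.1 hD.adjoint.2 hD.low hpol hfix hL hB H B.unit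
  have hV := van_L D.s.compare D.ρ D.υ hD.adjoint.1 hD.adjoint.2 hD.low D.s.chow h
    (vanishing_of hB () H)
  obtain ⟨t, hM⟩ := exists_motivic hL hK hN hV D.L.unit
  exact (IsMotivic.oneExact hM (hid_of D.L.unit ⟨K, inferInstance, ⟨D.L.R⟩⟩) ()).splits

section

variable {A B : Mot.{v, u} K} (g : MFun A B)

lemma MFun.isZero_iff {X : A.C} {i : ℤ} :
    IsZero ((A.R).H.obj (X⟦i⟧)) ↔ IsZero ((B.R).H.obj ((g.F.obj X)⟦i⟧)) :=
  isZero_s g.compare

lemma MFun.le_iff {X : A.C} {n : ℤ} : CohLE (A.R) X n ↔ CohLE (B.R) (g.F.obj X) n :=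
  ⟨fun h i hi => g.isZero_iff.1 (h i hi), fun h i hi => g.isZero_iff.2 (h i hi)⟩

lemma MFun.ge_iff {X : A.C} {n : ℤ} : CohGE (A.R) X n ↔ CohGE (B.R) (g.F.obj X) n :=
  ⟨fun h i hi => g.isZero_iff.1 (h i hi), fun h i hi => g.isZero_iff.2 (h i hi)⟩

end

/-- Images of triangles under triangulated functors. -/
lemma tr_map {A B : Type u} [Category.{v} A] [Preadditive A] [HasZeroObject A] [HasShift A ℤ]
    [∀ n : ℤ, (shiftFunctor A n).Additive] [Pretriangulated A]
    [Category.{v} B] [Preadditive B] [HasZeroObject B] [HasShift B ℤ]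
    [∀ n : ℤ, (shiftFunctor B n).Additive] [Pretriangulated B] (F : A ⥤ B) [F.CommShift ℤ]
    [F.IsTriangulated] {X Y Z : A} (h : Tr X Y Z) : Tr (F.obj X) (F.obj Y) (F.obj Z) := by
  obtain ⟨f, g, k, hT⟩ := h
  exact ⟨_, _, _, F.map_distinguished _ hT⟩

/-- Objects have truncations. -/
def HasTrunc (A : Mot.{v, u} K) (X : A.C) : Prop :=
  ∃ (X' X'' : A.C), Tr X' X X'' ∧ CohLE (A.R) X' 0 ∧ CohGE (A.R) X'' 1

lemma HasTrunc.iso {A : Mot.{v, u} K} {X Y : A.C} (h : HasTrunc A X) (e : X ≅ Y) :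
    HasTrunc A Y := by
  obtain ⟨X', X'', h1, h2, h3⟩ := h
  exact ⟨X', X'', h1.iso (Iso.refl _) e (Iso.refl _), h2, h3⟩

lemma HasTrunc.map {A B : Mot.{v, u} K} (g : MFun A B) {X : A.C} (h : HasTrunc A X) :
    HasTrunc B (g.F.obj X) := by
  obtain ⟨X', X'', h1, h2, h3⟩ := h
  exact ⟨_, _, tr_map g.F h1, g.le_iff.1 h2, g.ge_iff.1 h3⟩

lemma HasTrunc.down {A B : Mot.{v, u} K} (p : FiniteExt A B) {X : B.C} (h : HasTrunc B X) :
    HasTrunc A (p.down.obj X) := by
  obtain ⟨X', X'', h1, h2, h3⟩ := h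
  exact ⟨_, _, tr_map p.down h1, fun i hi => (p.coh _ i).1 (h2 i hi),
    fun i hi => (p.coh _ i).1 (h3 i hi)⟩

/-- The orthogonality. -/
def Orth (A : Mot.{v, u} K) : Prop :=
  ∀ {X Y : A.C} (f : X ⟶ Y), CohLE (A.R) X 0 → CohGE (A.R) Y 1 → f = 0

lemma splits_iff (A : Mot.{v, u} K) :
    SplitsDeg (A.R) ↔ Orth A ∧ ∀ X, HasTrunc A X := by
  constructor
  · intro h
    refine ⟨fun f => h.orth f, fun X => ?_⟩
    obtain ⟨X', X'', f, g, k, hT, h2, h3⟩ := h.trunc X
    exact ⟨X', X'', ⟨f, g, k, hT⟩, h2, h3⟩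
  · rintro ⟨h1, h2⟩
    refine ⟨fun f => h1 f, fun X => ?_⟩
    obtain ⟨X', X'', ⟨f, g, k, hT⟩, h2, h3⟩ := h2 X
    exact ⟨X', X'', f, g, k, hT, h2, h3⟩

lemma HasTrunc.retract {A : Mot.{v, u} K} (hA : Orth A) {X Y : A.C} (h : HasTrunc A Y)
    (i : X ⟶ Y) (r : Y ⟶ X) (hir : i ≫ r = 𝟙 X) : HasTrunc A X := by
  obtain ⟨X', X'', ⟨f, g, k, hT⟩, h2, h3⟩ := h
  have ho : ∀ {X Y : A.C} (f : X ⟶ Y) (n m : ℤ), CohLE (A.R) X n → CohGE (A.R) Y m →
      n < m → f = 0 := by
    intro X Y f n m hX hY hnm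
    apply (shiftFunctor A.C n).map_injective
    rw [Functor.map_zero]
    exact hA _ (hX.shift n 0 (by omega)) ((hY.shift n (m - n) (by omega)).mono (by omega))
  obtain ⟨Z', Z'', f', g', k', hT', h2', h3'⟩ := trunc_retract ho i r hir
    ⟨X', X'', f, g, k, hT, h2, h3⟩
  exact ⟨Z', Z'', ⟨f', g', k', hT'⟩, h2', h3'⟩

/-- The t-structure for the large field, if all morphisms lift. -/
lemma splits_of_lift {B : Mot.{v, u} K} (h : ∀ {X Y : B.C} (f : X ⟶ Y),
    ∃ (A : Mot.{v, u} K) (g : MFun A B) (X' Y' : A.C) (f' : X' ⟶ Y'),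
      SplitsDeg (A.R) ∧ Lifts g f' f) : SplitsDeg (B.R) := by
  rw [splits_iff]
  refine ⟨?_, fun X => ?_⟩
  · intro X Y f hX hY
    obtain ⟨A, g, X', Y', f', hA, e, e', he⟩ := h f
    have h1 : f' = 0 := hA.orth f' (g.le_iff.2 (hX.iso e.symm)) (g.ge_iff.2 (hY.iso e'.symm))
    rw [← cancel_epi e.hom, ← he, h1, Functor.map_zero, zero_comp, comp_zero]
  · obtain ⟨A, g, X', Y', f', hA, e, e', he⟩ := h (𝟙 X)
    exact ((((splits_iff A).1 hA).2 X').map g).iso e

/-- The truncation over the large field lifts. -/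
lemma trunc_lift {A B : Mot.{v, u} K} (g : MFun A B) {X' Y' : A.C} (f' : X' ⟶ Y') {X Y Z : B.C}
    (f : X ⟶ Y) {b : Y ⟶ Z} {d : Z ⟶ X⟦(1 : ℤ)⟧} (hT : Triangle.mk f b d ∈ distTriang B.C)
    (hf : Lifts g f' f) (hX : CohLE (B.R) X 0) (hZ : CohGE (B.R) Z 1) : HasTrunc A Y' := by
  obtain ⟨e, e', he⟩ := hf
  obtain ⟨Z', b', d', hT'⟩ := distinguished_cocone_triangle f'
  refine ⟨X', Z', ⟨_, _, _, hT'⟩, g.le_iff.2 (hX.iso e.symm), g.ge_iff.2 ?_⟩
  have h1 := g.F.map_distinguished _ hT'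
  have h2 : IsIso ((completeDistinguishedTriangleMorphism _ _ h1 hT e.hom e'.hom he).hom₃) :=
    isIso₃_of_isIso₁₂ (completeDistinguishedTriangleMorphism _ _ h1 hT e.hom e'.hom he) h1 hT
      (by dsimp; infer_instance) (by dsimp; infer_instance)
  exact hZ.iso (asIso ((completeDistinguishedTriangleMorphism _ _ h1 hT e.hom e'.hom he).hom₃)).symm

/-- Orthogonality descends. -/
lemma orth_of_faithful {A B : Mot.{v, u} K} (F : A.C ⥤ B.C) [F.PreservesZeroMorphisms]
    (hF : F.Faithful)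
    (hle : ∀ X, CohLE (A.R) X 0 → CohLE (B.R) (F.obj X) 0)
    (hge : ∀ X, CohGE (A.R) X 1 → CohGE (B.R) (F.obj X) 1)
    (h : Orth B) : Orth A := by
  intro X Y f hX hY
  apply F.map_injective
  rw [Functor.map_zero]
  exact h _ (hle X hX) (hge Y hY)

/-- Finite extensions, from the small to the large field. -/
theorem FiniteExt.splits_up {A B : Mot.{v, u} K} (p : FiniteExt A B) (h : SplitsDeg (A.R)) :
    SplitsDeg (B.R) := by
  rw [splits_iff] at h ⊢
  have h1 : Orth B := by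
    intro X Y f hX hY
    have h2 : p.down.map f = 0 := h.1 _ (fun i hi => (p.coh _ i).1 (hX i hi))
      (fun i hi => (p.coh _ i).1 (hY i hi))
    have h3 : p.i'.app X ≫ p.r'.app X = 𝟙 X := by
      rw [← NatTrans.comp_app, p.ir']
      rfl
    have h4 := p.r'.naturality f
    have h5 : (p.down ⋙ p.up.F).map f = 0 := by
      rw [Functor.comp_map, h2, Functor.map_zero]
    rw [h5, zero_comp] at h4
    have h6 : p.r'.app X ≫ f = 0 := h4.symm
    have h7 : (p.i'.app X ≫ p.r'.app X) ≫ f = 0 := by rw [Category.assoc, h6, comp_zero]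
    rw [h3] at h7
    exact (Category.id_comp f).symm.trans h7
  refine ⟨h1, fun X => ?_⟩
  exact ((h.2 (p.down.obj X)).map p.up).retract h1 (p.i'.app X) (p.r'.app X) (by
    rw [← NatTrans.comp_app, p.ir']
    rfl)

/-- Algebraic extensions. -/
theorem AlgebraicExt.splits_iff {A B : Mot.{v, u} K} (p : AlgebraicExt A B) :
    SplitsDeg (A.R) ↔ SplitsDeg (B.R) := by
  constructor
  · intro h
    apply splits_of_lift
    intro X Y f
    obtain ⟨A', q, g, X', Y', f', hf⟩ := p.lift f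
    exact ⟨A', g, X', Y', f', q.splits_up h, hf⟩
  · intro h
    rw [MT.splits_iff] at h ⊢
    have h1 : Orth A := orth_of_faithful p.b.F p.faithful (fun X => p.b.le_iff.1)
      (fun X => p.b.ge_iff.1) h.1
    refine ⟨h1, fun Y => ?_⟩
    obtain ⟨X, Z, ⟨f, b, d, hT⟩, hX, hZ⟩ := h.2 (p.b.F.obj Y)
    obtain ⟨A', q, g, X', f', hf⟩ := p.lift' f
    have h2 := (trunc_lift g f' f hT hf hX hZ).down q
    exact h2.retract h1 (q.i.app Y) (q.r.app Y) (by
      rw [← NatTrans.comp_app, q.ir]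
      rfl)

/-- Extensions of algebraically closed fields. -/
theorem ClosedExt.splits_iff [CharZero K] {A B : Mot.{v, u} K} (p : ClosedExt A B) :
    SplitsDeg (A.R) ↔ SplitsDeg (B.R) := by
  constructor
  · intro h
    apply splits_of_lift
    intro X Y f
    obtain ⟨D, g, X', Y', f', hD, hf⟩ := p.lift f
    exact ⟨D.L, g, X', Y', f', splits_family D hD h, hf⟩
  · intro h
    rw [MT.splits_iff] at h ⊢
    have h1 : Orth A := orth_of_faithful p.b.F p.faithful (fun X => p.b.le_iff.1)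
      (fun X => p.b.ge_iff.1) h.1
    refine ⟨h1, fun Y => ?_⟩
    obtain ⟨X, Z, ⟨f, b, d, hT⟩, hX, hZ⟩ := h.2 (p.b.F.obj Y)
    obtain ⟨D, g, X', Y', f', hD, hf, ⟨e⟩⟩ := p.lift' f
    exact ((trunc_lift g f' f hT hf hX hZ).map D.s).iso e

section System

variable {p : ℕ} {Λ : Type} {E : Λ → Type w} [∀ l, Field (E l)] [∀ l, CharZero (E l)] {l : Λ}
  (S : MotSystem.{v, u} p E l)

/-- All realisations at once. -/
theorem MotSystem.exists_iff_splits (k : Type) [Field k] [CharP k p] :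
    S.Exists k ↔ SplitsDeg (S.M k).R := by
  constructor
  · rintro ⟨t, hM⟩
    rw [← S.eq k]
    exact (IsMotivic.oneExact hM (hid_of (S.M k).unit ⟨E l, inferInstance, ⟨S.R k l⟩⟩) l).splits
  · intro h
    have h1 : ∃ t : TStructure (S.M k).C, OneExact t (S.R k l) := by
      rw [S.eq k]
      exact ⟨_, (S.M k).oneExact h⟩
    obtain ⟨t, h1⟩ := h1
    exact ⟨_, motivic_of_one (S.chow k) (S.betti k) (S.M k).unit l h1⟩

lemma MotSystem.algebraic_iff (k Ω : Type) [Field k] [Field Ω] [CharP k p] [CharP Ω p]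
    [Algebra k Ω] [IsAlgClosure k Ω] : S.Exists k ↔ S.Exists Ω := by
  obtain ⟨q⟩ := S.algebraic k Ω
  rw [S.exists_iff_splits, S.exists_iff_splits]
  exact q.splits_iff

lemma MotSystem.closed_iff (k Ω : Type) [Field k] [Field Ω] [CharP k p] [CharP Ω p]
    [Algebra k Ω] [IsAlgClosed k] [IsAlgClosed Ω] : S.Exists k ↔ S.Exists Ω := by
  obtain ⟨q⟩ := S.closed k Ω
  rw [S.exists_iff_splits, S.exists_iff_splits]
  exact q.splits_iff

lemma MotSystem.ext_iff (k k' : Type) [Field k] [Field k'] [CharP k p] [CharP k' p]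
    [Algebra k k'] : S.Exists k ↔ S.Exists k' := by
  have : CharP (AlgebraicClosure k) p := charP_of_injective_algebraMap
    (algebraMap k (AlgebraicClosure k)).injective p
  have : CharP (AlgebraicClosure k') p := charP_of_injective_algebraMap
    (algebraMap k' (AlgebraicClosure k')).injective p
  rw [S.algebraic_iff k (AlgebraicClosure k), S.algebraic_iff k' (AlgebraicClosure k')]
  let φ : AlgebraicClosure k →ₐ[k] AlgebraicClosure k' := IsAlgClosed.lift
  let _ : Algebra (AlgebraicClosure k) (AlgebraicClosure k') := φ.toRingHom.toAlgebra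
  exact S.closed_iff _ _

/-- The existence of the motivic t-structure depends only on the characteristic. -/
theorem MotSystem.exists_iff (k k' : Type) [Field k] [Field k'] [CharP k p] [CharP k' p] :
    S.Exists k ↔ S.Exists k' := by
  rcases CharP.char_is_prime_or_zero k p with hp | hp
  · have : Fact p.Prime := ⟨hp⟩
    let _ : Algebra (ZMod p) k := ZMod.algebra k p
    let _ : Algebra (ZMod p) k' := ZMod.algebra k' p
    rw [← S.ext_iff (ZMod p) k, ← S.ext_iff (ZMod p) k']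
  · subst hp
    have : CharZero k := CharP.charP_to_charZero k
    have : CharZero k' := CharP.charP_to_charZero k'
    rw [← S.ext_iff ℚ k, ← S.ext_iff ℚ k']

end System

end Pool.Agent.L0h15.MT
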