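import Pool.Agent.L0h15.MT.FinDefs
import Pool.Agent.L0h15.MT.Trf

/-!
# Finite fields
-/

set_option autoImplicit false
set_option linter.unusedSectionVars false
set_option linter.unusedSimpArgs false
set_option linter.checkUnivs false
set_option backward.isDefEq.respectTransparency false
set_option backward.defeqAttrib.useBackward true

open CategoryTheory Limits MonoidalCategory Pretriangulated Triangulated ZeroObject TensorProduct

namespace Pool.Agent.L0h15.MT

open Pool.Agent.Y116.MT

universe v u w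

open Functor.LaxMonoidal

section

variable {C : Type u} [Category.{v} C] [Preadditive C] [HasZeroObject C] [HasShift C ℤ]
  [∀ n : ℤ, (shiftFunctor C n).Additive] [Pretriangulated C] [MonoidalCategory C]
  [SymmetricCategory C] [TensorTriangulated C] [MonoidalPreadditive C]
  {E : Type w} [Field E] (R : Realisation C E)

lemma shiftTensorIso_natural {X X' : C} (f : X ⟶ X') (Y : C) (i : ℤ) :
    (f⟦i⟧') ▷ (Y⟦-i⟧) ≫ (shiftTensorIso X' Y i).hom =
      (shiftTensorIso X Y i).hom ≫ (f ▷ Y) := by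
  simp only [shiftTensorIso, Iso.trans_hom, Functor.mapIso_hom, Category.assoc]
  rw [← Category.assoc, rShift_natural_left, Category.assoc, ← Category.assoc ((_)⟦-i⟧'),
    ← Functor.map_comp, lShift_natural_left, Functor.map_comp, Category.assoc]
  congr 2
  exact (shiftEquiv C i).unitIso.inv.naturality (f ▷ Y)

/-- If `f` is zero on the cohomology then so is `f ▷ Y`. -/
lemma map_whisker_zero_all {X X' : C} (f : X ⟶ X') (hf : ∀ i : ℤ, R.H.map (f⟦i⟧') = 0) (Y : C) :
    R.H.map (f ▷ Y) = 0 := by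
  ext z
  obtain ⟨y, rfl⟩ := (R.kunneth X Y).2 z
  induction y using DirectSum.induction_on with
  | zero => simp
  | add a b ha hb => rw [map_add, map_add, ha, hb]; simp
  | of i a =>
    have h1 : (kunnethMap R.H X Y) (DirectSum.of _ i a) =
        (μ R.H (X⟦i⟧) (Y⟦-i⟧) ≫ R.H.map (shiftTensorIso X Y i).hom).hom a :=
      DirectSum.toModule_lof E (φ := fun i : ℤ =>
        (μ R.H (X⟦i⟧) (Y⟦-i⟧) ≫ R.H.map (shiftTensorIso X Y i).hom).hom) i a
    have h2 : (μ R.H (X⟦i⟧) (Y⟦-i⟧) ≫ R.H.map (shiftTensorIso X Y i).hom) ≫ R.H.map (f ▷ Y) =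
        0 := by
      have h3 : (0 : R.H.obj (X⟦i⟧) ⟶ R.H.obj (X'⟦i⟧)) ▷ R.H.obj (Y⟦-i⟧) = 0 :=
        (tensorRight _).map_zero _ _
      rw [Category.assoc, ← Functor.map_comp, ← shiftTensorIso_natural, Functor.map_comp,
        ← Category.assoc, ← μ_natural_left, hf i, h3, zero_comp, zero_comp]
    have h4 := LinearMap.congr_fun (congrArg ModuleCat.Hom.hom h2) a
    rw [h1]
    exact h4

end

variable {K : Type w} [Field K]

section

variable {A : Mot.{v, u} K} (Fr : Frob A)

/-- The Frobenius acts trivially on classes. -/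
lemma Frob.comp_poly {P : A.C} {n : ℤ} (f : 𝟙_ A.C ⟶ P⟦n⟧) (p : Polynomial ℚ) :
    f ≫ (A.poly (Fr.Φ.app P) p)⟦n⟧' = p.eval 1 • f := by
  have hF : ∀ (q : ℚ) (g : P ⟶ P), (q • g)⟦n⟧' = q • g⟦n⟧' := fun q g =>
    map_rat_smul ((shiftFunctor A.C n).mapAddHom (X := P) (Y := P)) q g
  have h1 : f ≫ (Fr.Φ.app P)⟦n⟧' = f := by
    have h2 := Fr.Φ.naturality f
    rw [Fr.unit, Fr.shift] at h2
    simpa using h2
  induction p using Polynomial.induction_on' with
  | add p q hp hq =>
    have h2 : A.poly (Fr.Φ.app P) (p + q) = A.poly (Fr.Φ.app P) p + A.poly (Fr.Φ.app P) q :=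
      map_add _ _ _
    rw [h2, Functor.map_add, Preadditive.comp_add, hp, hq, Polynomial.eval_add, add_smul]
  | monomial k a =>
    have h2 : A.poly (Fr.Φ.app P) (Polynomial.monomial k a) = a • pwr (Fr.Φ.app P) k := by
      rw [Mot.poly, Polynomial.aeval_monomial, ← pow_eq_pwr, ← Algebra.smul_def]
    have h3 : ∀ k : ℕ, f ≫ (pwr (Fr.Φ.app P) k)⟦n⟧' = f := by
      intro k
      induction k with
      | zero => simp [pwr]
      | succ k ih =>
        change f ≫ (pwr (Fr.Φ.app P) k ≫ Fr.Φ.app P)⟦n⟧' = f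
        rw [Functor.map_comp, ← Category.assoc, ih, h1]
    rw [h2, hF, Linear.comp_smul, h3]
    simp

include Fr in
/-- The Künneth projectors given by the Frobenius. -/
lemma Frob.proj (P : A.C) (hP : A.Chow P) (i : ℤ) : ∃ e : P ⟶ P, A.IsProj e i ∧
    ∀ (n : ℤ) (f : 𝟙_ A.C ⟶ P⟦n⟧), f ≫ e⟦n⟧' = if i = 0 then f else 0 := by
  obtain ⟨p, hp, he⟩ := Fr.weil P i hP
  refine ⟨_, he, fun n f => ?_⟩
  rw [Fr.comp_poly, hp]
  split_ifs <;> simp

end

section

variable [CharZero K] {A : Mot.{v, u} K}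

lemma Mot.isChow (A : Mot.{v, u} K) : IsChow A.Chow A.T (fun _ : Unit => A.R) := A.chow

/-- Endomorphisms of the unit which are zero on the cohomology are zero. -/
lemma Mot.unit_zero (c : 𝟙_ A.C ⟶ 𝟙_ A.C) (hc : A.R.H.map c = 0) : c = 0 := by
  obtain ⟨q, rfl⟩ := A.unit c
  have h1 := sc_rat A.R q
  rw [sc, hc, zero_comp, comp_zero] at h1
  have h2 : (algebraMap ℚ K) q = 0 := h1.symm
  rw [(map_eq_zero (algebraMap ℚ K)).1 h2, zero_smul]

/-- Rational and homological equivalence agree. -/
lemma Mot.RatNum.hom_zero (h : A.RatNum) {P : A.C} (hP : A.Chow P) (f : 𝟙_ A.C ⟶ P)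
    (hf : A.R.H.map f = 0) : f = 0 :=
  h P hP f fun g => A.unit_zero _ (by rw [Functor.map_comp, hf, zero_comp])

lemma Mot.RatNum.end_zero (h : A.RatNum) {P : A.C} (hP : A.Chow P) (g : P ⟶ P)
    (hg : ∀ i : ℤ, A.R.H.map (g⟦i⟧') = 0) : g = 0 := by
  apply eq_zero_of_nm
  apply h.hom_zero (A.isChow.tensor hP (A.isChow.dual hP))
  rw [nm, Functor.map_comp, map_whisker_zero_all A.R g hg, comp_zero]

/-- The Künneth decomposition. -/
lemma Mot.RatNum.kunneth (h : A.RatNum) (Fr : Frob A) :
    KunnethDecomposition A.Chow (fun _ : Unit => A.R) := by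
  have key : ∀ (m : ℕ) (P : A.C) (a : ℤ), A.Chow P → CohGE A.R P a → CohLE A.R P (a + m) →
      ∃ (n : ℕ) (d : Fin n → ℤ) (Q : Fin n → A.C),
        (∀ j, Pure A.Chow (fun _ : Unit => A.R) (d j) (Q j)) ∧ Nonempty (P ≅ ⨁ Q) := by
    intro m
    induction m with
    | zero =>
      intro P a hP h1 h2
      refine ⟨1, fun _ => a, fun _ => P, fun j => ⟨hP, fun _ i hi => ?_⟩, ⟨?_⟩⟩
      · have hi' : i ≠ a := hi
        rcases lt_or_gt_of_ne hi' with h' | h'
        · exact h1 i h'
        · exact h2 i (by push_cast; omega)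
      · exact (biproductUniqueIso (fun _ : Fin 1 => P)).symm
    | succ m ih =>
      intro P a hP h1 h2
      obtain ⟨e, ⟨he1, he2⟩, -⟩ := Fr.proj P hP a
      have he1' : A.R.H.map (e⟦a⟧') = 𝟙 _ := he1
      have he2' : ∀ j : ℤ, j ≠ a → A.R.H.map (e⟦j⟧') = 0 := he2
      have hee : e ≫ e = e := by
        rw [← sub_eq_zero]
        apply h.end_zero hP
        intro i
        rw [Functor.map_sub, Functor.map_sub, Functor.map_comp, Functor.map_comp]
        by_cases hi : i = a
        · subst hi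
          rw [he1', Category.comp_id, sub_self]
        · rw [he2' i hi, comp_zero, sub_self]
      obtain ⟨A1, B1, i, r, j, q, h3, h4, h5, h6, ⟨e'⟩⟩ := idem_split e hee
      have hA1 : A.R.Deg A1 a := by
        intro k hk
        rw [IsZero.iff_id_eq_zero]
        have h6 : 𝟙 A1 = i ≫ e ≫ r := by
          rw [← h5]
          simp only [Category.assoc, h3, Category.comp_id]
        have h7 : 𝟙 (A.R.H.obj (A1⟦k⟧)) = A.R.H.map ((𝟙 A1)⟦k⟧') := by
          rw [CategoryTheory.Functor.map_id, CategoryTheory.Functor.map_id]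
        rw [h7, h6]
        simp only [Functor.map_comp]
        rw [he2' k hk, zero_comp, comp_zero]
      have hB0 : IsZero (A.R.H.obj (B1⟦a⟧)) := by
        rw [IsZero.iff_id_eq_zero]
        have h7 : 𝟙 B1 = j ≫ (𝟙 P - e) ≫ q := by
          rw [← h6]
          simp only [Category.assoc, h4, Category.comp_id]
        have h8 : 𝟙 (A.R.H.obj (B1⟦a⟧)) = A.R.H.map ((𝟙 B1)⟦a⟧') := by
          rw [CategoryTheory.Functor.map_id, CategoryTheory.Functor.map_id]
        rw [h8, h7]
        simp only [Functor.map_comp, Functor.map_sub]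
        rw [he1', CategoryTheory.Functor.map_id, CategoryTheory.Functor.map_id, sub_self,
          zero_comp, comp_zero]
      have hB1 : CohGE A.R B1 (a + 1) := by
        intro k hk
        by_cases hka : k = a
        · subst hka; exact hB0
        · exact (h1.retract j q h4) k (by omega)
      have hB2 : CohLE A.R B1 (a + 1 + m) := (h2.retract j q h4).mono (by push_cast; omega)
      obtain ⟨n, d, Q, hQ, ⟨e''⟩⟩ := ih B1 (a + 1) (A.isChow.retract j q h4 hP) hB1 hB2
      refine ⟨n + 1, Fin.cons a d, Fin.cons A1 Q, ?_, ⟨?_⟩⟩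
      · intro k
        refine Fin.cases ?_ (fun k => ?_) k
        · exact ⟨A.isChow.retract i r h3 hP, fun _ => hA1⟩
        · exact hQ k
      · exact e' ≪≫ biprod.mapIso (Iso.refl _) e'' ≪≫ consIso A1 Q
  intro P hP
  obtain ⟨N, hN⟩ := A.R.bounded P
  exact key (2 * N) P (-N) hP (fun i hi => hN i (by omega))
    (fun i hi => hN i (by push_cast at hi; omega))

/-- The vanishing. -/
lemma Mot.RatNum.vanishing (h : A.RatNum) (hp : A.Parshin) :
    Vanishing A.Chow (fun _ : Unit => A.R) := by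
  intro i P hP n hn f
  by_cases hn0 : n = 0
  · subst hn0
    have hi : i ≠ 0 := by omega
    have h1 : A.Chow (P⟦(0 : ℤ)⟧) := A.isChow.iso ((shiftFunctorZero A.C ℤ).app P).symm hP.1
    apply h.hom_zero h1
    have h2 : IsZero (A.R.H.obj (P⟦(0 : ℤ)⟧)) := hP.2 () 0 (by omega)
    exact h2.eq_of_tgt _ _
  · exact hp P hP.1 n hn0 f

/-- The criterion over finite fields. -/
theorem fin_iff (Fr : Frob A) : SplitsDeg A.R ↔ A.RatNum ∧ A.Parshin := by
  constructor
  · intro hs
    have H := A.oneExact hs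
    have hN := numerical_of A.isChow () H
    have hV := vanishing_of A.isChow () H
    have hK := kunneth_of A.isChow () (fun _ => H)
    -- pure motives of degree different from zero
    have h1 : ∀ (P : A.C) (i : ℤ), i ≠ 0 → Pure A.Chow (fun _ : Unit => A.R) i P →
        ∀ (n : ℤ) (f : 𝟙_ A.C ⟶ P⟦n⟧), f = 0 := by
      intro P i hi hP n f
      obtain ⟨e, ⟨he1, -⟩, he3⟩ := Fr.proj P hP.1 i
      have he1' : A.R.H.map (e⟦i⟧') = 𝟙 _ := he1
      have h2 : Hrt hs.tStructure (P⟦i⟧) := by
        have h3 := (hP.2 ()).shift i 0 (by omega)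
        exact ⟨H.isLE_deg h3, H.isGE_deg h3⟩
      have h4 : (e - 𝟙 P)⟦i⟧' = 0 := faithful_heart H.tensor H.exact H.unit H.idem h2 h2 _ (by
        rw [Functor.map_sub, Functor.map_sub, he1', CategoryTheory.Functor.map_id,
          CategoryTheory.Functor.map_id, sub_self])
      have h5 : e - 𝟙 P = 0 := (shiftFunctor A.C i).map_injective (by rw [h4, Functor.map_zero])
      have h6 : e = 𝟙 P := sub_eq_zero.1 h5
      have h7 := he3 n f
      rw [h6, CategoryTheory.Functor.map_id, Category.comp_id, if_neg hi] at h7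
      exact h7
    constructor
    · intro P hP f hf
      obtain ⟨m, d, Q, hQ, ⟨e⟩⟩ := hK P hP
      have h2 : f ≫ e.hom = 0 := by
        apply biproduct.hom_ext
        intro j
        rw [zero_comp]
        by_cases hj : d j = 0
        · have h3 := hQ j
          rw [hj] at h3
          refine hN (Q j) h3 _ fun g => ?_
          have h4 := hf (e.hom ≫ biproduct.π Q j ≫ g)
          simpa only [Category.assoc] using h4
        · have h3 := h1 (Q j) (d j) hj (hQ j) 0
            (((f ≫ e.hom) ≫ biproduct.π Q j) ≫ (shiftFunctorZero A.C ℤ).inv.app (Q j))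
          rw [← cancel_mono ((shiftFunctorZero A.C ℤ).inv.app (Q j)), h3, zero_comp]
      rw [← cancel_mono e.hom, h2, zero_comp]
    · intro P hP n hn f
      rcases lt_or_gt_of_ne hn with hn' | hn'
      · obtain ⟨m, d, Q, hQ, ⟨e⟩⟩ := hK P hP
        have h2 : ∀ j, f ≫ (e.hom ≫ biproduct.π Q j)⟦n⟧' = 0 := by
          intro j
          by_cases hj : d j = 0
          · exact hV (d j) (Q j) (hQ j) n (Or.inl (by omega)) _
          · exact h1 (Q j) (d j) hj (hQ j) n _
        have h3 : 𝟙 P = ∑ j, (e.hom ≫ biproduct.π Q j) ≫ (biproduct.ι Q j ≫ e.inv) := by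
          have h4 := biproduct.total (f := Q)
          calc 𝟙 P = e.hom ≫ (∑ j, biproduct.π Q j ≫ biproduct.ι Q j) ≫ e.inv := by
                rw [h4, Category.id_comp, Iso.hom_inv_id]
            _ = _ := by
                rw [Preadditive.sum_comp, Preadditive.comp_sum]
                simp only [Category.assoc]
        calc f = f ≫ (𝟙 P)⟦n⟧' := by rw [CategoryTheory.Functor.map_id, Category.comp_id]
          _ = ∑ j, (f ≫ (e.hom ≫ biproduct.π Q j)⟦n⟧') ≫ (biproduct.ι Q j ≫ e.inv)⟦n⟧' := by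
              rw [h3, Functor.map_sum, Preadditive.comp_sum]
              simp only [Functor.map_comp, Category.assoc]
          _ = 0 := by simp only [h2, zero_comp, Finset.sum_const_zero]
      · exact A.isChow.orthogonal A.isChow.unit hP n hn' f
  · rintro ⟨h1, h2⟩
    obtain ⟨t, hM⟩ := exists_motivic A.isChow (h1.kunneth Fr) (fun P hP => h1 P hP.1)
      (h1.vanishing h2) A.unit
    exact (IsMotivic.oneExact hM (hid_of A.unit ⟨K, inferInstance, ⟨A.R⟩⟩) ()).splits

end

end Pool.Agent.L0h15.MT
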