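import Pool.Agent.L0h15.MT.Sys

/-!
# Finite fields: definitions
-/

set_option autoImplicit false
set_option linter.checkUnivs false

open CategoryTheory Limits MonoidalCategory Pretriangulated Triangulated

namespace Pool.Agent.L0h15.MT

open Pool.Agent.Y116.MT

universe v u w

variable {K : Type w} [Field K]

/-- The value at an endomorphism of a polynomial with rational coefficients. -/
noncomputable def Mot.poly (A : Mot.{v, u} K) {X : A.C} (f : X ⟶ X) (p : Polynomial ℚ) : X ⟶ X :=
  Polynomial.aeval (R := ℚ) (A := End X) f p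

/-- The endomorphism `f` is the projection to the cohomology of degree `i`. -/
def Mot.IsProj (A : Mot.{v, u} K) {X : A.C} (f : X ⟶ X) (i : ℤ) : Prop :=
  (A.coh i).map f = 𝟙 _ ∧ ∀ j : ℤ, j ≠ i → (A.coh j).map f = 0

/-- The Frobenius of the category `A` of constructible motives over a finite field: an endomorphism
`Φ` of the identity functor, compatible with shifts, which is the identity on the unit object, and
such that (Deligne's theorem on the weights, and the consequences drawn by Katz and Messing) for each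
Chow motive `P` and each `i` some polynomial `p` in the Frobenius `Φ_P` is the projection to the
cohomology of degree `i`, where `p(1)` is `1` if `i = 0` and `0` otherwise. -/
structure Frob (A : Mot.{v, u} K) where
  Φ : 𝟭 A.C ⟶ 𝟭 A.C
  unit : Φ.app (𝟙_ A.C) = 𝟙 (𝟙_ A.C)
  shift (X : A.C) (n : ℤ) : Φ.app (X⟦n⟧) = (Φ.app X)⟦n⟧'
  weil (P : A.C) (i : ℤ) : A.Chow P → ∃ p : Polynomial ℚ,
    p.eval 1 = (if i = 0 then 1 else 0) ∧ A.IsProj (A.poly (Φ.app P) p) i

/-- Rational and numerical equivalence agree on Chow motives: a cycle class `f : 𝟙 ⟶ P` with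
`f ≫ g = 0` for all `g : P ⟶ 𝟙` is zero. -/
def Mot.RatNum (A : Mot.{v, u} K) : Prop :=
  ∀ P : A.C, A.Chow P → ∀ f : 𝟙_ A.C ⟶ P, (∀ g : P ⟶ 𝟙_ A.C, f ≫ g = 0) → f = 0

/-- Parshin's conjecture: `Hom(𝟙, P⟦n⟧) = 0` for all Chow motives `P` and all `n ≠ 0`. (For
`P = M(X)(m)[2m]` and `n = -j < 0` this is a graded piece of `K_j(X)` with rational coefficients of a
smooth projective variety `X`.) -/
def Mot.Parshin (A : Mot.{v, u} K) : Prop :=
  ∀ P : A.C, A.Chow P → ∀ n : ℤ, n ≠ 0 → ∀ f : 𝟙_ A.C ⟶ P⟦n⟧, f = 0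

end Pool.Agent.L0h15.MT
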