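import Pool.Agent.L0h15.MT.Spl
import Pool.Agent.L0h15.MT.Back2

/-!
# Consequences of the existence of a motivic t-structure
-/

set_option autoImplicit false
set_option linter.unusedSectionVars false
set_option linter.unusedSimpArgs false
set_option backward.isDefEq.respectTransparency false
set_option backward.defeqAttrib.useBackward true

open CategoryTheory Limits MonoidalCategory Pretriangulated Triangulated ZeroObject

namespace Pool.Agent.L0h15.MT

open Pool.Agent.Y116.MT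

universe v u w

section

variable {C : Type u} [Category.{v} C] [Preadditive C] [HasZeroObject C] [HasShift C ℤ]
  [∀ n : ℤ, (shiftFunctor C n).Additive] [Pretriangulated C] [IsTriangulated C]
  [MonoidalCategory C] [MonoidalPreadditive C] [SymmetricCategory C] [TensorTriangulated C]
  [RightRigidCategory C] {t : TStructure C}
  {Chow : ObjectProperty C} {T : C} {Λ : Type*} {E : Λ → Type w} [∀ l, Field (E l)]
  {R : ∀ l, Realisation C (E l)}

/-- The data of a nondegenerate tensor compatible t-structure exact for one realisation. -/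
structure OneExact (t : TStructure C) {K : Type w} [Field K] (R0 : Realisation C K) : Prop where
  tensor : TensorCompat t
  exact : TExact t R0
  nondeg_le (X : C) : (∀ n : ℤ, t.le n X) → IsZero X
  nondeg_ge (X : C) : (∀ n : ℤ, t.ge n X) → IsZero X
  idem (e : 𝟙_ C ⟶ 𝟙_ C) : e ≫ e = e → e = 0 ∨ e = 𝟙 _

namespace OneExact

variable {K : Type w} [Field K] {R0 : Realisation C K} (H : OneExact t R0)

include H

lemma unit : Hrt t (𝟙_ C) := unit_hrt H.tensor H.nondeg_le H.nondeg_ge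

lemma conserv (X : C) (hX : ∀ i : ℤ, IsZero (R0.H.obj (X⟦i⟧))) : IsZero X :=
  conservative H.tensor H.exact H.unit H.idem H.nondeg_le H.nondeg_ge hX

lemma isLE {X : C} {n : ℤ} (hX : ∀ i : ℤ, n < i → IsZero (R0.H.obj (X⟦i⟧))) : t.IsLE X n :=
  isLE_of_H H.tensor H.exact H.unit H.idem H.nondeg_le H.nondeg_ge hX

lemma isGE {X : C} {n : ℤ} (hX : ∀ i : ℤ, i < n → IsZero (R0.H.obj (X⟦i⟧))) : t.IsGE X n :=
  isGE_of_H H.tensor H.exact H.unit H.idem H.nondeg_le H.nondeg_ge hX

lemma isLE_deg {X : C} {n : ℤ} (hX : R0.Deg X n) : t.IsLE X n :=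
  H.isLE fun i hi => hX i (by omega)

lemma isGE_deg {X : C} {n : ℤ} (hX : R0.Deg X n) : t.IsGE X n :=
  H.isGE fun i hi => hX i (by omega)

lemma bounded (X : C) : ∃ N : ℕ, t.IsLE X N ∧ t.IsGE X (-N) :=
  bounded_of_H H.tensor H.exact H.unit H.idem H.nondeg_le H.nondeg_ge X

lemma deg_of {X : C} {n : ℤ} (h1 : t.IsLE X n) (h2 : t.IsGE X n) : R0.Deg X n := by
  intro i hi
  rcases lt_or_gt_of_ne hi with h' | h'
  · exact H.exact.isGE h2 i h'
  · exact H.exact.isLE h1 i h'

end OneExact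

/-- Chow motives decompose according to degrees for the t-structure. -/
theorem chow_decompose (h : IsChow Chow T R) (l : Λ) (H : OneExact t (R l)) (P : C)
    (hP : Chow P) : ∃ (m : ℕ) (d : Fin m → ℤ) (Q : Fin m → C),
      (∀ j, Chow (Q j) ∧ t.IsLE (Q j) (d j) ∧ t.IsGE (Q j) (d j)) ∧ Nonempty (P ≅ ⨁ Q) := by
  obtain ⟨Q, i, r, e, hir, hQ, hL⟩ := h.lefschetz.lefschetz P hP
  obtain ⟨N, hN1, hN2⟩ := H.bounded Q
  have hT1 := H.isLE_deg (h.lefschetz.degree l)
  have hT2 := H.isGE_deg (h.lefschetz.degree l)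
  have h1 : Dec t Chow Q := by
    refine dec_of_lef H.tensor H.exact H.conserv h.lefschetz.invertible hT1 hT2
      (fun i r hir hX => h.retract i r hir hX) e (N + e.natAbs) Q hQ
      (t.isGE_of_ge Q _ (-N) (by omega)) (t.isLE_of_le Q N _ (by omega)) ?_
    intro j _
    obtain ⟨L, hL⟩ := hL j
    exact ⟨L, hL l⟩
  obtain ⟨N', hN1', hN2'⟩ := H.bounded P
  refine Spl.decompose (fun i r hir hX => h.retract i r hir hX) (2 * N') P (-N') hP
    ⟨Q, i, r, hir, h1.spl⟩ hN2' (t.isLE_of_le P N' _ (by push_cast; omega))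

section Pairing

variable [Linear ℚ C]

lemma hid_of (hU : ∀ c : 𝟙_ C ⟶ 𝟙_ C, ∃ q : ℚ, c = q • 𝟙 _) (R0 : ∃ (K : Type w) (_ : Field K),
    Nonempty (Realisation C K)) (e : 𝟙_ C ⟶ 𝟙_ C) (he : e ≫ e = e) : e = 0 ∨ e = 𝟙 _ := by
  obtain ⟨K, _, ⟨R0⟩⟩ := R0
  obtain ⟨q, rfl⟩ := hU e
  have h1 : (q * q - q) • 𝟙 (𝟙_ C) = 0 := by
    rw [sub_smul, sub_eq_zero, mul_smul]
    simpa using he
  have h2 : q * q - q = 0 := by
    by_contra h0
    have h3 : 𝟙 (𝟙_ C) = 0 := by
      have h4 := congrArg (fun x => (q * q - q)⁻¹ • x) h1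
      simp only [smul_smul, inv_mul_cancel₀ h0, one_smul, smul_zero] at h4
      exact h4
    exact not_isZero_unit R0 ((IsZero.iff_id_eq_zero _).2 h3)
  have h3 : q * (q - 1) = 0 := by linarith
  rcases mul_eq_zero.1 h3 with h4 | h4
  · left; rw [h4, zero_smul]
  · right
    rw [show q = 1 by linarith, one_smul]

end Pairing

/-- Rational and numerical equivalence agree in degree zero. -/
theorem numerical_of [Linear ℚ C] (h : IsChow Chow T R) (l : Λ) (H : OneExact t (R l)) :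
    NumericalEquivalence Chow R := by
  intro P hP f hf
  by_contra hne
  have hP' : Hrt t P := ⟨H.isLE_deg (hP.2 l), H.isGE_deg (hP.2 l)⟩
  obtain ⟨r, hr⟩ := heart_pairing H.tensor H.exact H.unit H.idem hP' Chow h.unit
    (fun X hX => h.tensor hX hP.1) (fun X hX m hm g => h.orthogonal hX h.unit m hm g) f hne
  exact hr (hf r)

/-- The vanishing of motivic cohomology. -/
theorem vanishing_of [Linear ℚ C] (h : IsChow Chow T R) (l : Λ) (H : OneExact t (R l)) :
    Vanishing Chow R := by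
  intro i P hP n hn f
  have h1 := H.isLE_deg (hP.2 l)
  have h2 := H.isGE_deg (hP.2 l)
  rcases hn with hn | ⟨rfl, hn⟩
  · exact t.zero_of_isLE_of_isGE f 0 (i - n) (by omega) H.unit.1
      (t.isGE_shift P i n (i - n))
  · rcases lt_or_gt_of_ne hn with hn' | hn'
    · by_contra hne
      have hP' : Hrt t (P⟦n⟧) := ⟨t.isLE_shift P n n 0, t.isGE_shift P n n 0⟩
      let Pr : ObjectProperty C := fun X => ∃ (b : ℤ) (Y : C), b ≤ 0 ∧ Chow Y ∧ Nonempty (X ≅ Y⟦b⟧)
      have hPr : ∀ X, Pr X → ∀ (m : ℤ), 0 < m → ∀ g : X ⟶ (𝟙_ C)⟦m⟧, g = 0 := by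
        rintro X ⟨b, Y, hb, hY, ⟨e⟩⟩ m hm g
        have h3 : (shiftFunctorCompIsoId C b (-b) (by simp)).inv.app Y ≫ (e.inv ≫ g)⟦(-b : ℤ)⟧' ≫
            ((shiftFunctorAdd' C m (-b) (m - b) (by omega)).app (𝟙_ C)).inv = 0 :=
          h.orthogonal hY h.unit (m - b) (by omega) _
        have h4 : (e.inv ≫ g)⟦(-b : ℤ)⟧' = 0 := by
          have h5 := congrArg (fun z => (shiftFunctorCompIsoId C b (-b) (by simp)).hom.app Y ≫ z ≫
            ((shiftFunctorAdd' C m (-b) (m - b) (by omega)).app (𝟙_ C)).hom) h3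
          simpa using h5
        have h5 : e.inv ≫ g = 0 := by
          apply (shiftFunctor C (-b : ℤ)).map_injective
          rw [h4, Functor.map_zero]
        rw [← cancel_epi e.inv, h5, comp_zero]
      obtain ⟨r, hr⟩ := heart_pairing H.tensor H.exact H.unit H.idem hP' Pr
        ⟨0, 𝟙_ C, le_rfl, h.unit, ⟨((shiftFunctorZero C ℤ).app _).symm⟩⟩
        (by
          rintro X ⟨b, Y, hb, hY, ⟨e⟩⟩
          refine ⟨b + n, Y ⊗ P, by omega, h.tensor hY hP.1,
            ⟨whiskerRightIso e _ ≪≫ lrShift Y P b n⟩⟩) hPr f hne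
      apply hr
      have h3 : r = 0 := by
        have h4 : (shiftFunctorCompIsoId C n (-n) (by simp)).inv.app P ≫ r⟦(-n : ℤ)⟧' = 0 :=
          h.orthogonal hP.1 h.unit (-n) (by omega) _
        have h5 : r⟦(-n : ℤ)⟧' = 0 := by
          rw [← cancel_epi ((shiftFunctorCompIsoId C n (-n) (by simp)).inv.app P), h4, comp_zero]
        apply (shiftFunctor C (-n : ℤ)).map_injective
        rw [h5, Functor.map_zero]
      rw [h3, comp_zero]
    · exact h.orthogonal h.unit hP.1 n hn' f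

lemma IsMotivic.oneExact (hM : IsMotivic t R)
    (hid : ∀ e : 𝟙_ C ⟶ 𝟙_ C, e ≫ e = e → e = 0 ∨ e = 𝟙 _) (l : Λ) : OneExact t (R l) where
  tensor := ⟨hM.tensor_le, hM.tensor_ge⟩
  exact := ⟨hM.exact_le l, hM.exact_ge l⟩
  nondeg_le := hM.nondeg_le
  nondeg_ge := hM.nondeg_ge
  idem := hid

/-- The Künneth decomposition. -/
theorem kunneth_of (h : IsChow Chow T R) (l : Λ) (H : ∀ l, OneExact t (R l)) :
    KunnethDecomposition Chow R := by
  intro P hP
  obtain ⟨m, d, Q, hQ, e⟩ := chow_decompose h l (H l) P hP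
  exact ⟨m, d, Q, fun j => ⟨(hQ j).1, fun l' => (H l').deg_of (hQ j).2.1 (hQ j).2.2⟩, e⟩

/-- The criterion for the existence of a motivic t-structure. -/
theorem motivic_iff [Linear ℚ C] [IsIdempotentComplete C] [Nonempty Λ] [∀ l, CharZero (E l)]
    (h : IsChow Chow T R) (hU : ∀ c : 𝟙_ C ⟶ 𝟙_ C, ∃ q : ℚ, c = q • 𝟙 _) :
    (∃ t : TStructure C, IsMotivic t R) ↔
      KunnethDecomposition Chow R ∧ NumericalEquivalence Chow R ∧ Vanishing Chow R := by
  constructor
  · rintro ⟨t, hM⟩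
    obtain ⟨l⟩ := ‹Nonempty Λ›
    have H := IsMotivic.oneExact hM (hid_of hU ⟨E l, inferInstance, ⟨R l⟩⟩)
    exact ⟨kunneth_of h l H, numerical_of h l (H l), vanishing_of h l (H l)⟩
  · rintro ⟨hK, hN, hV⟩
    exact exists_motivic h hK hN hV hU

end

end Pool.Agent.L0h15.MT
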