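import Pool.Agent.L0h15.MT.One

/-!
# Independence of the realisation for all constructible motives
-/

set_option autoImplicit false
set_option linter.unusedSectionVars false
set_option linter.unusedSimpArgs false
set_option backward.isDefEq.respectTransparency false
set_option backward.defeqAttrib.useBackward true

open CategoryTheory Limits MonoidalCategory Pretriangulated Triangulated ZeroObject

namespace Pool.Agent.L0h15.MT

open Pool.Agent.Y116.MT

universe v u w

section

variable {K : Type w} [Field K]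

lemma trace_conj {V W : ModuleCat.{w} K} (e : V ⟶ W) [IsIso e] (f : V ⟶ V) (g : W ⟶ W)
    (h : e ≫ g = f ≫ e) : LinearMap.trace K V f.hom = LinearMap.trace K W g.hom := by
  have h1 : g = inv e ≫ f ≫ e := by rw [← h, IsIso.inv_hom_id_assoc]
  have h2 : g.hom = (asIso e).toLinearEquiv.conj f.hom := by
    rw [h1]
    rfl
  rw [h2, LinearMap.trace_conj']

end

section

variable {C : Type u} [Category.{v} C] [Preadditive C] [HasZeroObject C] [HasShift C ℤ]
  [∀ n : ℤ, (shiftFunctor C n).Additive] [Pretriangulated C] [IsTriangulated C]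
  [MonoidalCategory C] [MonoidalPreadditive C] [SymmetricCategory C] [TensorTriangulated C]
  [RightRigidCategory C] {t : TStructure C}
  {Chow : ObjectProperty C} {T : C} {Λ : Type*} {E : Λ → Type w} [∀ l, Field (E l)]
  {R : ∀ l, Realisation C (E l)} [Linear ℚ C] [∀ l, CharZero (E l)]

/-- `t` is non-degenerate, compatible with the tensor product, and the realisation `R l` is t-exact
(for this `l`). -/
def MotivicAt (t : TStructure C) (R : ∀ l, Realisation C (E l)) (l : Λ) : Prop :=
  IsMotivic t (fun _ : Unit => R l)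

/-- The t-structures are equal. -/
def SameT (t t' : TStructure C) : Prop :=
  ∀ (X : C) (n : ℤ), (t.le n X ↔ t'.le n X) ∧ (t.ge n X ↔ t'.ge n X)

/-- The trace of an endomorphism `f` of `X` on the cohomology group `H^n(X)` of a realisation. -/
noncomputable def trOn {K : Type w} [Field K] (R : Realisation C K) {X : C} (f : X ⟶ X) (n : ℤ) :
    K :=
  LinearMap.trace K _ (R.H.map (f⟦n⟧')).hom

/-- The trace of every endomorphism `f` of every object `X` on `H^n(R l X)` is a rational number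
which does not depend on `l`. -/
def TraceIndependent (R : ∀ l, Realisation C (E l)) : Prop :=
  ∀ (X : C) (f : X ⟶ X) (n : ℤ), ∃ q : ℚ, ∀ l : Λ, trOn (R l) f n = (q : E l)

/-- The trace of an endomorphism of a motive on its cohomology is a rational number which does not
depend on the realisation. -/
theorem trace_independent (hU : ∀ c : 𝟙_ C ⟶ 𝟙_ C, ∃ q : ℚ, c = q • 𝟙 _) (hM : IsMotivic t R)
    {X : C} (f : X ⟶ X) (n : ℤ) : ∃ q : ℚ, ∀ l : Λ,
      LinearMap.trace (E l) _ ((R l).H.map (f⟦n⟧')).hom = algebraMap ℚ (E l) q := by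
  have he : ∀ l, TExact t (R l) := fun l => ⟨hM.exact_le l, hM.exact_ge l⟩
  obtain ⟨A, B, hA, hB, a, b, d, hT⟩ := t.exists_triangle X n (n + 1) rfl
  have hA' : t.IsLE A n := ⟨hA⟩
  have hB' : t.IsGE B (n + 1) := ⟨hB⟩
  obtain ⟨A2, Y, hA2, hY, a2, b2, d2, hT2⟩ := t.exists_triangle A (n - 1) n (by omega)
  have hA2' : t.IsLE A2 (n - 1) := ⟨hA2⟩
  have hY' : t.IsGE Y n := ⟨hY⟩
  have hY2 : t.IsLE Y n := isLE3 hT2 (t.isLE_of_le A2 (n - 1) (n + 1) (by omega)) hA'
  obtain ⟨fA, hfA⟩ := ce2 hT (a ≫ f) (t.zero_of_isLE_of_isGE _ n (n + 1) (by omega) hA' hB')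
  obtain ⟨fY, hfY⟩ := ye2 hT2 (fA ≫ b2) (by
    rw [← Category.assoc]
    exact t.zero_of_isLE_of_isGE _ (n - 1) n (by omega) hA2' hY')
  obtain ⟨q, hq⟩ := hU (tr (fY⟦n⟧'))
  refine ⟨q, fun l => ?_⟩
  have hYd : (R l).Deg (Y⟦n⟧) 0 := by
    have h1 : (R l).Deg Y n := by
      intro i hi
      rcases lt_or_gt_of_ne hi with h' | h'
      · exact (he l).isGE hY' i h'
      · exact (he l).isLE hY2 i h'
    exact h1.shift n 0 (by omega)
  have i1 : IsIso ((R l).H.map (a⟦n⟧')) :=
    hiso1 (R l).H hT n ((he l).isGE hB' _ (by omega)) ((he l).isGE hB' _ (by omega))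
  have i2 : IsIso ((R l).H.map (b2⟦n⟧')) :=
    hiso2 (R l).H hT2 n ((he l).isLE hA2' _ (by omega)) ((he l).isLE hA2' _ (by omega))
  have h1 := trace_conj ((R l).H.map (a⟦n⟧')) ((R l).H.map (fA⟦n⟧')) ((R l).H.map (f⟦n⟧')) (by
    rw [← Functor.map_comp, ← Functor.map_comp, ← Functor.map_comp, ← Functor.map_comp, hfA])
  have h2 := trace_conj ((R l).H.map (b2⟦n⟧')) ((R l).H.map (fA⟦n⟧')) ((R l).H.map (fY⟦n⟧')) (by
    rw [← Functor.map_comp, ← Functor.map_comp, ← Functor.map_comp, ← Functor.map_comp, hfY])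
  rw [← h1, h2, ← sc_rat (R l) q, ← hq]
  exact (H_trace hYd (fY⟦n⟧')).symm

end

end Pool.Agent.L0h15.MT
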