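import Pool.Agent.Y116.MT.Tri

/-!
# Iterated extensions in triangulated categories
-/

set_option autoImplicit false
set_option linter.unusedSectionVars false
set_option linter.unusedSimpArgs false
set_option backward.isDefEq.respectTransparency false
set_option backward.defeqAttrib.useBackward true

open CategoryTheory Limits Pretriangulated Triangulated ZeroObject

namespace Pool.Agent.L0h15.MT

open Pool.Agent.Y116.MT

universe v u

section

variable {C : Type u} [Category.{v} C] [Preadditive C] [HasZeroObject C] [HasShift C ℤ]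
  [∀ n : ℤ, (shiftFunctor C n).Additive] [Pretriangulated C]

/-- `Y` is an extension of `Z` by `X`: there is a distinguished triangle `X ⟶ Y ⟶ Z ⟶ X⟦1⟧`. -/
def Tr (X Y Z : C) : Prop :=
  ∃ (f : X ⟶ Y) (g : Y ⟶ Z) (h : Z ⟶ X⟦(1 : ℤ)⟧), Triangle.mk f g h ∈ distTriang C

lemma Tr.iso {X Y Z X' Y' Z' : C} (h : Tr X Y Z) (a : X ≅ X') (b : Y ≅ Y') (c : Z ≅ Z') :
    Tr X' Y' Z' := by
  obtain ⟨f, g, k, hT⟩ := h
  refine ⟨a.inv ≫ f ≫ b.hom, b.inv ≫ g ≫ c.hom, c.inv ≫ k ≫ a.hom⟦(1 : ℤ)⟧', ?_⟩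
  refine isomorphic_distinguished _ hT _ ?_
  exact Triangle.isoMk _ _ a.symm b.symm c.symm (by simp) (by simp) (by
    simp [← Functor.map_comp])

lemma Tr.shift {X Y Z : C} (h : Tr X Y Z) (n : ℤ) : Tr (X⟦n⟧) (Y⟦n⟧) (Z⟦n⟧) := by
  obtain ⟨f, g, k, hT⟩ := h
  exact ⟨_, _, _, Triangle.shift_distinguished _ hT n⟩

lemma Tr.unshift {X Y Z : C} (n : ℤ) (h : Tr (X⟦n⟧) (Y⟦n⟧) (Z⟦n⟧)) : Tr X Y Z :=
  (h.shift (-n)).iso ((shiftEquiv C n).unitIso.symm.app X) ((shiftEquiv C n).unitIso.symm.app Y)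
    ((shiftEquiv C n).unitIso.symm.app Z)

lemma Tr.rot {X Y Z : C} (h : Tr X Y Z) : Tr Y Z (X⟦(1 : ℤ)⟧) := by
  obtain ⟨f, g, k, hT⟩ := h
  exact ⟨_, _, _, rotD hT⟩

lemma tr_zero_left {Z X : C} (hX : IsZero X) : Tr X Z Z := by
  refine ⟨0, 𝟙 _, 0, ?_⟩
  have h1 := contractible_distinguished₁ Z
  refine isomorphic_distinguished _ h1 _ ?_
  refine Triangle.isoMk _ _ (hX.iso (isZero_zero _)) (Iso.refl _) (Iso.refl _) ?_ ?_ ?_
  · exact hX.eq_of_src _ _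
  · exact (Category.id_comp _).trans (Category.comp_id _).symm
  · exact (IsZero.eq_of_tgt ((shiftFunctor C (1 : ℤ)).map_isZero (isZero_zero C)) _ _)

lemma tr_zero_right {Z X : C} (hX : IsZero X) : Tr Z Z X := by
  refine ⟨𝟙 _, 0, 0, ?_⟩
  have h1 := contractible_distinguished Z
  refine isomorphic_distinguished _ h1 _ ?_
  refine Triangle.isoMk _ _ (Iso.refl _) (Iso.refl _) (hX.iso (isZero_zero _)) ?_ ?_ ?_
  · exact (Category.id_comp _).trans (Category.comp_id _).symm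
  · exact (isZero_zero C).eq_of_tgt _ _
  · exact hX.eq_of_src _ _

lemma Tr.iso_of_zero_left {X Y Z : C} (h : Tr X Y Z) (hX : IsZero X) : Nonempty (Y ≅ Z) := by
  obtain ⟨f, g, k, hT⟩ := h
  have := isIso2_of_isZero1 hT hX
  exact ⟨asIso g⟩

lemma Tr.iso_of_zero_right {X Y Z : C} (h : Tr X Y Z) (hZ : IsZero Z) : Nonempty (X ≅ Y) := by
  obtain ⟨f, g, k, hT⟩ := h
  have := isIso1_of_isZero3 hT hZ
  exact ⟨asIso f⟩

section

variable [IsTriangulated C]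

lemma Tr.assoc_right {A X D B Z : C} (h : Tr D X Z) (h' : Tr A D B) :
    ∃ Y : C, Tr A X Y ∧ Tr B Y Z := by
  obtain ⟨f, g, k, hT⟩ := h
  obtain ⟨f', g', k', hT'⟩ := h'
  obtain ⟨Y, p, q, hY⟩ := distinguished_cocone_triangle (f' ≫ f)
  have O := someOctahedron (rfl : f' ≫ f = f' ≫ f) hT' hT hY
  exact ⟨Y, ⟨_, _, _, hY⟩, ⟨_, _, _, O.mem⟩⟩

lemma Tr.assoc_left {A X Y B Z : C} (h : Tr A X Y) (h' : Tr B Y Z) :
    ∃ D : C, Tr A D B ∧ Tr D X Z := by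
  obtain ⟨f, g, k, hT⟩ := h
  obtain ⟨f', g', k', hT'⟩ := h'
  obtain ⟨D, p, q, hD⟩ := distinguished_cocone_triangle₁ (g ≫ g')
  have O := someOctahedron (rfl : g ≫ g' = g ≫ g') (rotD hT) (rotD hT') (rotD hD)
  exact ⟨D, Tr.unshift 1 ⟨_, _, _, O.mem⟩, ⟨_, _, _, hD⟩⟩

end

/-- Iterated extensions (words) of objects with the property `P`. -/
inductive Wd (P : C → Prop) : C → Prop
  | zero (X : C) : IsZero X → Wd P X
  | cons (X Y Z : C) : Tr X Y Z → P X → Wd P Z → Wd P Y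

variable {P Q : C → Prop}

lemma Wd.iso {X : C} (h : Wd P X) {Y : C} (e : X ≅ Y) : Wd P Y := by
  cases h with
  | zero _ h0 => exact Wd.zero _ (h0.of_iso e.symm)
  | cons A _ B hT hA hB => exact Wd.cons A Y B (hT.iso (Iso.refl _) e (Iso.refl _)) hA hB

lemma Wd.single {X : C} (h : P X) : Wd P X :=
  Wd.cons X X 0 (tr_zero_right (isZero_zero C)) h (Wd.zero _ (isZero_zero C))

lemma Wd.mono (hPQ : ∀ X, P X → Q X) {X : C} (h : Wd P X) : Wd Q X := by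
  induction h with
  | zero _ h0 => exact Wd.zero _ h0
  | cons A _ B hT hA _ ih => exact Wd.cons A _ B hT (hPQ _ hA) ih

lemma Wd.shift (n : ℤ) (hPQ : ∀ X, P X → Q (X⟦n⟧)) {X : C} (h : Wd P X) : Wd Q (X⟦n⟧) := by
  induction h with
  | zero _ h0 => exact Wd.zero _ ((shiftFunctor C n).map_isZero h0)
  | cons A _ B hT hA _ ih => exact Wd.cons _ _ _ (hT.shift n) (hPQ _ hA) ih

lemma Wd.append [IsTriangulated C] {X : C} (hX : Wd P X) :
    ∀ {Y Z : C}, Tr X Y Z → Wd P Z → Wd P Y := by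
  induction hX with
  | zero X h0 =>
    intro Y Z hT hZ
    obtain ⟨e⟩ := hT.iso_of_zero_left h0
    exact hZ.iso e.symm
  | cons A X B hA hPA _ ih =>
    intro Y Z hT hZ
    obtain ⟨W, h1, h2⟩ := hT.assoc_right hA
    exact Wd.cons A Y W h1 hPA (ih h2 hZ)

lemma Wd.hom_zero {X Y : C} (h : Wd P X) (h0 : ∀ A, P A → ∀ f : A ⟶ Y, f = 0) :
    ∀ f : X ⟶ Y, f = 0 := by
  induction h with
  | zero _ hz => intro f; exact hz.eq_of_src _ _
  | cons A X B hT hA _ ih =>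
    intro f
    obtain ⟨a, b, c, hT⟩ := hT
    obtain ⟨l, hl⟩ := ye2 hT f (h0 A hA _)
    rw [hl, ih l, comp_zero]

lemma Wd.hom_zero' {X Y : C} (h : Wd P Y) (h0 : ∀ A, P A → ∀ f : X ⟶ A, f = 0) :
    ∀ f : X ⟶ Y, f = 0 := by
  induction h with
  | zero _ hz => intro f; exact hz.eq_of_tgt _ _
  | cons A Y B hT hA _ ih =>
    intro f
    obtain ⟨a, b, c, hT⟩ := hT
    obtain ⟨l, hl⟩ := ce2 hT f (ih _)
    rw [hl, h0 A hA l, zero_comp]

end

end Pool.Agent.L0h15.MT
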