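import Pool.Agent.Y116.MT.HomNum
import Pool.Agent.L0h15.MT.Word

/-!
# Twists by an invertible object and realisations of triangles
-/

set_option autoImplicit false
set_option linter.unusedSectionVars false
set_option linter.unusedSimpArgs false
set_option backward.isDefEq.respectTransparency false
set_option backward.defeqAttrib.useBackward true

open CategoryTheory Limits MonoidalCategory Pretriangulated Triangulated ZeroObject

namespace Pool.Agent.L0h15.MT

open Pool.Agent.Y116.MT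

universe v u w

section

variable {C : Type u} [Category.{v} C] [MonoidalCategory C] [SymmetricCategory C]

/-- The tensor product with an invertible object is an equivalence. -/
noncomputable def invEquiv {T T' : C} (e : T ⊗ T' ≅ 𝟙_ C) : C ≌ C :=
  CategoryTheory.Equivalence.mk (tensorRight T) (tensorRight T')
    (NatIso.ofComponents (fun X => (ρ_ X).symm ≪≫ whiskerLeftIso X e.symm ≪≫ (α_ X T T').symm)
      (fun {X Y} f => by
        change f ≫ (ρ_ Y).inv ≫ Y ◁ e.inv ≫ (α_ Y T T').inv =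
          ((ρ_ X).inv ≫ X ◁ e.inv ≫ (α_ X T T').inv) ≫ (f ▷ T) ▷ T'
        simp only [Category.assoc]
        rw [rightUnitor_inv_naturality_assoc, ← whisker_exchange_assoc,
          associator_inv_naturality_left]))
    (NatIso.ofComponents (fun X => (α_ X T' T) ≪≫ whiskerLeftIso X (β_ T' T ≪≫ e) ≪≫ (ρ_ X))
      (fun {X Y} f => by
        change (f ▷ T') ▷ T ≫ (α_ Y T' T).hom ≫ Y ◁ ((β_ T' T).hom ≫ e.hom) ≫ (ρ_ Y).hom =
          ((α_ X T' T).hom ≫ X ◁ ((β_ T' T).hom ≫ e.hom) ≫ (ρ_ X).hom) ≫ f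
        simp only [Category.assoc]
        rw [associator_naturality_left_assoc, ← whisker_exchange_assoc,
          rightUnitor_naturality]))

lemma inv_faithful {T : C} (hT : ∃ T' : C, Nonempty (T ⊗ T' ≅ 𝟙_ C)) {X Y : C} {f g : X ⟶ Y}
    (h : f ▷ T = g ▷ T) : f = g := by
  obtain ⟨T', ⟨e⟩⟩ := hT
  exact (invEquiv e).functor.map_injective h

lemma inv_full {T : C} (hT : ∃ T' : C, Nonempty (T ⊗ T' ≅ 𝟙_ C)) {X Y : C} (h : X ⊗ T ⟶ Y ⊗ T) :
    ∃ f : X ⟶ Y, f ▷ T = h := by
  obtain ⟨T', ⟨e⟩⟩ := hT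
  exact (invEquiv e).functor.map_surjective h

/-- The map of twists. -/
def twMap (T : C) {X Y : C} (f : X ⟶ Y) : ∀ k : ℕ, twist T X k ⟶ twist T Y k
  | 0 => f
  | k + 1 => twMap T f k ▷ T

lemma twMap_comp (T : C) {X Y Z : C} (f : X ⟶ Y) (g : Y ⟶ Z) (k : ℕ) :
    twMap T (f ≫ g) k = twMap T f k ≫ twMap T g k := by
  induction k with
  | zero => rfl
  | succ k ih => simp only [twMap, ih, comp_whiskerRight]

lemma twMap_id (T : C) (X : C) (k : ℕ) : twMap T (𝟙 X) k = 𝟙 _ := by
  induction k with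
  | zero => rfl
  | succ k ih => simp only [twMap, ih, id_whiskerRight]; rfl

lemma twMap_faithful {T : C} (hT : ∃ T' : C, Nonempty (T ⊗ T' ≅ 𝟙_ C)) {X Y : C} {f g : X ⟶ Y}
    (k : ℕ) (h : twMap T f k = twMap T g k) : f = g := by
  induction k with
  | zero => exact h
  | succ k ih => exact ih (inv_faithful hT h)

lemma twMap_full {T : C} (hT : ∃ T' : C, Nonempty (T ⊗ T' ≅ 𝟙_ C)) {X Y : C}
    (k : ℕ) : ∀ h : twist T X k ⟶ twist T Y k, ∃ f : X ⟶ Y, twMap T f k = h := by
  induction k with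
  | zero => intro h; exact ⟨h, rfl⟩
  | succ k ih =>
    intro h
    obtain ⟨g, hg⟩ := inv_full hT (X := twist T X k) (Y := twist T Y k) h
    obtain ⟨f, hf⟩ := ih g
    exact ⟨f, by simp only [twMap, hf]; exact hg⟩

end

section

variable {C : Type u} [Category.{v} C] [Preadditive C] [HasZeroObject C] [HasShift C ℤ]
  [∀ n : ℤ, (shiftFunctor C n).Additive] [Pretriangulated C] [MonoidalCategory C]
  [SymmetricCategory C] [TensorTriangulated C]

/-- A distinguished triangle, tensored with an object on the right. -/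
lemma tensor_dist_right (W : C) {X Y Z : C} {f : X ⟶ Y} {g : Y ⟶ Z} {h : Z ⟶ X⟦(1 : ℤ)⟧}
    (hT : Triangle.mk f g h ∈ distTriang C) :
    ∃ k : Z ⊗ W ⟶ (X ⊗ W)⟦(1 : ℤ)⟧, Triangle.mk (f ▷ W) (g ▷ W) k ∈ distTriang C := by
  refine ⟨(β_ Z W).hom ≫ (W ◁ h ≫ (rShift W X 1).hom) ≫ (β_ W X).hom⟦(1 : ℤ)⟧',
    isomorphic_distinguished _ (tensor_dist W hT) _ ?_⟩
  refine Triangle.isoMk _ _ (β_ X W) (β_ Y W) (β_ Z W) ?_ ?_ ?_
  · simp
  · simp
  · simp only [Triangle.mk_mor₃, Triangle.mk_obj₁, Category.assoc]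
    rw [← Functor.map_comp, SymmetricCategory.symmetry, CategoryTheory.Functor.map_id,
      Category.comp_id]

lemma tw_dist (T : C) {X Y Z : C} {f : X ⟶ Y} {g : Y ⟶ Z} {h : Z ⟶ X⟦(1 : ℤ)⟧}
    (hT : Triangle.mk f g h ∈ distTriang C) (k : ℕ) :
    ∃ m : twist T Z k ⟶ (twist T X k)⟦(1 : ℤ)⟧,
      Triangle.mk (twMap T f k) (twMap T g k) m ∈ distTriang C := by
  induction k with
  | zero => exact ⟨h, hT⟩
  | succ k ih =>
    obtain ⟨m, hm⟩ := ih
    exact tensor_dist_right T hm

variable {t : TStructure C}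

lemma tw_isLE (ht : TensorCompat t) {T : C} {a : ℤ} (hT : t.IsLE T a) {X : C} {n : ℤ}
    (hX : t.IsLE X n) (k : ℕ) : t.IsLE (twist T X k) (n + k * a) := by
  induction k with
  | zero => simpa [twist] using hX
  | succ k ih =>
    have h1 := ht.isLE ih hT
    rw [show n + ((k + 1 : ℕ) : ℤ) * a = n + k * a + a by push_cast; ring]
    exact h1

lemma tw_isGE (ht : TensorCompat t) {T : C} {a : ℤ} (hT : t.IsGE T a) {X : C} {n : ℤ}
    (hX : t.IsGE X n) (k : ℕ) : t.IsGE (twist T X k) (n + k * a) := by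
  induction k with
  | zero => simpa [twist] using hX
  | succ k ih =>
    have h1 := ht.isGE ih hT
    rw [show n + ((k + 1 : ℕ) : ℤ) * a = n + k * a + a by push_cast; ring]
    exact h1

end

section Hom

variable {C : Type u} [Category.{v} C] [Preadditive C] [HasZeroObject C] [HasShift C ℤ]
  [∀ n : ℤ, (shiftFunctor C n).Additive] [Pretriangulated C]
  {A : Type*} [Category A] [Abelian A] (H : C ⥤ A) [H.IsHomological]
  {X Y Z : C} {f : X ⟶ Y} {g : Y ⟶ Z} {h : Z ⟶ X⟦(1 : ℤ)⟧}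
  (hT : Triangle.mk f g h ∈ distTriang C)

include hT

lemma hiso1 (n : ℤ) (h0 : IsZero (H.obj (Z⟦n - 1⟧))) (h1 : IsZero (H.obj (Z⟦n⟧))) :
    IsIso (H.map (f⟦n⟧')) := by
  have := hmono1 H hT n h0
  have := hepi1 H hT n h1
  exact isIso_of_mono_of_epi _

lemma hiso2 (n : ℤ) (h0 : IsZero (H.obj (X⟦n⟧))) (h1 : IsZero (H.obj (X⟦n + 1⟧))) :
    IsIso (H.map (g⟦n⟧')) := by
  have := hmono2 H hT n h0
  have := hepi2 H hT n h1
  exact isIso_of_mono_of_epi _

/-- If `f` induces an epimorphism in degree `n` and a monomorphism in degree `n + 1`, the cohomology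
of the cone vanishes in degree `n`. -/
lemma hz3_of (n : ℤ) (h0 : Epi (H.map (f⟦n⟧'))) (h1 : Mono (H.map (f⟦n + 1⟧'))) :
    IsZero (H.obj (Z⟦n⟧)) := by
  let _ := Functor.ShiftSequence.tautological H ℤ
  have e1 : (H.shift n).map g = 0 :=
    (H.homologySequence_epi_shift_map_mor₁_iff _ hT n).1 h0
  have e2 : Epi ((H.shift n).map g) :=
    (H.homologySequence_epi_shift_map_mor₂_iff _ hT n (n + 1) rfl).2
      ((H.homologySequence_mono_shift_map_mor₁_iff _ hT n (n + 1) rfl).1 h1)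
  have e3 : IsZero ((H.shift n).obj Z) := by
    rw [IsZero.iff_id_eq_zero, ← cancel_epi ((H.shift n).map g), e1, zero_comp, zero_comp]
  exact e3

end Hom

section

variable {C : Type u} [Category.{v} C] [Preadditive C] [HasZeroObject C] [HasShift C ℤ]
  [∀ n : ℤ, (shiftFunctor C n).Additive] [Pretriangulated C] [MonoidalCategory C]
  [SymmetricCategory C] [TensorTriangulated C] {K : Type w} [Field K] {R : Realisation C K}

/-- A morphism which induces isomorphisms of the cohomology is an isomorphism if the realisation is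
conservative. -/
lemma isIso_of_H (hc : ∀ X : C, (∀ i : ℤ, IsZero (R.H.obj (X⟦i⟧))) → IsZero X) {X Y : C}
    (f : X ⟶ Y) (hf : ∀ i : ℤ, IsIso (R.H.map (f⟦i⟧'))) : IsIso f := by
  obtain ⟨Z, g, h, hT⟩ := distinguished_cocone_triangle f
  apply isIso1_of_isZero3 hT
  apply hc
  intro i
  have := hf i
  have := hf (i + 1)
  exact hz3_of R.H hT i inferInstance inferInstance

end

end Pool.Agent.L0h15.MT
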