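import Pool.Agent.L0h15.MT.Inv
import Pool.Agent.L0h15.MT.Defs

/-!
# Motivic t-structures and the hard Lefschetz theorem: Künneth decompositions
-/

set_option autoImplicit false
set_option linter.unusedSectionVars false
set_option linter.unusedSimpArgs false
set_option backward.isDefEq.respectTransparency false
set_option backward.defeqAttrib.useBackward true

open CategoryTheory Limits MonoidalCategory Pretriangulated Triangulated ZeroObject

namespace Pool.Agent.L0h15.MT

open Pool.Agent.Y116.MT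

universe v u w

section

variable {C : Type u} [Category.{v} C] [Preadditive C] [HasZeroObject C] [HasShift C ℤ]
  [∀ n : ℤ, (shiftFunctor C n).Additive] [Pretriangulated C] [IsTriangulated C]
  [MonoidalCategory C] [MonoidalPreadditive C] [SymmetricCategory C] [TensorTriangulated C]
  [RightRigidCategory C]

/-- Finite direct sums of objects of degree `n` for `t` with the property `P`. -/
inductive Dec (t : TStructure C) (P : ObjectProperty C) : C → Prop
  | zero (X : C) : IsZero X → Dec t P X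
  | pure (X : C) (n : ℤ) : P X → t.IsLE X n → t.IsGE X n → Dec t P X
  | sum (X Y Z : C) : Nonempty (Z ≅ X ⊞ Y) → Dec t P X → Dec t P Y → Dec t P Z

variable {t : TStructure C} {P : ObjectProperty C}

/-- A triangle with zero connecting map is a direct sum. -/
lemma sum_of_split {X Y Z : C} {f : X ⟶ Y} {g : Y ⟶ Z} {h : Z ⟶ X⟦(1 : ℤ)⟧}
    (hT : Triangle.mk f g h ∈ distTriang C) (hh : h = 0) : Nonempty (Y ≅ X ⊞ Z) := by
  subst hh
  obtain ⟨e, -⟩ := exists_iso_binaryBiproduct_of_distTriang _ hT rfl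
  exact ⟨e⟩

variable {K : Type w} [Field K] {R : Realisation C K}

/-- The hard Lefschetz theorem in degrees `≤ k` for an object `M` with centre `e`. -/
def HLf (T : C) (R : Realisation C K) (e : ℤ) (k : ℕ) (M : C) : Prop :=
  ∀ j : ℕ, j ≤ k → ∃ L : M ⟶ twist T M j, IsIso (R.H.map (L⟦e - j⟧'))

theorem dec_of_lef (ht : TensorCompat t) (he : TExact t R)
    (hc : ∀ X : C, (∀ i : ℤ, IsZero (R.H.obj (X⟦i⟧))) → IsZero X)
    {T : C} (hT : ∃ T' : C, Nonempty (T ⊗ T' ≅ 𝟙_ C)) (hT1 : t.IsLE T (-2)) (hT2 : t.IsGE T (-2))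
    (hP : ∀ {X Y : C} (i : Y ⟶ X) (r : X ⟶ Y), i ≫ r = 𝟙 Y → P X → P Y) (e : ℤ) (k : ℕ) :
    ∀ M : C, P M → t.IsGE M (e - k) → t.IsLE M (e + k) → HLf T R e k M → Dec t P M := by
  induction k with
  | zero =>
    intro M hM h1 h2 _
    exact Dec.pure M e hM (by simpa using h2) (by simpa using h1)
  | succ k ih =>
    intro M hM h1 h2 hL
    obtain ⟨L, hLi⟩ := hL (k + 1) le_rfl
    set n : ℤ := e - (k + 1 : ℕ) with hn
    set m : ℤ := e + (k + 1 : ℕ) with hm
    obtain ⟨M0, M2, hM0, hM2, a, g, d, hT'⟩ := t.exists_triangle M n (n + 1) rfl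
    obtain ⟨M', M1, hM', hM1, j', q, d', hT''⟩ := t.exists_triangle M2 (m - 1) m (by omega)
    have hM0' : t.IsLE M0 n := ⟨hM0⟩
    have hM2' : t.IsGE M2 (n + 1) := ⟨hM2⟩
    have hM'' : t.IsLE M' (m - 1) := ⟨hM'⟩
    have hM1' : t.IsGE M1 m := ⟨hM1⟩
    have hM0g : t.IsGE M0 n := isGE1 hT' h1 (t.isGE_of_ge M2 (n - 1) (n + 1))
    have hM2l : t.IsLE M2 m := isLE3 hT' (t.isLE_of_le M0 n (m + 1) (by omega)) h2
    have hM1l : t.IsLE M1 m := isLE3 hT'' (t.isLE_of_le M' (m - 1) (m + 1) (by omega)) hM2l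
    have hM'g : t.IsGE M' (n + 1) :=
      isGE1 hT'' hM2' (t.isGE_of_ge M1 (n + 1 - 1) m (by omega))
    -- the composite
    obtain ⟨x1, hx1⟩ := tw_dist T hT' (k + 1)
    obtain ⟨x2, hx2⟩ := tw_dist T hT'' (k + 1)
    have htM0 : t.IsLE (twist T M0 (k + 1)) (n - 2 * (k + 1 : ℕ)) := by
      have := tw_isLE ht hT1 hM0' (k + 1)
      rwa [show n + ((k + 1 : ℕ) : ℤ) * (-2) = n - 2 * (k + 1 : ℕ) by ring] at this
    have htM' : t.IsLE (twist T M' (k + 1)) (m - 1 - 2 * (k + 1 : ℕ)) := by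
      have := tw_isLE ht hT1 hM'' (k + 1)
      rwa [show m - 1 + ((k + 1 : ℕ) : ℤ) * (-2) = m - 1 - 2 * (k + 1 : ℕ) by ring] at this
    have htM1l : t.IsLE (twist T M1 (k + 1)) n := by
      have := tw_isLE ht hT1 hM1l (k + 1)
      rwa [show m + ((k + 1 : ℕ) : ℤ) * (-2) = n by omega] at this
    have htM1g : t.IsGE (twist T M1 (k + 1)) n := by
      have := tw_isGE ht hT2 hM1' (k + 1)
      rwa [show m + ((k + 1 : ℕ) : ℤ) * (-2) = n by omega] at this
    set c : M0 ⟶ twist T M1 (k + 1) := a ≫ L ≫ twMap T g (k + 1) ≫ twMap T q (k + 1) with hc'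
    have i1 : IsIso (R.H.map (a⟦n⟧')) :=
      hiso1 R.H hT' n (he.isGE hM2' _ (by omega)) (he.isGE hM2' _ (by omega))
    have i2 : IsIso (R.H.map ((twMap T g (k + 1))⟦n⟧')) :=
      hiso2 R.H hx1 n (he.isLE htM0 _ (by omega)) (he.isLE htM0 _ (by omega))
    have i3 : IsIso (R.H.map ((twMap T q (k + 1))⟦n⟧')) :=
      hiso2 R.H hx2 n (he.isLE htM' _ (by omega)) (he.isLE htM' _ (by omega))
    have i4 : IsIso (R.H.map (c⟦n⟧')) := by
      rw [hc']
      simp only [Functor.map_comp]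
      infer_instance
    have i5 : IsIso c := by
      apply isIso_of_H hc
      intro i
      by_cases hi : i = n
      · subst hi
        exact i4
      · have z1 : IsZero (R.H.obj (M0⟦i⟧)) := by
          rcases lt_or_gt_of_ne hi with h' | h'
          · exact he.isGE hM0g i h'
          · exact he.isLE hM0' i h'
        have z2 : IsZero (R.H.obj ((twist T M1 (k + 1))⟦i⟧)) := by
          rcases lt_or_gt_of_ne hi with h' | h'
          · exact he.isGE htM1g i h'
          · exact he.isLE htM1l i h'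
        exact isIso_of_source_target_iso_zero _ z1.isoZero z2.isoZero
    -- the splittings
    obtain ⟨ci, hci1, hci2⟩ := i5
    have s1 : a ≫ (L ≫ twMap T g (k + 1) ≫ twMap T q (k + 1) ≫ ci) = 𝟙 M0 := by
      have : a ≫ (L ≫ twMap T g (k + 1) ≫ twMap T q (k + 1) ≫ ci) = c ≫ ci := by
        simp only [hc', Category.assoc]
      rw [this, hci1]
    have hd : d = 0 := by
      have h3 := comp31 hT'
      have h4 := congrArg (fun z => z⟦(1 : ℤ)⟧') s1
      simp only [Functor.map_comp, CategoryTheory.Functor.map_id] at h4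
      rw [← Category.comp_id d, ← h4, ← Category.assoc, h3, zero_comp]
    obtain ⟨s, hs⟩ := split3' hT' hd
    obtain ⟨σ, hσ⟩ := twMap_full hT (k + 1) (ci ≫ a ≫ L ≫ twMap T g (k + 1))
    have hσq : σ ≫ q = 𝟙 M1 := by
      apply twMap_faithful hT (k + 1)
      rw [twMap_comp, hσ, twMap_id]
      have : (ci ≫ a ≫ L ≫ twMap T g (k + 1)) ≫ twMap T q (k + 1) = ci ≫ c := by
        simp only [hc', Category.assoc]
      rw [this, hci2]
    have hd' : d' = 0 := by
      rw [← Category.id_comp d', ← hσq, Category.assoc, comp23 hT'', comp_zero]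
    obtain ⟨r', hr'⟩ := split3 hT'' hd'
    have pM0 : P M0 := hP _ _ s1 hM
    have pM2 : P M2 := hP _ _ hs hM
    have pM1 : P M1 := hP _ _ hσq pM2
    have pM' : P M' := hP _ _ hr' pM2
    -- the Lefschetz theorem for `M'`
    have hL' : HLf T R e k M' := by
      intro j hj
      obtain ⟨ℓ, hℓ⟩ := hL j (by omega)
      obtain ⟨y1, hy1⟩ := tw_dist T hT' j
      obtain ⟨y2, hy2⟩ := tw_dist T hT'' j
      have k1 : IsIso (R.H.map (g⟦e - j⟧')) :=
        hiso2 R.H hT' _ (he.isLE hM0' _ (by omega)) (he.isLE hM0' _ (by omega))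
      have k2 : IsIso (R.H.map (j'⟦e - j⟧')) :=
        hiso1 R.H hT'' _ (he.isGE hM1' _ (by omega)) (he.isGE hM1' _ (by omega))
      have k3 : IsIso (R.H.map (s⟦e - j⟧')) := by
        have h5 : R.H.map (s⟦e - j⟧') ≫ R.H.map (g⟦e - j⟧') = 𝟙 _ := by
          rw [← Functor.map_comp, ← Functor.map_comp, hs, CategoryTheory.Functor.map_id,
            CategoryTheory.Functor.map_id]
        have h6 : IsIso (R.H.map (s⟦e - j⟧') ≫ R.H.map (g⟦e - j⟧')) := by
          rw [h5]; infer_instance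
        exact IsIso.of_isIso_comp_right _ (R.H.map (g⟦e - j⟧'))
      have hg0 : t.IsLE (twist T M0 j) (n - 2 * j) := by
        have := tw_isLE ht hT1 hM0' j
        rwa [show n + (j : ℤ) * (-2) = n - 2 * j by ring] at this
      have hg1 : t.IsGE (twist T M1 j) (m - 2 * j) := by
        have := tw_isGE ht hT2 hM1' j
        rwa [show m + (j : ℤ) * (-2) = m - 2 * j by ring] at this
      have k4 : IsIso (R.H.map ((twMap T g j)⟦e - j⟧')) :=
        hiso2 R.H hy1 _ (he.isLE hg0 _ (by omega)) (he.isLE hg0 _ (by omega))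
      have k5 : IsIso (R.H.map ((twMap T j' j)⟦e - j⟧')) :=
        hiso1 R.H hy2 _ (he.isGE hg1 _ (by omega)) (he.isGE hg1 _ (by omega))
      have k6 : IsIso (R.H.map ((twMap T r' j)⟦e - j⟧')) := by
        have h5 : R.H.map ((twMap T j' j)⟦e - j⟧') ≫ R.H.map ((twMap T r' j)⟦e - j⟧') = 𝟙 _ := by
          rw [← Functor.map_comp, ← Functor.map_comp, ← twMap_comp, hr', twMap_id,
            CategoryTheory.Functor.map_id, CategoryTheory.Functor.map_id]
        have h6 : IsIso (R.H.map ((twMap T j' j)⟦e - j⟧') ≫ R.H.map ((twMap T r' j)⟦e - j⟧')) := by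
          rw [h5]; infer_instance
        exact IsIso.of_isIso_comp_left (R.H.map ((twMap T j' j)⟦e - j⟧')) _
      refine ⟨j' ≫ s ≫ ℓ ≫ twMap T g j ≫ twMap T r' j, ?_⟩
      simp only [Functor.map_comp]
      infer_instance
    have hdec : Dec t P M' := ih M' pM' (t.isGE_of_ge M' _ (n + 1) (by omega))
      (t.isLE_of_le M' (m - 1) _ (by omega)) hL'
    exact Dec.sum M0 M2 M (sum_of_split hT' hd) (Dec.pure M0 n pM0 hM0' hM0g)
      (Dec.sum M' M1 M2 (sum_of_split hT'' hd') hdec (Dec.pure M1 m pM1 hM1l hM1'))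

end

end Pool.Agent.L0h15.MT
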