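import Pool.Agent.L0h15.MT.Nil

/-!
# Names of endomorphisms and monoidal functors
-/

set_option autoImplicit false
set_option linter.unusedSectionVars false
set_option linter.unusedSimpArgs false
set_option backward.isDefEq.respectTransparency false
set_option backward.defeqAttrib.useBackward true

open CategoryTheory Limits MonoidalCategory Pretriangulated Triangulated ZeroObject

namespace Pool.Agent.L0h15.MT

open Pool.Agent.Y116.MT

universe v u v' u' w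

open Functor.LaxMonoidal Functor.OplaxMonoidal Functor.Monoidal

section

variable {L : Type u} [Category.{v} L] [MonoidalCategory L] [RightRigidCategory L]
  {B : Type u} [Category.{v} B] [MonoidalCategory B]

/-- The contraction `(P ⊗ P^∨) ⊗ P ⟶ P`. -/
def contr (P : L) : (P ⊗ (Pᘁ : L)) ⊗ P ⟶ P :=
  (α_ P Pᘁ P).hom ≫ (P ◁ ε_ P Pᘁ) ≫ (ρ_ P).hom

/-- The endomorphism with a given name. -/
def unnm {P : L} (u : 𝟙_ L ⟶ P ⊗ (Pᘁ : L)) : P ⟶ P := (λ_ P).inv ≫ (u ▷ P) ≫ contr P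

lemma unnm_nm {P : L} (f : P ⟶ P) : unnm (nm f) = f := by
  conv_rhs => rw [nm_recover f]
  rfl

variable (s : L ⥤ B) [s.Monoidal]

/-- The endomorphism of `s P` with a given name in `s (P ⊗ P^∨)`. -/
def unnm' (P : L) (u : 𝟙_ B ⟶ s.obj (P ⊗ (Pᘁ : L))) : s.obj P ⟶ s.obj P :=
  (λ_ _).inv ≫ (u ▷ s.obj P) ≫ μ s (P ⊗ (Pᘁ : L)) P ≫ s.map (contr P)

lemma map_unnm {P : L} (u : 𝟙_ L ⟶ P ⊗ (Pᘁ : L)) :
    s.map (unnm u) = unnm' s P (ε s ≫ s.map u) := by
  rw [unnm, unnm', s.map_comp, s.map_comp, map_leftUnitor_inv, map_whiskerRight]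
  simp

lemma unnm'_nm' (P : L) (e : s.obj P ⟶ s.obj P) : unnm' s P (nm' s P e) = e := by
  have h0 : nm' s P (𝟙 _) = ε s ≫ s.map (η_ P (Pᘁ : L)) := by
    rw [nm', id_whiskerRight, Category.id_comp, δ_μ, Category.comp_id]
  have h1 : unnm' s P (nm' s P (𝟙 _)) = 𝟙 _ := by
    rw [h0, ← map_unnm]
    have h2 : unnm (η_ P (Pᘁ : L)) = 𝟙 P := by
      have := unnm_nm (𝟙 P)
      rwa [nm, id_whiskerRight, Category.comp_id] at this
    rw [h2, CategoryTheory.Functor.map_id]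
  have h3 : ((e ▷ s.obj (Pᘁ : L)) ≫ μ s P Pᘁ) ▷ s.obj P ≫ μ s (P ⊗ (Pᘁ : L)) P ≫
      s.map (contr P) = (μ s P Pᘁ ▷ s.obj P ≫ μ s (P ⊗ (Pᘁ : L)) P ≫ s.map (contr P)) ≫ e := by
    have h4 : μ s P Pᘁ ▷ s.obj P ≫ μ s (P ⊗ (Pᘁ : L)) P ≫ s.map (contr P) =
        (α_ _ _ _).hom ≫ (s.obj P ◁ (μ s Pᘁ P ≫ s.map (ε_ P (Pᘁ : L)) ≫ η s)) ≫
          (ρ_ _).hom := by
      rw [contr, s.map_comp, s.map_comp, map_associator, map_whiskerLeft, map_rightUnitor]
      simp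
    rw [comp_whiskerRight, Category.assoc, h4, associator_naturality_left_assoc,
      ← whisker_exchange_assoc, rightUnitor_naturality]
    simp only [Category.assoc]
  have h5 : unnm' s P (nm' s P e) = unnm' s P (nm' s P (𝟙 _)) ≫ e := by
    have h6 : ∀ e' : s.obj P ⟶ s.obj P, unnm' s P (nm' s P e') =
        (λ_ _).inv ≫ (ε s ≫ s.map (η_ P (Pᘁ : L)) ≫ δ s P Pᘁ) ▷ s.obj P ≫
          (((e' ▷ s.obj (Pᘁ : L)) ≫ μ s P Pᘁ) ▷ s.obj P ≫ μ s (P ⊗ (Pᘁ : L)) P ≫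
      s.map (contr P)) := by
      intro e'
      rw [unnm', nm']
      simp only [comp_whiskerRight, Category.assoc]
    rw [h6, h6, h3, id_whiskerRight, Category.id_comp]
    simp only [Category.assoc]
  rw [h5, h1, Category.id_comp]

end

end Pool.Agent.L0h15.MT
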