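import Pool.Agent.L0h15.MT.Spt
import Pool.Agent.L0h15.MT.FDefs

/-!
# Nilpotence of endomorphisms which are zero on the cohomology
-/

set_option autoImplicit false
set_option linter.unusedSectionVars false
set_option linter.unusedSimpArgs false
set_option backward.isDefEq.respectTransparency false
set_option backward.defeqAttrib.useBackward true

open CategoryTheory Limits MonoidalCategory Pretriangulated Triangulated ZeroObject

namespace Pool.Agent.L0h15.MT

open Pool.Agent.Y116.MT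

universe v u w

section

variable {C : Type u} [Category.{v} C] [Preadditive C] [HasZeroObject C] [HasShift C ℤ]
  [∀ n : ℤ, (shiftFunctor C n).Additive] [Pretriangulated C] [IsTriangulated C]
  [MonoidalCategory C] [MonoidalPreadditive C] [SymmetricCategory C] [TensorTriangulated C]
  [RightRigidCategory C] {t : TStructure C} {K : Type w} [Field K] {R : Realisation C K}

lemma OneExact.splits (H : OneExact t R) : SplitsDeg R where
  orth f hX hY := t.zero_of_isLE_of_isGE f 0 1 (by omega) (H.isLE hX) (H.isGE hY)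
  trunc X := by
    obtain ⟨A, B, hA, hB, a, b, d, hT⟩ := t.exists_triangle X 0 1 rfl
    exact ⟨A, B, a, b, d, hT, fun i hi => H.exact.isLE ⟨hA⟩ i hi,
      fun i hi => H.exact.isGE ⟨hB⟩ i hi⟩

/-- Existence of a t-structure for one realisation, in terms of degrees. -/
theorem motivic_iff_splits (hid : ∀ e : 𝟙_ C ⟶ 𝟙_ C, e ≫ e = e → e = 0 ∨ e = 𝟙 _) :
    (∃ t : TStructure C, IsMotivic t (fun _ : Unit => R)) ↔ SplitsDeg R :=
  ⟨fun ⟨_, hM⟩ => (IsMotivic.oneExact hM hid ()).splits, fun h => ⟨_, h.motivic⟩⟩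

omit [Preadditive C] [HasZeroObject C] [HasShift C ℤ] [∀ n : ℤ, (shiftFunctor C n).Additive]
  [Pretriangulated C] [IsTriangulated C] [MonoidalCategory C] [MonoidalPreadditive C]
  [SymmetricCategory C] [TensorTriangulated C] [RightRigidCategory C] in
lemma pwr_succ' {X : C} (f : X ⟶ X) (n : ℕ) : pwr f (n + 1) = f ≫ pwr f n := by
  induction n with
  | zero => simp [pwr]
  | succ n ih =>
    change pwr f (n + 1) ≫ f = f ≫ pwr f n ≫ f
    rw [ih, Category.assoc]

omit [Preadditive C] [HasZeroObject C] [HasShift C ℤ] [∀ n : ℤ, (shiftFunctor C n).Additive]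
  [Pretriangulated C] [IsTriangulated C] [MonoidalCategory C] [MonoidalPreadditive C]
  [SymmetricCategory C] [TensorTriangulated C] [RightRigidCategory C] in
lemma pwr_add {X : C} (f : X ⟶ X) (m n : ℕ) : pwr f (m + n) = pwr f m ≫ pwr f n := by
  induction n with
  | zero => simp [pwr]
  | succ n ih =>
    change pwr f (m + n) ≫ f = pwr f m ≫ pwr f n ≫ f
    rw [ih, Category.assoc]

omit [Preadditive C] [HasZeroObject C] [HasShift C ℤ] [∀ n : ℤ, (shiftFunctor C n).Additive]
  [Pretriangulated C] [IsTriangulated C] [MonoidalCategory C] [MonoidalPreadditive C]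
  [SymmetricCategory C] [TensorTriangulated C] [RightRigidCategory C] in
lemma pwr_comm {X Y : C} (f : X ⟶ X) (g : Y ⟶ Y) (a : X ⟶ Y) (h : f ≫ a = a ≫ g) (n : ℕ) :
    pwr f n ≫ a = a ≫ pwr g n := by
  induction n with
  | zero => simp [pwr]
  | succ n ih =>
    change (pwr f n ≫ f) ≫ a = a ≫ pwr g n ≫ g
    rw [Category.assoc, h, ← Category.assoc, ih, Category.assoc]

/-- An endomorphism which is zero on the cohomology of an object of bounded degrees is
nilpotent. -/
theorem nilp_of (H : OneExact t R) (m : ℕ) :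
    ∀ (Y : C) (a : ℤ), t.IsGE Y a → t.IsLE Y (a + m) → ∀ φ : Y ⟶ Y,
      (∀ j : ℤ, R.H.map (φ⟦j⟧') = 0) → pwr φ (m + 1) = 0 := by
  induction m with
  | zero =>
    intro Y a h1 h2 φ hφ
    have h3 : t.IsLE Y a := by simpa using h2
    have h4 : φ⟦a⟧' = 0 := faithful_heart H.tensor H.exact H.unit H.idem
      ⟨t.isLE_shift Y a a 0, t.isGE_shift Y a a 0⟩ ⟨t.isLE_shift Y a a 0, t.isGE_shift Y a a 0⟩
      _ (hφ a)
    have h5 : φ = 0 := (shiftFunctor C a).map_injective (by rw [h4, Functor.map_zero])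
    simp [pwr, h5]
  | succ m ih =>
    intro Y a h1 h2 φ hφ
    set b : ℤ := a + (m + 1 : ℕ) with hb
    obtain ⟨A, B, hA, hB, f, g, d, hT⟩ := t.exists_triangle Y (b - 1) b (by omega)
    have hA1 : t.IsLE A (b - 1) := ⟨hA⟩
    have hB1 : t.IsGE B b := ⟨hB⟩
    have hA2 : t.IsGE A a := isGE1 hT h1 (t.isGE_of_ge B (a - 1) b (by omega))
    have hB2 : t.IsLE B b := isLE3 hT (t.isLE_of_le A (b - 1) (b + 1) (by omega)) h2
    obtain ⟨φA, hφA⟩ := ce2 hT (f ≫ φ) (t.zero_of_isLE_of_isGE _ (b - 1) b (by omega) hA1 hB1)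
    obtain ⟨φB, hφB⟩ := ye2 hT (φ ≫ g) (by
      rw [← Category.assoc]
      exact t.zero_of_isLE_of_isGE _ (b - 1) b (by omega) hA1 hB1)
    -- `φB = 0`
    have k1 : IsIso (R.H.map (g⟦b⟧')) :=
      hiso2 R.H hT b (H.exact.isLE hA1 _ (by omega)) (H.exact.isLE hA1 _ (by omega))
    have k2 : R.H.map (φB⟦b⟧') = 0 := by
      rw [← cancel_epi (R.H.map (g⟦b⟧')), ← Functor.map_comp, ← Functor.map_comp, ← hφB,
        Functor.map_comp, Functor.map_comp, hφ b, zero_comp, comp_zero]
    have k3 : φB⟦b⟧' = 0 := faithful_heart H.tensor H.exact H.unit H.idem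
      ⟨t.isLE_shift B b b 0, t.isGE_shift B b b 0⟩ ⟨t.isLE_shift B b b 0, t.isGE_shift B b b 0⟩
      _ k2
    have k4 : φB = 0 := (shiftFunctor C b).map_injective (by rw [k3, Functor.map_zero])
    -- `φ` factors through `A`
    obtain ⟨χ, hχ⟩ := ce2 hT φ (by rw [hφB, k4, comp_zero])
    -- `φA` is zero on the cohomology
    have k5 : ∀ j : ℤ, R.H.map (φA⟦j⟧') = 0 := by
      intro j
      by_cases hj : j ≤ b - 1
      · have := hmono1 R.H hT j (H.exact.isGE hB1 _ (by omega))
        rw [← cancel_mono (R.H.map (f⟦j⟧')), ← Functor.map_comp, ← Functor.map_comp, ← hφA,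
          Functor.map_comp, Functor.map_comp, hφ j, comp_zero, zero_comp]
      · exact (H.exact.isLE hA1 j (by omega)).eq_of_tgt _ _
    have k6 := ih A a hA2 (t.isLE_of_le A (b - 1) _ (by omega)) φA k5
    have k7 : f ≫ pwr φ (m + 1) = pwr φA (m + 1) ≫ f := (pwr_comm φA φ f hφA.symm (m + 1)).symm
    calc pwr φ (m + 1 + 1) = φ ≫ pwr φ (m + 1) := pwr_succ' _ _
      _ = χ ≫ f ≫ pwr φ (m + 1) := by rw [← Category.assoc, ← hχ]
      _ = 0 := by rw [k7, k6, zero_comp, comp_zero]

end

end Pool.Agent.L0h15.MT
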