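import Pool.Agent.L0h15.MT.Bet

/-!
# A t-structure exact for one realisation is exact for all
-/

set_option autoImplicit false
set_option linter.unusedSectionVars false
set_option linter.unusedSimpArgs false
set_option backward.isDefEq.respectTransparency false
set_option backward.defeqAttrib.useBackward true

open CategoryTheory Limits MonoidalCategory Pretriangulated Triangulated ZeroObject

namespace Pool.Agent.L0h15.MT

open Pool.Agent.Y116.MT

universe v u w

section

variable {C : Type u} [Category.{v} C] [Preadditive C] [HasZeroObject C] [HasShift C ℤ]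
  [∀ n : ℤ, (shiftFunctor C n).Additive] [Pretriangulated C] [IsTriangulated C]
  [MonoidalCategory C] [MonoidalPreadditive C] [SymmetricCategory C] [TensorTriangulated C]
  [RightRigidCategory C] {t : TStructure C}
  {Chow : ObjectProperty C} {T : C} {Λ : Type*} {E : Λ → Type w} [∀ l, Field (E l)]
  {R : ∀ l, Realisation C (E l)}

/-- The `n`-th Betti number of `X` for a realisation: the dimension of `H^n(X)`. -/
noncomputable def betti {K : Type w} [Field K] (R : Realisation C K) (X : C) (n : ℤ) : ℕ :=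
  Module.finrank K (R.H.obj (X⟦n⟧))

/-- There are morphisms `L : Q ⟶ Q ⊗ T ^ k` inducing isomorphisms
`H^(e-k)(Q) ≅ H^(e-k)(Q ⊗ T ^ k)` for all realisations. -/
def HasLefschetz (T : C) (R : ∀ l, Realisation C (E l)) (Q : C) (e : ℤ) : Prop :=
  ∀ k : ℕ, ∃ L : Q ⟶ twist T Q k, ∀ l, IsIso ((R l).H.map (L⟦e - k⟧'))

/-- The hard Lefschetz theorem for a class of motives with Betti numbers independent of the
realisation: every object `P` of the class is a direct summand of an object `Q` of the class (namely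
`M(X)(m)[2m]`, `X` smooth projective of pure dimension) with an integer `e` and morphisms
`L : Q ⟶ Q ⊗ T ^ k` inducing isomorphisms `H^(e-k)(Q) ≅ H^(e-k)(Q ⊗ T ^ k)` for all realisations,
and such that the dimension of `H^n(Q)` is the same for all realisations, for all `n`. -/
def BettiIndependent (Chow : ObjectProperty C) (T : C) {Λ : Type*} {E : Λ → Type w}
    [∀ l, Field (E l)] (R : ∀ l, Realisation C (E l)) : Prop :=
  ∀ P : C, Chow P → ∃ (Q : C) (i : P ⟶ Q) (r : Q ⟶ P) (e : ℤ),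
    i ≫ r = 𝟙 P ∧ Chow Q ∧ HasLefschetz T R Q e ∧
    ∀ (n : ℤ) (l l' : Λ), betti (R l) Q n = betti (R l') Q n

/-- A class of objects, with the property that objects concentrated in one degree for the
t-structure are concentrated in this degree for all realisations. -/
def DegAll (t : TStructure C) (R : ∀ l, Realisation C (E l)) : ObjectProperty C := fun X =>
  ∃ n : ℤ, t.IsLE X n ∧ t.IsGE X n ∧ ∀ l, (R l).Deg X n

variable [Linear ℚ C] [∀ l, CharZero (E l)]

theorem dec_of_betti (hU : ∀ c : 𝟙_ C ⟶ 𝟙_ C, ∃ q : ℚ, c = q • 𝟙 _) (l : Λ)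
    (H : OneExact t (R l)) {T T' : C} (eT : T ⊗ T' ≅ 𝟙_ C) (hT : ∀ l, (R l).Deg T (-2))
    (e : ℤ) (k : ℕ) :
    ∀ M : C, t.IsGE M (e - k) → t.IsLE M (e + k) → HLf T (R l) e k M →
      (∀ (n : ℤ) (l l' : Λ), Module.finrank (E l) ((R l).H.obj (M⟦n⟧)) =
        Module.finrank (E l') ((R l').H.obj (M⟦n⟧))) → Dec t (DegAll t R) M := by
  have hT1 := H.isLE_deg (hT l)
  have hT2 := H.isGE_deg (hT l)
  have hT0 : ∃ T' : C, Nonempty (T ⊗ T' ≅ 𝟙_ C) := ⟨T', ⟨eT⟩⟩
  have ht := H.tensor
  have he := H.exact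
  induction k with
  | zero =>
    intro M h1 h2 _ hb
    have h1' : t.IsGE M e := by simpa using h1
    have h2' : t.IsLE M e := by simpa using h2
    refine Dec.pure M e ⟨e, h2', h1', ?_⟩ h2' h1'
    intro l' i hi
    apply isZero_of_rank
    rw [hb i l' l]
    exact rank_of_isZero (H.deg_of h2' h1' i hi)
  | succ k ih =>
    intro M h1 h2 hL hb
    obtain ⟨L, hLi⟩ := hL (k + 1) le_rfl
    set n : ℤ := e - (k + 1 : ℕ) with hn
    set m : ℤ := e + (k + 1 : ℕ) with hm
    obtain ⟨M0, M2, hM0, hM2, a, g, d, hT'⟩ := t.exists_triangle M n (n + 1) rfl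
    obtain ⟨M', M1, hM', hM1, j', q, d', hT''⟩ := t.exists_triangle M2 (m - 1) m (by omega)
    have hM0' : t.IsLE M0 n := ⟨hM0⟩
    have hM2' : t.IsGE M2 (n + 1) := ⟨hM2⟩
    have hM'' : t.IsLE M' (m - 1) := ⟨hM'⟩
    have hM1' : t.IsGE M1 m := ⟨hM1⟩
    have hM0g : t.IsGE M0 n := isGE1 hT' h1 (t.isGE_of_ge M2 (n - 1) (n + 1))
    have hM2l : t.IsLE M2 m := isLE3 hT' (t.isLE_of_le M0 n (m + 1) (by omega)) h2
    have hM1l : t.IsLE M1 m := isLE3 hT'' (t.isLE_of_le M' (m - 1) (m + 1) (by omega)) hM2l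
    have hM'g : t.IsGE M' (n + 1) :=
      isGE1 hT'' hM2' (t.isGE_of_ge M1 (n + 1 - 1) m (by omega))
    -- the composite
    obtain ⟨x1, hx1⟩ := tw_dist T hT' (k + 1)
    obtain ⟨x2, hx2⟩ := tw_dist T hT'' (k + 1)
    have htM0 : t.IsLE (twist T M0 (k + 1)) (n - 2 * (k + 1 : ℕ)) := by
      have := tw_isLE ht hT1 hM0' (k + 1)
      rwa [show n + ((k + 1 : ℕ) : ℤ) * (-2) = n - 2 * (k + 1 : ℕ) by ring] at this
    have htM' : t.IsLE (twist T M' (k + 1)) (m - 1 - 2 * (k + 1 : ℕ)) := by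
      have := tw_isLE ht hT1 hM'' (k + 1)
      rwa [show m - 1 + ((k + 1 : ℕ) : ℤ) * (-2) = m - 1 - 2 * (k + 1 : ℕ) by ring] at this
    have htM1l : t.IsLE (twist T M1 (k + 1)) n := by
      have := tw_isLE ht hT1 hM1l (k + 1)
      rwa [show m + ((k + 1 : ℕ) : ℤ) * (-2) = n by omega] at this
    have htM1g : t.IsGE (twist T M1 (k + 1)) n := by
      have := tw_isGE ht hT2 hM1' (k + 1)
      rwa [show m + ((k + 1 : ℕ) : ℤ) * (-2) = n by omega] at this
    set c : M0 ⟶ twist T M1 (k + 1) := a ≫ L ≫ twMap T g (k + 1) ≫ twMap T q (k + 1) with hc'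
    have i1 : IsIso ((R l).H.map (a⟦n⟧')) :=
      hiso1 (R l).H hT' n (he.isGE hM2' _ (by omega)) (he.isGE hM2' _ (by omega))
    have i2 : IsIso ((R l).H.map ((twMap T g (k + 1))⟦n⟧')) :=
      hiso2 (R l).H hx1 n (he.isLE htM0 _ (by omega)) (he.isLE htM0 _ (by omega))
    have i3 : IsIso ((R l).H.map ((twMap T q (k + 1))⟦n⟧')) :=
      hiso2 (R l).H hx2 n (he.isLE htM' _ (by omega)) (he.isLE htM' _ (by omega))
    have i4 : IsIso ((R l).H.map (c⟦n⟧')) := by
      rw [hc']
      simp only [Functor.map_comp]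
      infer_instance
    have i5 : IsIso c := by
      apply isIso_of_H H.conserv
      intro i
      by_cases hi : i = n
      · subst hi
        exact i4
      · have z1 : IsZero ((R l).H.obj (M0⟦i⟧)) := by
          rcases lt_or_gt_of_ne hi with h' | h'
          · exact he.isGE hM0g i h'
          · exact he.isLE hM0' i h'
        have z2 : IsZero ((R l).H.obj ((twist T M1 (k + 1))⟦i⟧)) := by
          rcases lt_or_gt_of_ne hi with h' | h'
          · exact he.isGE htM1g i h'
          · exact he.isLE htM1l i h'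
        exact isIso_of_source_target_iso_zero _ z1.isoZero z2.isoZero
    -- the splittings
    obtain ⟨ci, hci1, hci2⟩ := i5
    have s1 : a ≫ (L ≫ twMap T g (k + 1) ≫ twMap T q (k + 1) ≫ ci) = 𝟙 M0 := by
      have : a ≫ (L ≫ twMap T g (k + 1) ≫ twMap T q (k + 1) ≫ ci) = c ≫ ci := by
        simp only [hc', Category.assoc]
      rw [this, hci1]
    have hd : d = 0 := by
      have h3 := comp31 hT'
      have h4 := congrArg (fun z => z⟦(1 : ℤ)⟧') s1
      simp only [Functor.map_comp, CategoryTheory.Functor.map_id] at h4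
      rw [← Category.comp_id d, ← h4, ← Category.assoc, h3, zero_comp]
    obtain ⟨s, hs⟩ := split3' hT' hd
    obtain ⟨σ, hσ⟩ := twMap_full hT0 (k + 1) (ci ≫ a ≫ L ≫ twMap T g (k + 1))
    have hσq : σ ≫ q = 𝟙 M1 := by
      apply twMap_faithful hT0 (k + 1)
      rw [twMap_comp, hσ, twMap_id]
      have : (ci ≫ a ≫ L ≫ twMap T g (k + 1)) ≫ twMap T q (k + 1) = ci ≫ c := by
        simp only [hc', Category.assoc]
      rw [this, hci2]
    have hd' : d' = 0 := by
      rw [← Category.id_comp d', ← hσq, Category.assoc, comp23 hT'', comp_zero]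
    obtain ⟨r', hr'⟩ := split3 hT'' hd'
    obtain ⟨e1⟩ := sum_of_split hT' hd
    obtain ⟨e2⟩ := sum_of_split hT'' hd'
    -- the cohomology of the outer parts for all realisations
    have hMz : ∀ (l' : Λ) (i : ℤ), (i < n ∨ m < i) → IsZero ((R l').H.obj (M⟦i⟧)) := by
      intro l' i hi
      apply isZero_of_rank
      rw [hb i l' l]
      apply rank_of_isZero
      rcases hi with hi | hi
      · exact he.isGE h1 i hi
      · exact he.isLE h2 i hi
    have hM0z : ∀ (l' : Λ) (i : ℤ), i < n → IsZero ((R l').H.obj (M0⟦i⟧)) := by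
      intro l' i hi
      apply isZero_of_rank
      have h3 := rank_sum (R := R l') e1 i
      have h4 := rank_of_isZero (hMz l' i (Or.inl hi))
      omega
    have hM1z : ∀ (l' : Λ) (i : ℤ), m < i → IsZero ((R l').H.obj (M1⟦i⟧)) := by
      intro l' i hi
      apply isZero_of_rank
      have h3 := rank_sum (R := R l') e1 i
      have h3' := rank_sum (R := R l') e2 i
      have h4 := rank_of_isZero (hMz l' i (Or.inr hi))
      omega
    let ec : M0 ≅ twist T M1 (k + 1) := ⟨c, ci, hci1, hci2⟩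
    have hM0D : ∀ l', (R l').Deg M0 n := by
      intro l' i hi
      rcases lt_or_gt_of_ne hi with h' | h'
      · exact hM0z l' i h'
      · have h3 : IsZero ((R l').H.obj ((twist T M1 (k + 1))⟦i⟧)) :=
          (isZero_twist eT (hT l') M1 (k + 1) i).2 (hM1z l' _ (by omega))
        exact h3.of_iso ((R l').H.mapIso ((shiftFunctor C i).mapIso ec))
    have hM1D : ∀ l', (R l').Deg M1 m := by
      intro l' i hi
      rcases lt_or_gt_of_ne hi with h' | h'
      · have h3 : IsZero ((R l').H.obj ((twist T M1 (k + 1))⟦i - 2 * (k + 1 : ℕ)⟧)) :=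
          (hM0z l' _ (by omega)).of_iso
            ((R l').H.mapIso ((shiftFunctor C _).mapIso ec.symm))
        have h4 := (isZero_twist eT (hT l') M1 (k + 1) _).1 h3
        rwa [sub_add_cancel] at h4
      · exact hM1z l' i h'
    have hb' : ∀ (i : ℤ) (l l' : Λ), Module.finrank (E l) ((R l).H.obj (M'⟦i⟧)) =
        Module.finrank (E l') ((R l').H.obj (M'⟦i⟧)) := by
      intro i l1 l2
      have h3 := rank_sum (R := R l1) e1 i
      have h4 := rank_sum (R := R l1) e2 i
      have h5 := rank_sum (R := R l2) e1 i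
      have h6 := rank_sum (R := R l2) e2 i
      have h7 := rank_eq_deg hU (hM0D l1) (hM0D l2) i
      have h8 := rank_eq_deg hU (hM1D l1) (hM1D l2) i
      have h9 := hb i l1 l2
      omega
    -- the Lefschetz theorem for `M'`
    have hL' : HLf T (R l) e k M' := by
      intro j hj
      obtain ⟨ℓ, hℓ⟩ := hL j (by omega)
      obtain ⟨y1, hy1⟩ := tw_dist T hT' j
      obtain ⟨y2, hy2⟩ := tw_dist T hT'' j
      have k1 : IsIso ((R l).H.map (g⟦e - j⟧')) :=
        hiso2 (R l).H hT' _ (he.isLE hM0' _ (by omega)) (he.isLE hM0' _ (by omega))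
      have k2 : IsIso ((R l).H.map (j'⟦e - j⟧')) :=
        hiso1 (R l).H hT'' _ (he.isGE hM1' _ (by omega)) (he.isGE hM1' _ (by omega))
      have k3 : IsIso ((R l).H.map (s⟦e - j⟧')) := by
        have h5 : (R l).H.map (s⟦e - j⟧') ≫ (R l).H.map (g⟦e - j⟧') = 𝟙 _ := by
          rw [← Functor.map_comp, ← Functor.map_comp, hs, CategoryTheory.Functor.map_id,
            CategoryTheory.Functor.map_id]
        have h6 : IsIso ((R l).H.map (s⟦e - j⟧') ≫ (R l).H.map (g⟦e - j⟧')) := by
          rw [h5]; infer_instance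
        exact IsIso.of_isIso_comp_right _ ((R l).H.map (g⟦e - j⟧'))
      have hg0 : t.IsLE (twist T M0 j) (n - 2 * j) := by
        have := tw_isLE ht hT1 hM0' j
        rwa [show n + (j : ℤ) * (-2) = n - 2 * j by ring] at this
      have hg1 : t.IsGE (twist T M1 j) (m - 2 * j) := by
        have := tw_isGE ht hT2 hM1' j
        rwa [show m + (j : ℤ) * (-2) = m - 2 * j by ring] at this
      have k4 : IsIso ((R l).H.map ((twMap T g j)⟦e - j⟧')) :=
        hiso2 (R l).H hy1 _ (he.isLE hg0 _ (by omega)) (he.isLE hg0 _ (by omega))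
      have k5 : IsIso ((R l).H.map ((twMap T j' j)⟦e - j⟧')) :=
        hiso1 (R l).H hy2 _ (he.isGE hg1 _ (by omega)) (he.isGE hg1 _ (by omega))
      have k6 : IsIso ((R l).H.map ((twMap T r' j)⟦e - j⟧')) := by
        have h5 : (R l).H.map ((twMap T j' j)⟦e - j⟧') ≫ (R l).H.map ((twMap T r' j)⟦e - j⟧') =
            𝟙 _ := by
          rw [← Functor.map_comp, ← Functor.map_comp, ← twMap_comp, hr', twMap_id,
            CategoryTheory.Functor.map_id, CategoryTheory.Functor.map_id]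
        have h6 : IsIso ((R l).H.map ((twMap T j' j)⟦e - j⟧') ≫
            (R l).H.map ((twMap T r' j)⟦e - j⟧')) := by
          rw [h5]; infer_instance
        exact IsIso.of_isIso_comp_left ((R l).H.map ((twMap T j' j)⟦e - j⟧')) _
      refine ⟨j' ≫ s ≫ ℓ ≫ twMap T g j ≫ twMap T r' j, ?_⟩
      simp only [Functor.map_comp]
      infer_instance
    have hdec : Dec t (DegAll t R) M' := ih M' (t.isGE_of_ge M' _ (n + 1) (by omega))
      (t.isLE_of_le M' (m - 1) _ (by omega)) hL' hb'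
    exact Dec.sum M0 M2 M ⟨e1⟩ (Dec.pure M0 n ⟨n, hM0', hM0g, hM0D⟩ hM0' hM0g)
      (Dec.sum M' M1 M2 ⟨e2⟩ hdec (Dec.pure M1 m ⟨m, hM1l, hM1', hM1D⟩ hM1l hM1'))

omit [Linear ℚ C] [∀ l, CharZero (E l)] in
/-- A composite through a sum of objects of one degree. -/
lemma Dec.factor {X : C} (h : Dec t (DegAll t R) X) (d : ℤ) :
    ∀ (Y : C) (i : Y ⟶ X) (r : X ⟶ Y), t.IsLE Y d → t.IsGE Y d →
      ∃ (X' : C) (i' : Y ⟶ X') (r' : X' ⟶ Y), i' ≫ r' = i ≫ r ∧ ∀ l, (R l).Deg X' d := by
  induction h with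
  | zero X hX =>
    intro Y i r _ _
    exact ⟨0, 0, 0, by rw [hX.eq_of_tgt i 0, zero_comp, zero_comp],
      fun l n _ => (R l).H.map_isZero ((shiftFunctor C n).map_isZero (isZero_zero C))⟩
  | pure X n hX h1 h2 =>
    intro Y i r hY1 hY2
    by_cases hdn : d = n
    · subst hdn
      obtain ⟨n', h3, h4, h5⟩ := hX
      by_cases hn : n' = d
      · subst hn
        exact ⟨X, i, r, rfl, h5⟩
      · have hz : IsZero X := by
          rcases lt_or_gt_of_ne hn with h' | h'
          · exact t.isZero X n' d h'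
          · exact t.isZero X d n' h'
        exact ⟨0, 0, 0, by rw [hz.eq_of_tgt i 0, zero_comp, zero_comp],
          fun l n _ => (R l).H.map_isZero ((shiftFunctor C n).map_isZero (isZero_zero C))⟩
    · refine ⟨0, 0, 0, ?_,
        fun l n _ => (R l).H.map_isZero ((shiftFunctor C n).map_isZero (isZero_zero C))⟩
      rw [zero_comp]
      rcases lt_or_gt_of_ne hdn with h' | h'
      · rw [t.zero_of_isLE_of_isGE i d n h' hY1 h2, zero_comp]
      · rw [t.zero_of_isLE_of_isGE r n d h' h1 hY2, comp_zero]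
  | sum X X' Z e _ _ ih1 ih2 =>
    intro Y i r hY1 hY2
    obtain ⟨e⟩ := e
    obtain ⟨A, i1, r1, h1, h1'⟩ := ih1 Y (i ≫ e.hom ≫ biprod.fst) (biprod.inl ≫ e.inv ≫ r) hY1 hY2
    obtain ⟨B, i2, r2, h2, h2'⟩ := ih2 Y (i ≫ e.hom ≫ biprod.snd) (biprod.inr ≫ e.inv ≫ r) hY1 hY2
    refine ⟨A ⊞ B, biprod.lift i1 i2, biprod.desc r1 r2, ?_, ?_⟩
    · rw [biprod.lift_desc, h1, h2]
      have h3 : biprod.fst ≫ biprod.inl + biprod.snd ≫ biprod.inr = 𝟙 (X ⊞ X') := biprod.total
      calc (i ≫ e.hom ≫ biprod.fst) ≫ biprod.inl ≫ e.inv ≫ r +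
            (i ≫ e.hom ≫ biprod.snd) ≫ biprod.inr ≫ e.inv ≫ r
          = i ≫ e.hom ≫ (biprod.fst ≫ biprod.inl + biprod.snd ≫ biprod.inr) ≫ e.inv ≫ r := by
            simp only [Category.assoc, Preadditive.add_comp, Preadditive.comp_add]
        _ = i ≫ r := by rw [h3, Category.id_comp, Iso.hom_inv_id_assoc]
    · intro l n hn
      exact hz2 (R l).H (binaryBiproductTriangle_distinguished A B) n (h1' l n hn) (h2' l n hn)

/-- The Künneth decomposition from exactness for one realisation. -/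
theorem kunneth_of_one (h : IsChow Chow T R) (hB : BettiIndependent Chow T R)
    (hU : ∀ c : 𝟙_ C ⟶ 𝟙_ C, ∃ q : ℚ, c = q • 𝟙 _) (l : Λ) (H : OneExact t (R l)) :
    KunnethDecomposition Chow R := by
  intro P hP
  obtain ⟨m, d, Q, hQ, e⟩ := chow_decompose h l H P hP
  refine ⟨m, d, Q, fun j => ⟨(hQ j).1, ?_⟩, e⟩
  obtain ⟨X, i, r, e', hir, hX, hL, hb⟩ := hB (Q j) (hQ j).1
  obtain ⟨N, hN1, hN2⟩ := H.bounded X
  obtain ⟨T', ⟨eT⟩⟩ := h.lefschetz.invertible
  have h1 : Dec t (DegAll t R) X := by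
    refine dec_of_betti hU l H eT h.lefschetz.degree e' (N + e'.natAbs) X
      (t.isGE_of_ge X _ (-N) (by omega)) (t.isLE_of_le X N _ (by omega)) ?_ hb
    intro j _
    obtain ⟨L, hL⟩ := hL j
    exact ⟨L, hL l⟩
  obtain ⟨X', i', r', hir', hX'⟩ := h1.factor (d j) (Q j) i r (hQ j).2.1 (hQ j).2.2
  intro l'
  exact (hX' l').retract i' r' (hir'.trans hir)

/-- A t-structure which is exact for one realisation is motivic. -/
theorem motivic_of_one [IsIdempotentComplete C] (h : IsChow Chow T R)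
    (hB : BettiIndependent Chow T R) (hU : ∀ c : 𝟙_ C ⟶ 𝟙_ C, ∃ q : ℚ, c = q • 𝟙 _) (l : Λ)
    (H : OneExact t (R l)) : IsMotivic t R := by
  have : Nonempty Λ := ⟨l⟩
  obtain ⟨t', hM⟩ := exists_motivic h (kunneth_of_one h hB hU l H) (numerical_of h l H)
    (vanishing_of h l H) hU
  have H' := IsMotivic.oneExact hM (hid_of hU ⟨E l, inferInstance, ⟨R l⟩⟩)
  have hle : ∀ (X : C) (n : ℤ), t.le n X ↔ t'.le n X := fun X n =>
    ⟨fun hX => ((H' l).isLE fun i hi => H.exact.isLE ⟨hX⟩ i hi).le,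
      fun hX => (H.isLE fun i hi => (H' l).exact.isLE ⟨hX⟩ i hi).le⟩
  have hge : ∀ (X : C) (n : ℤ), t.ge n X ↔ t'.ge n X := fun X n =>
    ⟨fun hX => ((H' l).isGE fun i hi => H.exact.isGE ⟨hX⟩ i hi).ge,
      fun hX => (H.isGE fun i hi => (H' l).exact.isGE ⟨hX⟩ i hi).ge⟩
  exact
    { nondeg_le := H.nondeg_le
      nondeg_ge := H.nondeg_ge
      tensor_le := H.tensor.le
      tensor_ge := H.tensor.ge
      exact_le := fun l' X hX => hM.exact_le l' X ((hle X 0).1 hX)
      exact_ge := fun l' X hX => hM.exact_ge l' X ((hge X 0).1 hX) }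

end

end Pool.Agent.L0h15.MT
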