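import Pool.Agent.L0h15.MT.Fam

/-!
# The parts of degree zero of Chow motives
-/

set_option autoImplicit false
set_option linter.unusedSectionVars false
set_option linter.unusedSimpArgs false
set_option backward.isDefEq.respectTransparency false
set_option backward.defeqAttrib.useBackward true

open CategoryTheory Limits MonoidalCategory Pretriangulated Triangulated ZeroObject

namespace Pool.Agent.L0h15.MT

open Pool.Agent.Y116.MT

universe v u w

open Functor.LaxMonoidal Functor.OplaxMonoidal Functor.Monoidal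

section

variable {C : Type u} [Category.{v} C] [Preadditive C] [HasZeroObject C] [HasShift C ℤ]
  [∀ n : ℤ, (shiftFunctor C n).Additive] [Pretriangulated C] [IsTriangulated C]
  [MonoidalCategory C] [MonoidalPreadditive C] [SymmetricCategory C] [TensorTriangulated C]
  [RightRigidCategory C] {t : TStructure C}
  {Chow : ObjectProperty C} {T : C} {Λ : Type*} {E : Λ → Type w} [∀ l, Field (E l)]
  {R : ∀ l, Realisation C (E l)}

/-- A Chow motive is a direct summand of a split one. -/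
lemma chow_spl (h : IsChow Chow T R) (l : Λ) (H : OneExact t (R l)) (P : C)
    (hP : Chow P) : ∃ (X : C) (i : P ⟶ X) (r : X ⟶ P), i ≫ r = 𝟙 P ∧ Spl t X := by
  obtain ⟨Q, i, r, e, hir, hQ, hL⟩ := h.lefschetz.lefschetz P hP
  obtain ⟨N, hN1, hN2⟩ := H.bounded Q
  have hT1 := H.isLE_deg (h.lefschetz.degree l)
  have hT2 := H.isGE_deg (h.lefschetz.degree l)
  have h1 : Dec t Chow Q := by
    refine dec_of_lef H.tensor H.exact H.conserv h.lefschetz.invertible hT1 hT2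
      (fun i r hir hX => h.retract i r hir hX) e (N + e.natAbs) Q hQ
      (t.isGE_of_ge Q _ (-N) (by omega)) (t.isLE_of_le Q N _ (by omega)) ?_
    intro j _
    obtain ⟨L, hL⟩ := hL j
    exact ⟨L, hL l⟩
  exact ⟨Q, i, r, hir, h1.spl⟩

/-- The truncation triangles of Chow motives are split. -/
lemma chow_trunc (h : IsChow Chow T R) (l : Λ) (H : OneExact t (R l)) (P : C)
    (hP : Chow P) (n : ℤ) : ∃ (A B : C) (a : A ⟶ P) (b : P ⟶ B) (c : P ⟶ A) (s : B ⟶ P)
      (d : B ⟶ A⟦(1 : ℤ)⟧), Triangle.mk a b d ∈ distTriang C ∧ a ≫ c = 𝟙 A ∧ s ≫ b = 𝟙 B ∧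
      t.IsLE A n ∧ t.IsGE B (n + 1) := by
  obtain ⟨X, i, r, hir, hX⟩ := chow_spl h l H P hP
  obtain ⟨A, B, ⟨e⟩, hA, hB⟩ := hX n
  obtain ⟨A', B', hA', hB', a, b, d, hT⟩ := t.exists_triangle P n (n + 1) rfl
  obtain ⟨h1, ⟨c, h2⟩, ⟨s, h3⟩⟩ := Spl.retract_split e hA hB i r hir hT ⟨hA'⟩ ⟨hB'⟩
  exact ⟨A', B', a, b, c, s, d, hT, h2, h3, ⟨hA'⟩, ⟨hB'⟩⟩

/-- The part of degree zero of a Chow motive. -/
lemma chow_part (h : IsChow Chow T R) (l : Λ) (H : OneExact t (R l)) (P : C)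
    (hP : Chow P) : ∃ (P0 : C) (i : P0 ⟶ P) (r : P ⟶ P0), i ≫ r = 𝟙 P0 ∧ Chow P0 ∧
      t.IsLE P0 0 ∧ t.IsGE P0 0 ∧ (R l).H.map r ≫ (R l).H.map i = 𝟙 _ := by
  -- degrees `≤ 0`
  obtain ⟨A, B, a, b, c, s, d, hT, hac, hsb, hA, hB⟩ := chow_trunc h l H P hP 0
  have hAC : Chow A := h.retract a c hac hP
  have k1 : (R l).H.map c ≫ (R l).H.map a = 𝟙 _ := by
    have i1 : IsIso ((R l).H.map (a⟦(0 : ℤ)⟧')) :=
      hiso1 (R l).H hT 0 (H.exact.isGE hB _ (by omega)) (H.exact.isGE hB _ (by omega))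
    have i2 : IsIso ((R l).H.map a) := by
      have e1 := (shiftFunctorZero C ℤ).hom.naturality a
      have e2 : (R l).H.map (a⟦(0 : ℤ)⟧') ≫ (R l).H.map ((shiftFunctorZero C ℤ).hom.app P) =
          (R l).H.map ((shiftFunctorZero C ℤ).hom.app A) ≫ (R l).H.map a := by
        rw [← Functor.map_comp, ← Functor.map_comp]
        exact congrArg (R l).H.map e1
      have i3 : IsIso ((R l).H.map ((shiftFunctorZero C ℤ).hom.app A) ≫ (R l).H.map a) := by
        rw [← e2]; infer_instance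
      exact IsIso.of_isIso_comp_left ((R l).H.map ((shiftFunctorZero C ℤ).hom.app A)) _
    have k2 : (R l).H.map a ≫ (R l).H.map c = 𝟙 _ := by
      rw [← Functor.map_comp, hac, CategoryTheory.Functor.map_id]
    rw [← cancel_epi ((R l).H.map a), ← Category.assoc, k2, Category.id_comp, Category.comp_id]
  -- degrees `≥ 0`
  obtain ⟨A', B', a', b', c', s', d', hT', hac', hsb', hA', hB'⟩ := chow_trunc h l H A hAC (-1)
  have hBC : Chow B' := h.retract s' b' hsb' hAC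
  have k3 : (R l).H.map b' ≫ (R l).H.map s' = 𝟙 _ := by
    have i1 : IsIso ((R l).H.map (b'⟦(0 : ℤ)⟧')) :=
      hiso2 (R l).H hT' 0 (H.exact.isLE hA' _ (by omega)) (H.exact.isLE hA' _ (by omega))
    have i2 : IsIso ((R l).H.map b') := by
      have e1 := (shiftFunctorZero C ℤ).hom.naturality b'
      have e2 : (R l).H.map (b'⟦(0 : ℤ)⟧') ≫ (R l).H.map ((shiftFunctorZero C ℤ).hom.app B') =
          (R l).H.map ((shiftFunctorZero C ℤ).hom.app A) ≫ (R l).H.map b' := by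
        rw [← Functor.map_comp, ← Functor.map_comp]
        exact congrArg (R l).H.map e1
      have i3 : IsIso ((R l).H.map ((shiftFunctorZero C ℤ).hom.app A) ≫ (R l).H.map b') := by
        rw [← e2]; infer_instance
      exact IsIso.of_isIso_comp_left ((R l).H.map ((shiftFunctorZero C ℤ).hom.app A)) _
    have k2 : (R l).H.map s' ≫ (R l).H.map b' = 𝟙 _ := by
      rw [← Functor.map_comp, hsb', CategoryTheory.Functor.map_id]
    rw [← cancel_mono ((R l).H.map b'), Category.assoc, k2, Category.id_comp, Category.comp_id]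
  refine ⟨B', s' ≫ a, c ≫ b', ?_, hBC, isLE_retract hA s' b' hsb', by simpa using hB', ?_⟩
  · rw [Category.assoc, reassoc_of% hac, hsb']
  · rw [Functor.map_comp, Functor.map_comp, Category.assoc, reassoc_of% k3, k1]

variable [Linear ℚ C] [∀ l, CharZero (E l)]

/-- Pure motives of degree zero: semisimplicity, in terms of one realisation. -/
lemma chow_regular {K : Type w} [Field K] [CharZero K] {R0 : Realisation C K}
    (h : IsChow Chow T (fun _ : Unit => R0)) (H : OneExact t R0)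
    (hU : ∀ c : 𝟙_ C ⟶ 𝟙_ C, ∃ q : ℚ, c = q • 𝟙 _) {X Y : C} (hX : Chow X) (hX1 : t.IsLE X 0)
    (hX2 : t.IsGE X 0) (hY : Chow Y) (hY1 : t.IsLE Y 0) (hY2 : t.IsGE Y 0) (f : X ⟶ Y) :
    ∃ g : Y ⟶ X, f ≫ g ≫ f = f := by
  have e : ∀ Z : C, Chow Z → Chow (Z⟦(-0 : ℤ)⟧) := fun Z hZ =>
    h.iso ((shiftFunctorZero' C (-0 : ℤ) (by simp)).app Z).symm hZ
  exact zr_regular h (numerical_of h () H) hU (e X hX) (fun _ => H.deg_of hX1 hX2) (e Y hY)
    (fun _ => H.deg_of hY1 hY2) f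

/-- The lifting of classes along morphisms of Chow motives. -/
lemma chow_lift {K : Type w} [Field K] [CharZero K] {R0 : Realisation C K}
    (h : IsChow Chow T (fun _ : Unit => R0)) (H : OneExact t R0)
    (hU : ∀ c : 𝟙_ C ⟶ 𝟙_ C, ∃ q : ℚ, c = q • 𝟙 _) {N S : C} (hN : Chow N) (hS : Chow S)
    (m : N ⟶ S) (e : 𝟙_ C ⟶ S) (z : R0.H.obj N) (hz : (R0.H.map m).hom z = cls R0 e) :
    ∃ c : 𝟙_ C ⟶ N, cls R0 (c ≫ m) = cls R0 e := by
  obtain ⟨N0, i, r, hir, hN0, hN1, hN2, hN3⟩ := chow_part h () H N hN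
  obtain ⟨S0, j, q, hjq, hS0, hS1, hS2, hS3⟩ := chow_part h () H S hS
  obtain ⟨g, hg⟩ := chow_regular h H hU hN0 hN1 hN2 hS0 hS1 hS2 (i ≫ m ≫ q)
  refine ⟨e ≫ q ≫ g ≫ i, ?_⟩
  have a1 : ∀ x : R0.H.obj N, (R0.H.map i).hom ((R0.H.map r).hom x) = x := fun x =>
    LinearMap.congr_fun (congrArg ModuleCat.Hom.hom hN3) x
  have a2 : ∀ x : R0.H.obj S, (R0.H.map j).hom ((R0.H.map q).hom x) = x := fun x =>
    LinearMap.congr_fun (congrArg ModuleCat.Hom.hom hS3) x
  have a3 : ∀ x : R0.H.obj N0, (R0.H.map (i ≫ m ≫ q)).hom ((R0.H.map g).hom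
      ((R0.H.map (i ≫ m ≫ q)).hom x)) = (R0.H.map (i ≫ m ≫ q)).hom x := fun x => by
    have := LinearMap.congr_fun (congrArg ModuleCat.Hom.hom (congrArg R0.H.map hg)) x
    simpa using this
  have a4 : cls R0 ((e ≫ q ≫ g ≫ i) ≫ m) =
      (R0.H.map m).hom ((R0.H.map i).hom ((R0.H.map g).hom ((R0.H.map q).hom (cls R0 e)))) := by
    rw [show (e ≫ q ≫ g ≫ i) ≫ m = (((e ≫ q) ≫ g) ≫ i) ≫ m by simp only [Category.assoc],
      cls_comp, cls_comp, cls_comp, cls_comp]
  have a5 : (R0.H.map q).hom (cls R0 e) =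
      (R0.H.map (i ≫ m ≫ q)).hom ((R0.H.map r).hom z) := by
    rw [← hz]
    simp only [Functor.map_comp, ModuleCat.hom_comp, LinearMap.comp_apply]
    rw [a1]
  have a6 := a3 ((R0.H.map r).hom z)
  rw [← a5] at a6
  rw [a4, ← a2 ((R0.H.map m).hom ((R0.H.map i).hom ((R0.H.map g).hom ((R0.H.map q).hom
    (cls R0 e)))))]
  have a7 : (R0.H.map q).hom ((R0.H.map m).hom ((R0.H.map i).hom ((R0.H.map g).hom
      ((R0.H.map q).hom (cls R0 e))))) = (R0.H.map q).hom (cls R0 e) := by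
    refine Eq.trans ?_ a6
    simp only [Functor.map_comp, ModuleCat.hom_comp, LinearMap.comp_apply]
  rw [a7, a2]

end

end Pool.Agent.L0h15.MT
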