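import Pool.Agent.L0h15.MT.Back

/-!
# Semisimplicity of pure Chow motives
-/

set_option autoImplicit false
set_option linter.unusedSectionVars false
set_option linter.unusedSimpArgs false
set_option backward.isDefEq.respectTransparency false
set_option backward.defeqAttrib.useBackward true

open CategoryTheory Limits MonoidalCategory Pretriangulated Triangulated ZeroObject

namespace Pool.Agent.L0h15.MT

open Pool.Agent.Y116.MT

universe v u w

open Functor.LaxMonoidal

section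

variable {C : Type u} [Category.{v} C] [Preadditive C] [HasZeroObject C] [HasShift C ℤ]
  [∀ n : ℤ, (shiftFunctor C n).Additive] [Pretriangulated C]
  [MonoidalCategory C] [SymmetricCategory C] [TensorTriangulated C]

section

variable {K : Type w} [Field K] [CharZero K] (R : Realisation C K) [Linear ℚ C]

/-- The scalar of the realisation of an endomorphism of the unit. -/
noncomputable def sc (c : 𝟙_ C ⟶ 𝟙_ C) : K := (ε R.H ≫ R.H.map c ≫ inv (ε R.H)).hom (1 : K)

lemma sc_add (c d : 𝟙_ C ⟶ 𝟙_ C) : sc R (c + d) = sc R c + sc R d := by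
  simp only [sc, Functor.map_add, Preadditive.add_comp, Preadditive.comp_add]
  rfl

lemma sc_zero : sc R (0 : 𝟙_ C ⟶ 𝟙_ C) = 0 := by
  simp only [sc, Functor.map_zero, zero_comp, comp_zero]
  rfl

lemma sc_one : sc R (𝟙 (𝟙_ C)) = 1 := by
  simp only [sc, CategoryTheory.Functor.map_id, Category.id_comp, IsIso.hom_inv_id]
  rfl

/-- `sc` as a homomorphism of groups -/
noncomputable def scHom : (𝟙_ C ⟶ 𝟙_ C) →+ K where
  toFun := sc R
  map_zero' := sc_zero R
  map_add' := sc_add R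

lemma sc_rat (q : ℚ) : sc R (q • 𝟙 (𝟙_ C)) = algebraMap ℚ K q := by
  have h1 : scHom R (q • 𝟙 (𝟙_ C)) = q • scHom R (𝟙 (𝟙_ C)) := map_rat_smul (scHom R) q _
  have h2 : scHom R (𝟙 (𝟙_ C)) = 1 := sc_one R
  rw [h2, Algebra.smul_def, mul_one] at h1
  exact h1

variable [MonoidalPreadditive C] [RightRigidCategory C] {R}

/-- The realisation as a homomorphism of rings. -/
noncomputable def rho (R : Realisation C K) (X : C) : End X →+* Module.End K (R.H.obj X) where
  toFun f := (R.H.map f).hom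
  map_one' := by
    change (R.H.map (𝟙 X)).hom = 1
    rw [CategoryTheory.Functor.map_id]
    rfl
  map_mul' f g := by
    change (R.H.map (g ≫ f)).hom = _
    rw [Functor.map_comp]
    rfl
  map_zero' := by
    change (R.H.map (0 : X ⟶ X)).hom = 0
    rw [Functor.map_zero]
    rfl
  map_add' f g := by
    change (R.H.map ((f : X ⟶ X) + g)).hom = _
    rw [Functor.map_add]
    rfl

/-- Regularity of the endomorphism ring of an object in degree zero if the trace form is not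
degenerate. -/
theorem end_regular (hU : ∀ c : 𝟙_ C ⟶ 𝟙_ C, ∃ q : ℚ, c = q • 𝟙 _) {X : C} (hX : R.Deg X 0)
    (hnd : ∀ a : X ⟶ X, a ≠ 0 → ∃ b : X ⟶ X, tr (a ≫ b) ≠ 0) (a : X ⟶ X) :
    ∃ b : X ⟶ X, a ≫ b ≫ a = a := by
  choose τ hτ using fun a : X ⟶ X => hU (tr a)
  have h1 : ∀ a : X ⟶ X, LinearMap.trace K (R.H.obj X) (rho R X a) = algebraMap ℚ K (τ a) := by
    intro a
    rw [← sc_rat R (τ a), ← hτ a]
    exact (H_trace hX a).symm
  have hinj : Function.Injective (algebraMap ℚ K) := (algebraMap ℚ K).injective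
  let τ' : End X →+ ℚ :=
    { toFun := τ
      map_zero' := by
        apply hinj
        rw [← h1 0, map_zero (algebraMap ℚ K)]
        exact (congrArg (LinearMap.trace K (R.H.obj X)) (map_zero (rho R X))).trans (map_zero _)
      map_add' := fun a b => by
        apply hinj
        rw [map_add, ← h1, ← h1, ← h1, ← map_add]
        exact congrArg (LinearMap.trace K (R.H.obj X)) (map_add (rho R X) a b) }
  have hne : ∀ a : X ⟶ X, tr a ≠ 0 → τ a ≠ 0 := by
    intro a ha h0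
    apply ha
    rw [hτ a, h0, zero_smul]
  obtain ⟨b, hb⟩ := regular_of_trace (A := End X) (rho R X) τ'.toRatLinearMap (fun a => h1 a)
    (fun a ha => by
      obtain ⟨b, hb⟩ := hnd a ha
      refine ⟨b, ?_⟩
      have h2 : τ (a ≫ b) ≠ 0 := hne _ hb
      have h3 : algebraMap ℚ K (τ (a ≫ b)) = algebraMap ℚ K (τ (b ≫ a)) := by
        rw [← h1, ← h1]
        have h4 : rho R X (a ≫ b) = rho R X b * rho R X a := (rho R X).map_mul' b a
        have h5 : rho R X (b ≫ a) = rho R X a * rho R X b := (rho R X).map_mul' a b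
        rw [h4, h5, LinearMap.trace_mul_comm]
      change τ (b ≫ a) ≠ 0
      rwa [← hinj h3]) a
  exact ⟨b, hb⟩

end

variable [MonoidalPreadditive C] [RightRigidCategory C] [IsTriangulated C] [Linear ℚ C]
  {Chow : ObjectProperty C} {T : C} {Λ : Type*} [Nonempty Λ] {E : Λ → Type w} [∀ l, Field (E l)]
  [∀ l, CharZero (E l)] {R : ∀ l, Realisation C (E l)} (h : IsChow Chow T R)
  (hN : NumericalEquivalence Chow R)
  (hU : ∀ c : 𝟙_ C ⟶ 𝟙_ C, ∃ q : ℚ, c = q • 𝟙 _)

include h hN hU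

lemma zr_end_regular {X : C} {i : ℤ} (hX : Chow (X⟦-i⟧)) (hX' : ∀ l, (R l).Deg X 0) (a : X ⟶ X) :
    ∃ b : X ⟶ X, a ≫ b ≫ a = a := by
  obtain ⟨l⟩ := ‹Nonempty Λ›
  refine end_regular (R := R l) hU (hX' l) (fun a ha => ?_) a
  obtain ⟨h1, h2⟩ := hom_data h hX hX' hX hX'
  have h3 : Pure Chow R 0 (X ⊗ (Xᘁ : C)) :=
    ⟨h.iso ((shiftFunctorZero' C (-(i - i)) (by simp)).app _) h1, h2⟩
  have h4 : nm a ≠ 0 := fun h0 => ha (eq_zero_of_nm a h0)
  obtain ⟨r, hr⟩ : ∃ r : X ⊗ (Xᘁ : C) ⟶ 𝟙_ C, nm a ≫ r ≠ 0 := by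
    by_contra hcon
    push Not at hcon
    exact h4 (hN _ h3 (nm a) hcon)
  obtain ⟨b, hb⟩ := exists_tr r
  exact ⟨b, by rwa [← hb a]⟩

lemma zr_regular {X Y : C} {i : ℤ} (hX : Chow (X⟦-i⟧)) (hX' : ∀ l, (R l).Deg X 0)
    (hY : Chow (Y⟦-i⟧)) (hY' : ∀ l, (R l).Deg Y 0) (f : X ⟶ Y) :
    ∃ g : Y ⟶ X, f ≫ g ≫ f = f := by
  have := preservesBinaryBiproducts_of_preservesBiproducts (shiftFunctor C (-i))
  have h1 : Chow ((X ⊞ Y)⟦-i⟧) := h.iso ((shiftFunctor C (-i)).mapBiprod X Y).symm (h.sum hX hY)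
  have h2 : ∀ l, (R l).Deg (X ⊞ Y) 0 := by
    intro l n hn
    exact hz2 (R l).H (binaryBiproductTriangle_distinguished X Y) n (hX' l n hn) (hY' l n hn)
  obtain ⟨b, hb⟩ := zr_end_regular h hN hU h1 h2 (biprod.fst ≫ f ≫ biprod.inr)
  refine ⟨biprod.inr ≫ b ≫ biprod.fst, ?_⟩
  have h3 := congrArg (fun k => biprod.inl ≫ k ≫ biprod.snd) hb
  simpa using h3

end

end Pool.Agent.L0h15.MT
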