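import Pool.Agent.L0h15.MT.Lef

/-!
# Sums of objects concentrated in one degree
-/

set_option autoImplicit false
set_option linter.unusedSectionVars false
set_option linter.unusedSimpArgs false
set_option backward.isDefEq.respectTransparency false
set_option backward.defeqAttrib.useBackward true

open CategoryTheory Limits MonoidalCategory Pretriangulated Triangulated ZeroObject

namespace Pool.Agent.L0h15.MT

open Pool.Agent.Y116.MT

universe v u w

section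

variable {C : Type u} [Category.{v} C] [Preadditive C] [HasZeroObject C] [HasShift C ℤ]
  [∀ n : ℤ, (shiftFunctor C n).Additive] [Pretriangulated C] {t : TStructure C}

/-- `X` is the sum of an object in degrees `≤ n` and an object in degrees `> n`. -/
def Spl (t : TStructure C) (X : C) : Prop :=
  ∀ n : ℤ, ∃ A B : C, Nonempty (X ≅ A ⊞ B) ∧ t.IsLE A n ∧ t.IsGE B (n + 1)

lemma isLE_zero {X : C} (h : IsZero X) (n : ℤ) : t.IsLE X n := by
  rw [t.isLE_iff_orthogonal n (n + 1) rfl]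
  intro Z f _
  exact h.eq_of_src _ _

lemma isGE_zero {X : C} (h : IsZero X) (n : ℤ) : t.IsGE X n := by
  rw [t.isGE_iff_orthogonal (n - 1) n (by omega)]
  intro Z f _
  exact h.eq_of_tgt _ _

lemma isLE_biprod {A B : C} {n : ℤ} (hA : t.IsLE A n) (hB : t.IsLE B n) : t.IsLE (A ⊞ B) n := by
  rw [t.isLE_iff_orthogonal n (n + 1) rfl]
  intro Z f hZ
  apply biprod.hom_ext'
  · rw [comp_zero]; exact t.zero_of_isLE_of_isGE _ n (n + 1) (by omega) hA hZ
  · rw [comp_zero]; exact t.zero_of_isLE_of_isGE _ n (n + 1) (by omega) hB hZ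

lemma isGE_biprod {A B : C} {n : ℤ} (hA : t.IsGE A n) (hB : t.IsGE B n) : t.IsGE (A ⊞ B) n := by
  rw [t.isGE_iff_orthogonal (n - 1) n (by omega)]
  intro Z f hZ
  apply biprod.hom_ext
  · rw [zero_comp]; exact t.zero_of_isLE_of_isGE _ (n - 1) n (by omega) hZ hA
  · rw [zero_comp]; exact t.zero_of_isLE_of_isGE _ (n - 1) n (by omega) hZ hB

/-- The interchange of sums. -/
noncomputable def biprodSwap (A B A' B' : C) : (A ⊞ B) ⊞ (A' ⊞ B') ≅ (A ⊞ A') ⊞ (B ⊞ B') where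
  hom := biprod.desc (biprod.map biprod.inl biprod.inl) (biprod.map biprod.inr biprod.inr)
  inv := biprod.desc (biprod.map biprod.inl biprod.inl) (biprod.map biprod.inr biprod.inr)
  hom_inv_id := by
    apply biprod.hom_ext' <;> apply biprod.hom_ext' <;> apply biprod.hom_ext <;>
      apply biprod.hom_ext <;> simp
  inv_hom_id := by
    apply biprod.hom_ext' <;> apply biprod.hom_ext' <;> apply biprod.hom_ext <;>
      apply biprod.hom_ext <;> simp

lemma Spl.sum {X Y Z : C} (hX : Spl t X) (hY : Spl t Y) (e : Z ≅ X ⊞ Y) : Spl t Z := by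
  intro n
  obtain ⟨A, B, ⟨e1⟩, hA, hB⟩ := hX n
  obtain ⟨A', B', ⟨e2⟩, hA', hB'⟩ := hY n
  exact ⟨A ⊞ A', B ⊞ B', ⟨e ≪≫ biprod.mapIso e1 e2 ≪≫ biprodSwap A B A' B'⟩,
    isLE_biprod hA hA', isGE_biprod hB hB'⟩

lemma Spl.pure {X : C} {n : ℤ} (h1 : t.IsLE X n) (h2 : t.IsGE X n) : Spl t X := by
  intro m
  by_cases hm : n ≤ m
  · refine ⟨X, 0, ⟨?_⟩, t.isLE_of_le X n m hm, isGE_zero (isZero_zero C) _⟩
    exact (isoBiprodZero (isZero_zero C))
  · refine ⟨0, X, ⟨?_⟩, isLE_zero (isZero_zero C) _, t.isGE_of_ge X (m + 1) n (by omega)⟩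
    exact (isoZeroBiprod (isZero_zero C))

/-- A retract of a split object is split, more precisely. -/
lemma Spl.retract_split {X P : C} {n : ℤ} {A B : C} (e : X ≅ A ⊞ B) (hA : t.IsLE A n)
    (hB : t.IsGE B (n + 1)) (i : P ⟶ X) (r : X ⟶ P) (hir : i ≫ r = 𝟙 P)
    {A' B' : C} {a : A' ⟶ P} {b : P ⟶ B'} {d : B' ⟶ A'⟦(1 : ℤ)⟧}
    (hT : Triangle.mk a b d ∈ distTriang C) (hA' : t.IsLE A' n) (hB' : t.IsGE B' (n + 1)) :
    d = 0 ∧ (∃ c : P ⟶ A', a ≫ c = 𝟙 A') ∧ ∃ s : B' ⟶ P, s ≫ b = 𝟙 B' := by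
  have hc : (biprod.inl ≫ e.inv ≫ r) ≫ b = 0 :=
    t.zero_of_isLE_of_isGE _ n (n + 1) (by omega) hA hB'
  obtain ⟨c, hc⟩ := ce2 hT _ hc
  have h1 : a ≫ i ≫ e.hom ≫ biprod.snd = 0 :=
    t.zero_of_isLE_of_isGE _ n (n + 1) (by omega) hA' hB
  have h2 : (a ≫ i ≫ e.hom ≫ biprod.fst ≫ c) ≫ a = a := by
    have h3 : biprod.fst ≫ biprod.inl + biprod.snd ≫ biprod.inr = 𝟙 (A ⊞ B) := biprod.total
    have h4 : (a ≫ i ≫ e.hom ≫ biprod.fst ≫ c) ≫ a =
        (a ≫ i ≫ e.hom) ≫ (biprod.fst ≫ biprod.inl) ≫ e.inv ≫ r := by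
      simp only [Category.assoc]
      rw [← hc]
    rw [h4, eq_sub_of_add_eq h3, Preadditive.sub_comp, Category.id_comp, Preadditive.comp_sub]
    have h5 : (a ≫ i ≫ e.hom) ≫ (biprod.snd ≫ biprod.inr) ≫ e.inv ≫ r = 0 := by
      have : (a ≫ i ≫ e.hom) ≫ (biprod.snd ≫ biprod.inr) ≫ e.inv ≫ r =
        (a ≫ i ≫ e.hom ≫ biprod.snd) ≫ biprod.inr ≫ e.inv ≫ r := by simp only [Category.assoc]
      rw [this, h1, zero_comp]
    rw [h5, sub_zero]
    simp only [Category.assoc, Iso.hom_inv_id_assoc, hir, Category.comp_id]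
  have h3 : a ≫ (i ≫ e.hom ≫ biprod.fst ≫ c) = 𝟙 A' := by
    have h4 : (a ≫ (i ≫ e.hom ≫ biprod.fst ≫ c) - 𝟙 A') ≫ a = 0 := by
      rw [Preadditive.sub_comp, h2, Category.id_comp, sub_self]
    have h5 : t.IsGE (B'⟦(-1 : ℤ)⟧) (n + 2) := t.isGE_shift B' (n + 1) (-1) (n + 2)
    obtain ⟨k, hk⟩ := Triangle.coyoneda_exact₂ _ (inv_rot_of_distTriang _ hT)
      (a ≫ (i ≫ e.hom ≫ biprod.fst ≫ c) - 𝟙 A') h4
    have h6 : k = 0 := t.zero_of_isLE_of_isGE _ n (n + 2) (by omega) hA' h5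
    rw [h6, zero_comp] at hk
    exact sub_eq_zero.1 hk
  have h4 : d = 0 := by
    have h5 := comp31 hT
    have h6 := congrArg (fun z => z⟦(1 : ℤ)⟧') h3
    simp only [Functor.map_comp, CategoryTheory.Functor.map_id] at h6
    rw [← Category.comp_id d, ← h6, ← Category.assoc, h5, zero_comp]
  exact ⟨h4, ⟨_, h3⟩, split3' hT h4⟩

lemma Spl.trunc {P : C} (h : ∃ (X : C) (i : P ⟶ X) (r : X ⟶ P), i ≫ r = 𝟙 P ∧ Spl t X) (n : ℤ) :
    ∃ (A' B' : C) (i : A' ⟶ P) (r : P ⟶ A') (j : B' ⟶ P) (s : P ⟶ B'), i ≫ r = 𝟙 A' ∧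
      j ≫ s = 𝟙 B' ∧ t.IsLE A' n ∧ t.IsGE B' (n + 1) ∧ Nonempty (P ≅ A' ⊞ B') := by
  obtain ⟨X, i, r, hir, hX⟩ := h
  obtain ⟨A, B, ⟨e⟩, hA, hB⟩ := hX n
  obtain ⟨A', B', hA', hB', a, b, d, hT⟩ := t.exists_triangle P n (n + 1) rfl
  obtain ⟨h1, ⟨c, h2⟩, ⟨s, h3⟩⟩ := Spl.retract_split e hA hB i r hir hT ⟨hA'⟩ ⟨hB'⟩
  subst h1
  obtain ⟨e', -⟩ := exists_iso_binaryBiproduct_of_distTriang _ hT rfl
  exact ⟨A', B', a, c, s, b, h2, h3, ⟨hA'⟩, ⟨hB'⟩, ⟨e'⟩⟩

end

section Cons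

variable {C : Type u} [Category.{v} C] [Preadditive C] [HasFiniteBiproducts C]
  [HasBinaryBiproducts C]

/-- Adding one summand. -/
noncomputable def consIso {n : ℕ} (A : C) (Q : Fin n → C) :
    A ⊞ (⨁ Q) ≅ ⨁ (Fin.cons A Q : Fin (n + 1) → C) where
  hom := biprod.desc (biproduct.ι (Fin.cons A Q : Fin (n + 1) → C) 0)
    (biproduct.desc fun j => biproduct.ι (Fin.cons A Q : Fin (n + 1) → C) j.succ)
  inv := biproduct.desc fun j => Fin.cases
    (motive := fun j => (Fin.cons A Q : Fin (n + 1) → C) j ⟶ A ⊞ (⨁ Q))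
    biprod.inl (fun j => biproduct.ι Q j ≫ biprod.inr) j
  hom_inv_id := by
    apply biprod.hom_ext'
    · rw [biprod.inl_desc_assoc, biproduct.ι_desc, Category.comp_id]
      rfl
    · rw [biprod.inr_desc_assoc, Category.comp_id]
      apply biproduct.hom_ext'
      intro j
      rw [biproduct.ι_desc_assoc, biproduct.ι_desc]
      rfl
  inv_hom_id := by
    apply biproduct.hom_ext'
    intro j
    rw [biproduct.ι_desc_assoc, Category.comp_id]
    refine Fin.cases ?_ (fun j => ?_) j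
    · exact biprod.inl_desc _ _
    · change (biproduct.ι Q j ≫ biprod.inr) ≫ _ = _
      rw [Category.assoc, biprod.inr_desc, biproduct.ι_desc]

end Cons

section

variable {C : Type u} [Category.{v} C] [Preadditive C] [HasZeroObject C] [HasShift C ℤ]
  [∀ n : ℤ, (shiftFunctor C n).Additive] [Pretriangulated C] [MonoidalCategory C]
  [SymmetricCategory C] [TensorTriangulated C] {t : TStructure C}

/-- A retract of a split object in the degrees `a, …, a + n` is a finite direct sum of objects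
concentrated in one degree. -/
lemma Spl.decompose {P : ObjectProperty C}
    (hP : ∀ {X Y : C} (i : Y ⟶ X) (r : X ⟶ Y), i ≫ r = 𝟙 Y → P X → P Y) (n : ℕ) :
    ∀ (X : C) (a : ℤ), P X → (∃ (X' : C) (i : X ⟶ X') (r : X' ⟶ X), i ≫ r = 𝟙 X ∧ Spl t X') →
      t.IsGE X a → t.IsLE X (a + n) →
      ∃ (m : ℕ) (d : Fin m → ℤ) (Q : Fin m → C),
        (∀ j, P (Q j) ∧ t.IsLE (Q j) (d j) ∧ t.IsGE (Q j) (d j)) ∧ Nonempty (X ≅ ⨁ Q) := by
  induction n with
  | zero =>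
    intro X a hX _ h1 h2
    refine ⟨1, fun _ => a, fun _ => X, fun j => ⟨hX, by simpa using h2, h1⟩, ⟨?_⟩⟩
    exact (biproductUniqueIso (fun _ : Fin 1 => X)).symm
  | succ n ih =>
    intro X a hX hX' h1 h2
    obtain ⟨A, B, i, r, j, s, hir, hjs, hA, hB, ⟨e⟩⟩ := Spl.trunc hX' a
    have hAg : t.IsGE A a := isGE_retract h1 i r hir
    have hBl : t.IsLE B (a + 1 + n) := by
      have h3 := isLE_retract h2 j s hjs
      rwa [show a + ((n + 1 : ℕ) : ℤ) = a + 1 + n by push_cast; ring] at h3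
    obtain ⟨X', i', r', hir', hX''⟩ := hX'
    obtain ⟨m, d, Q, hQ, ⟨e'⟩⟩ := ih B (a + 1) (hP j s hjs hX)
      ⟨X', j ≫ i', r' ≫ s, by rw [Category.assoc, reassoc_of% hir', hjs], hX''⟩ hB hBl
    have hbb : HasBinaryBiproducts C := inferInstance
    refine ⟨m + 1, Fin.cons a d, Fin.cons A Q, ?_, ⟨?_⟩⟩
    · intro k
      refine Fin.cases ?_ (fun k => ?_) k
      · exact ⟨hP i r hir hX, hA, hAg⟩
      · exact hQ k
    · exact e ≪≫ biprod.mapIso (Iso.refl _) e' ≪≫ consIso A Q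

end

section

variable {C : Type u} [Category.{v} C] [Preadditive C] [HasZeroObject C] [HasShift C ℤ]
  [∀ n : ℤ, (shiftFunctor C n).Additive] [Pretriangulated C] [IsTriangulated C]
  [MonoidalCategory C] [MonoidalPreadditive C] [SymmetricCategory C] [TensorTriangulated C]
  [RightRigidCategory C] {t : TStructure C} {P : ObjectProperty C}

lemma Dec.spl {X : C} (h : Dec t P X) : Spl t X := by
  induction h with
  | zero X h => exact Spl.pure (n := 0) (isLE_zero h _) (isGE_zero h _)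
  | pure X n _ h1 h2 => exact Spl.pure h1 h2
  | sum X Y Z e _ _ h1 h2 =>
    obtain ⟨e⟩ := e
    exact Spl.sum h1 h2 e

end

end Pool.Agent.L0h15.MT
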