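import Pool.Agent.L0h15.MT.One

/-!
# The t-structure defined by a realisation
-/

set_option autoImplicit false
set_option linter.unusedSectionVars false
set_option linter.unusedSimpArgs false
set_option backward.isDefEq.respectTransparency false
set_option backward.defeqAttrib.useBackward true

open CategoryTheory Limits MonoidalCategory Pretriangulated Triangulated ZeroObject

namespace Pool.Agent.L0h15.MT

open Pool.Agent.Y116.MT

universe v u w

section

variable {C : Type u} [Category.{v} C] [Preadditive C] [HasZeroObject C] [HasShift C ℤ]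
  [∀ n : ℤ, (shiftFunctor C n).Additive] [Pretriangulated C]
  [MonoidalCategory C] [SymmetricCategory C] [TensorTriangulated C]
  {K : Type w} [Field K]

/-- The cohomology of `X` vanishes in the degrees `> n`. -/
def CohLE (R : Realisation C K) (X : C) (n : ℤ) : Prop :=
  ∀ i : ℤ, n < i → IsZero (R.H.obj (X⟦i⟧))

/-- The cohomology of `X` vanishes in the degrees `< n`. -/
def CohGE (R : Realisation C K) (X : C) (n : ℤ) : Prop :=
  ∀ i : ℤ, i < n → IsZero (R.H.obj (X⟦i⟧))

/-- Every object is an extension of an object with cohomology in degrees `≥ 1` by an object with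
cohomology in degrees `≤ 0`, and there are no non zero morphisms from the latter to the former. -/
structure SplitsDeg (R : Realisation C K) : Prop where
  orth {X Y : C} (f : X ⟶ Y) : CohLE R X 0 → CohGE R Y 1 → f = 0
  trunc (X : C) : ∃ (A B : C) (f : A ⟶ X) (g : X ⟶ B) (h : B ⟶ A⟦(1 : ℤ)⟧),
    Triangle.mk f g h ∈ distTriang C ∧ CohLE R A 0 ∧ CohGE R B 1

variable {R : Realisation C K}

lemma CohLE.iso {X Y : C} {n : ℤ} (h : CohLE R X n) (e : X ≅ Y) : CohLE R Y n := fun i hi =>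
  (h i hi).of_iso (R.H.mapIso ((shiftFunctor C i).mapIso e.symm))

lemma CohGE.iso {X Y : C} {n : ℤ} (h : CohGE R X n) (e : X ≅ Y) : CohGE R Y n := fun i hi =>
  (h i hi).of_iso (R.H.mapIso ((shiftFunctor C i).mapIso e.symm))

lemma CohLE.shift {X : C} {n : ℤ} (h : CohLE R X n) (a m : ℤ) (ha : a + m = n) :
    CohLE R (X⟦a⟧) m := fun i hi =>
  (h (a + i) (by omega)).of_iso (R.H.mapIso ((shiftFunctorAdd C a i).app X).symm)

lemma CohGE.shift {X : C} {n : ℤ} (h : CohGE R X n) (a m : ℤ) (ha : a + m = n) :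
    CohGE R (X⟦a⟧) m := fun i hi =>
  (h (a + i) (by omega)).of_iso (R.H.mapIso ((shiftFunctorAdd C a i).app X).symm)

lemma CohLE.mono {X : C} {n m : ℤ} (h : CohLE R X n) (hnm : n ≤ m) : CohLE R X m := fun i hi =>
  h i (by omega)

lemma CohGE.mono {X : C} {n m : ℤ} (h : CohGE R X n) (hnm : m ≤ n) : CohGE R X m := fun i hi =>
  h i (by omega)

lemma isZero_H_retract {X Y : C} (i : Y ⟶ X) (r : X ⟶ Y) (hir : i ≫ r = 𝟙 Y) (n : ℤ)
    (h : IsZero (R.H.obj (X⟦n⟧))) : IsZero (R.H.obj (Y⟦n⟧)) := by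
  rw [IsZero.iff_id_eq_zero]
  have h1 : 𝟙 (R.H.obj (Y⟦n⟧)) = R.H.map (i⟦n⟧') ≫ R.H.map (r⟦n⟧') := by
    rw [← Functor.map_comp, ← Functor.map_comp, hir, CategoryTheory.Functor.map_id,
      CategoryTheory.Functor.map_id]
  rw [h1, h.eq_of_tgt (R.H.map (i⟦n⟧')) 0, zero_comp]

lemma CohLE.retract {X Y : C} {n : ℤ} (h : CohLE R X n) (i : Y ⟶ X) (r : X ⟶ Y)
    (hir : i ≫ r = 𝟙 Y) : CohLE R Y n := fun j hj => isZero_H_retract i r hir j (h j hj)

lemma CohGE.retract {X Y : C} {n : ℤ} (h : CohGE R X n) (i : Y ⟶ X) (r : X ⟶ Y)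
    (hir : i ≫ r = 𝟙 Y) : CohGE R Y n := fun j hj => isZero_H_retract i r hir j (h j hj)

/-- Orthogonality in arbitrary degrees. -/
lemma SplitsDeg.orth' (h : SplitsDeg R) {X Y : C} (f : X ⟶ Y) {n m : ℤ} (hX : CohLE R X n)
    (hY : CohGE R Y m) (hnm : n < m) : f = 0 := by
  apply (shiftFunctor C n).map_injective
  rw [Functor.map_zero]
  exact h.orth _ (hX.shift n 0 (by omega)) ((hY.shift n (m - n) (by omega)).mono (by omega))

/-- The t-structure defined by a realisation. -/
def SplitsDeg.tStructure (h : SplitsDeg R) : TStructure C where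
  le n X := CohLE R X n
  ge n X := CohGE R X n
  le_isClosedUnderIsomorphisms n := ⟨fun e hX => hX.iso e⟩
  ge_isClosedUnderIsomorphisms n := ⟨fun e hX => hX.iso e⟩
  le_shift n a n' hn X hX := CohLE.shift hX a n' hn
  ge_shift n a n' hn X hX := CohGE.shift hX a n' hn
  zero' X Y f hX hY := h.orth f hX hY
  le_zero_le X hX := CohLE.mono hX (by omega)
  ge_one_le X hX := CohGE.mono hX (by omega)
  exists_triangle_zero_one X := by
    obtain ⟨A, B, f, g, k, hT, hA, hB⟩ := h.trunc X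
    exact ⟨A, B, hA, hB, f, g, k, hT⟩

lemma tensor_isZero {X Y : C} (n : ℤ)
    (h : ∀ i : ℤ, IsZero (R.H.obj (X⟦i⟧)) ∨ IsZero (R.H.obj (Y⟦n - i⟧))) :
    IsZero (R.H.obj ((X ⊗ Y)⟦n⟧)) := by
  have h0 : IsZero (R.H.obj (X ⊗ Y⟦n⟧)) := by
    rw [ModuleCat.isZero_iff_subsingleton]
    have h1 : ∀ i : ℤ, Subsingleton (R.H.obj (X⟦i⟧) ⊗ R.H.obj (Y⟦n⟧⟦-i⟧) : ModuleCat.{w} K) := by
      intro i
      rcases h i with h' | h'
      · exact tensor_subsingleton_left h'
      · apply tensor_subsingleton_right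
        exact h'.of_iso (R.H.mapIso ((shiftFunctorAdd' C n (-i) (n - i) (by omega)).app Y).symm)
    have h2 : Subsingleton (DirectSum ℤ (fun i : ℤ =>
        (R.H.obj (X⟦i⟧) ⊗ R.H.obj (Y⟦n⟧⟦-i⟧) : ModuleCat.{w} K))) := by
      constructor
      intro a b
      apply DFinsupp.ext
      intro i
      exact Subsingleton.elim _ _
    exact (R.kunneth X (Y⟦n⟧)).2.subsingleton
  exact h0.of_iso (R.H.mapIso (rShift X Y n).symm)

lemma SplitsDeg.nondeg (h : SplitsDeg R) {X : C} (hX : ∀ i : ℤ, IsZero (R.H.obj (X⟦i⟧))) :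
    IsZero X := by
  rw [IsZero.iff_id_eq_zero]
  exact h.orth _ (fun i _ => hX i) (fun i _ => hX i)

/-- The t-structure defined by a realisation is motivic. -/
theorem SplitsDeg.motivic (h : SplitsDeg R) : IsMotivic h.tStructure (fun _ : Unit => R) where
  nondeg_le X hX := h.nondeg fun i => hX (i - 1) i (by omega)
  nondeg_ge X hX := h.nondeg fun i => hX (i + 1) i (by omega)
  tensor_le X Y hX hY := fun n hn => tensor_isZero n fun i => by
    by_cases hi : 0 < i
    · exact Or.inl (hX i hi)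
    · exact Or.inr (hY (n - i) (by omega))
  tensor_ge X Y hX hY := fun n hn => tensor_isZero n fun i => by
    by_cases hi : i < 0
    · exact Or.inl (hX i hi)
    · exact Or.inr (hY (n - i) (by omega))
  exact_le _ X hX := hX
  exact_ge _ X hX := hX

/-- The retract of an object with a truncation has a truncation. -/
lemma trunc_retract [IsIdempotentComplete C]
    (ho : ∀ {X Y : C} (f : X ⟶ Y) (n m : ℤ), CohLE R X n → CohGE R Y m → n < m → f = 0)
    {X Y : C} (i : X ⟶ Y) (r : Y ⟶ X) (hir : i ≫ r = 𝟙 X)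
    (hY : ∃ (A B : C) (f : A ⟶ Y) (g : Y ⟶ B) (h : B ⟶ A⟦(1 : ℤ)⟧),
      Triangle.mk f g h ∈ distTriang C ∧ CohLE R A 0 ∧ CohGE R B 1) :
    ∃ (A B : C) (f : A ⟶ X) (g : X ⟶ B) (h : B ⟶ A⟦(1 : ℤ)⟧),
      Triangle.mk f g h ∈ distTriang C ∧ CohLE R A 0 ∧ CohGE R B 1 := by
  obtain ⟨A, B, a, b, d, hT, hA, hB⟩ := hY
  -- uniqueness of factorisations through `a`
  have huniq : ∀ {Z : C} (x y : Z ⟶ A), CohLE R Z 0 → x ≫ a = y ≫ a → x = y := by
    intro Z x y hZ hxy
    have h1 : (x - y) ≫ a = 0 := by rw [Preadditive.sub_comp, hxy, sub_self]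
    obtain ⟨k, hk⟩ := Triangle.coyoneda_exact₂ _ (inv_rot_of_distTriang _ hT) (x - y) h1
    have h2 : k = 0 := ho k 0 2 hZ (hB.shift (-1) 2 (by omega)) (by omega)
    rw [h2, zero_comp] at hk
    exact sub_eq_zero.1 hk
  have hex : ∀ {Z : C} (x : Z ⟶ Y), CohLE R Z 0 → ∃ y : Z ⟶ A, x = y ≫ a := by
    intro Z x hZ
    exact ce2 hT x (ho _ 0 1 hZ hB (by omega))
  set e : Y ⟶ Y := r ≫ i with he
  have hee : e ≫ e = e := by rw [he, Category.assoc, reassoc_of% hir]
  obtain ⟨eA, heA⟩ := hex (a ≫ e) hA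
  have heA2 : eA ≫ eA = eA := by
    apply huniq _ _ hA
    rw [Category.assoc, ← heA, ← Category.assoc, ← heA, Category.assoc, hee]
  obtain ⟨A', iA, rA, h1, h2⟩ := IsIdempotentComplete.idempotents_split A eA heA2
  -- `A'` is the truncation of `X`
  obtain ⟨B', g', d', hT'⟩ := distinguished_cocone_triangle (iA ≫ a ≫ r)
  have hA' : CohLE R A' 0 := hA.retract iA rA h1
  refine ⟨A', B', _, g', d', hT', hA', ?_⟩
  -- the maps of triangles
  obtain ⟨β, hβ1, hβ2⟩ := complete_distinguished_triangle_morphism _ _ hT' hT iA i (by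
    simp only [Triangle.mk_mor₁, Triangle.mk_obj₁, Triangle.mk_obj₂, Category.assoc]
    rw [← he, heA, ← h2, Category.assoc, reassoc_of% h1])
  obtain ⟨γ, hγ1, hγ2⟩ := complete_distinguished_triangle_morphism _ _ hT hT' rA r (by
    simp only [Triangle.mk_mor₁, Triangle.mk_obj₁, Triangle.mk_obj₂, Category.assoc]
    rw [← Category.assoc, h2, ← Category.assoc, ← heA, he]
    simp only [Category.assoc]
    rw [hir, Category.comp_id])
  have h3 : IsIso (β ≫ γ) := by
    let φ : Triangle.mk (iA ≫ a ≫ r) g' d' ⟶ Triangle.mk (iA ≫ a ≫ r) g' d' :=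
      { hom₁ := iA ≫ rA
        hom₂ := i ≫ r
        hom₃ := β ≫ γ
        comm₁ := by
          simp only [h1, hir, Triangle.mk_mor₁]
          exact (Category.comp_id _).trans (Category.id_comp _).symm
        comm₂ := by
          have e1 := hβ1
          have e2 := hγ1
          simp only [Triangle.mk_mor₂, Triangle.mk_obj₂, Triangle.mk_obj₃] at e1 e2 ⊢
          rw [← Category.assoc, e1, Category.assoc, e2, ← Category.assoc]
        comm₃ := by
          have e1 := hβ2
          have e2 := hγ2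
          simp only [Triangle.mk_mor₃, Triangle.mk_obj₁, Triangle.mk_obj₃] at e1 e2 ⊢
          rw [Functor.map_comp, ← Category.assoc, e1, Category.assoc, e2, ← Category.assoc] }
    have i1 : IsIso φ.hom₁ := by
      change IsIso (iA ≫ rA)
      rw [h1]; infer_instance
    have i2 : IsIso φ.hom₂ := by
      change IsIso (i ≫ r)
      rw [hir]; infer_instance
    exact isIso₃_of_isIso₁₂ φ hT' hT' i1 i2
  exact hB.retract β (γ ≫ inv (β ≫ γ)) (by rw [← Category.assoc, IsIso.hom_inv_id])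

end

end Pool.Agent.L0h15.MT
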