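import Pool.Agent.L0h15.MT.FamK

/-!
# Systems of categories of motives

Bundled categories of constructible motives, families of motives over a smooth variety, and
extensions of the base field: definitions.
-/

set_option autoImplicit false
set_option linter.checkUnivs false

open CategoryTheory Limits MonoidalCategory Pretriangulated Triangulated

namespace Pool.Agent.L0h15.MT

open Pool.Agent.Y116.MT

universe v u w

open Functor.LaxMonoidal

/-- Every endomorphism of the unit object is a rational number. -/
def UnitEnd (C : Type u) [Category.{v} C] [Preadditive C] [MonoidalCategory C] [Linear ℚ C] :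
    Prop :=
  ∀ c : 𝟙_ C ⟶ 𝟙_ C, ∃ q : ℚ, c = q • 𝟙 _

/-- A category of constructible motives with rational coefficients with one realisation `R`, its
class of Chow motives and its Lefschetz object `T`: a rigid idempotent complete `ℚ`-linear tensor
triangulated category with `End(𝟙) = ℚ`. -/
structure Mot (K : Type w) [Field K] where
  C : Type u
  [cat : Category.{v} C]
  [preadditive : Preadditive C]
  [zero : HasZeroObject C]
  [shift : HasShift C ℤ]
  [additive : ∀ n : ℤ, (shiftFunctor C n).Additive]
  [pretri : Pretriangulated C]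
  [tri : IsTriangulated C]
  [mon : MonoidalCategory C]
  [monpre : MonoidalPreadditive C]
  [sym : SymmetricCategory C]
  [tt : TensorTriangulated C]
  [rigid : RightRigidCategory C]
  [lin : Linear ℚ C]
  [idem : IsIdempotentComplete C]
  R : Realisation C K
  Chow : ObjectProperty C
  T : C
  chow : IsChow Chow T (fun _ : Unit => R)
  unit : UnitEnd C

attribute [instance] Mot.cat Mot.preadditive Mot.zero Mot.shift Mot.additive Mot.pretri Mot.tri
  Mot.mon Mot.monpre Mot.sym Mot.tt Mot.rigid Mot.lin Mot.idem

variable {K : Type w} [Field K]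

/-- The functor `H^i`. -/
noncomputable def Mot.coh (A : Mot.{v, u} K) (i : ℤ) : A.C ⥤ ModuleCat.{w} K :=
  shiftFunctor A.C i ⋙ A.R.H

/-- The group `H^0(X)`. -/
noncomputable def Mot.h0 (A : Mot.{v, u} K) (X : A.C) : ModuleCat.{w} K := A.R.H.obj X

/-- The map induced by `f` on `H^0`. -/
noncomputable def Mot.act (A : Mot.{v, u} K) {X Y : A.C} (f : X ⟶ Y) (x : A.h0 X) : A.h0 Y :=
  (A.R.H.map f).hom x

/-- The dual. -/
def Mot.dual (A : Mot.{v, u} K) (P : A.C) : A.C := Pᘁ

/-- The internal endomorphisms `P ⊗ P^∨`. -/
def Mot.ad (A : Mot.{v, u} K) (P : A.C) : A.C := P ⊗ (Pᘁ : A.C)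

/-- An endomorphism which is zero or the identity on each cohomology group. -/
def Mot.Projects (A : Mot.{v, u} K) {X : A.C} (e : X ⟶ X) : Prop :=
  ∀ i : ℤ, (A.coh i).map e = 0 ∨ (A.coh i).map e = 𝟙 _

/-- The cohomology of `X` is concentrated in degree `i`. -/
def Mot.deg (A : Mot.{v, u} K) (X : A.C) (i : ℤ) : Prop :=
  ∀ j : ℤ, j ≠ i → IsZero ((A.coh j).obj X)

/-- An exact tensor functor between categories of constructible motives, compatible with the
realisations and with Chow motives (for example the pull-back of motives along a morphism of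
schemes). -/
structure MFun (A B : Mot.{v, u} K) where
  F : A.C ⥤ B.C
  [monoidal : F.Monoidal]
  [additive : F.Additive]
  [commShift : F.CommShift ℤ]
  [tri : F.IsTriangulated]
  compare : A.R.H ≅ F ⋙ B.R.H
  chow (X : A.C) : A.Chow X → B.Chow (F.obj X)

attribute [instance] MFun.monoidal MFun.additive MFun.commShift MFun.tri

/-- The class of a morphism from the unit object. -/
noncomputable def Mot.cls (B : Mot.{v, u} K) {X : B.C} (f : 𝟙_ B.C ⟶ X) : B.h0 X :=
  MT.cls B.R f

/-- The pairing of `H^0(P_s)` and `H^0(P^∨_s)`, for the fibre functor `s`. -/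
noncomputable def MFun.pairing {L B : Mot.{v, u} K} (s : MFun L B) (P : L.C)
    (x : B.h0 (s.F.obj P)) (y : B.h0 (s.F.obj (L.dual P))) : B.h0 (𝟙_ B.C) :=
  pair B.R (prg s.F P) x y

/-- The name in `(P ⊗ P^∨)_s` of an endomorphism of `P_s`. -/
noncomputable def MFun.name {L B : Mot.{v, u} K} (s : MFun L B) {P : L.C}
    (e : s.F.obj P ⟶ s.F.obj P) : 𝟙_ B.C ⟶ s.F.obj (L.ad P) :=
  nm' s.F P e

variable {B : Mot.{v, u} K}

/-- The data of a family of motives over a smooth connected variety `U` over the algebraically
closed field `k`, where `B` is the category of constructible motives over `k`: the category `L` of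
lisse motives on `U` (the thick subcategory of the constructible motives over `U` generated by the
Chow motives over `U`, i.e. by the twists of the motives of the smooth projective `U`-schemes; its
realisation is the stalk of the `ℓ`-adic realisation at the point `s` of `U(k)`), the fibre functor
`s`, the direct image `π` along `U ⟶ Spec k`, the restriction `ρ` from `U` to the point `s`, and the
unit `υ : 𝟙 ⟶ π 𝟙` of the adjunction. -/
structure FamilyData (B : Mot.{v, u} K) where
  L : Mot.{v, u} K
  s : MFun L B
  π : L.C ⥤ B.C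
  [πadd : π.Additive]
  ρ : π ⟶ s.F
  υ : 𝟙_ B.C ⟶ π.obj (𝟙_ L.C)

attribute [instance] FamilyData.πadd

namespace FamilyData

variable (D : FamilyData B)

/-- The restriction `H^0(U, X) ⟶ H^0(X_s)` to the fibre at `s`. -/
noncomputable def res (X : D.L.C) (x : B.h0 (D.π.obj X)) : B.h0 (D.s.F.obj X) :=
  B.act (D.ρ.app X) x

/-- `Hom(𝟙, X) = Hom(𝟙, π X)`, and restriction maps the unit section to the unit section. -/
def Adjoint : Prop :=
  D.υ ≫ D.ρ.app (𝟙_ D.L.C) = ε D.s.F ∧
    ∀ X : D.L.C, Function.Bijective fun f : 𝟙_ D.L.C ⟶ X => D.υ ≫ D.π.map f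

/-- If the realisation of `X` is a local system placed in degree `i`, then `H^j(U, X) = 0` for
`j < i` and the restriction `H^i(U, X) ⟶ H^i(X_s)` is injective. -/
def Low : Prop :=
  ∀ (X : D.L.C) (i : ℤ), D.L.deg X i →
    (∀ j : ℤ, j < i → IsZero ((B.coh j).obj (D.π.obj X))) ∧ Mono ((B.coh i).map (D.ρ.app X))

/-- Semisimplicity (Deligne): for a Chow motive `P` over `U` of degree `0` the monodromy invariants
in the stalks at `s` of `P` and of its dual, which are the images of the restriction maps, are in
duality. -/
def Semisimple : Prop :=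
  ∀ P : D.L.C, D.L.Chow P → D.L.deg P 0 → ∀ x, D.res P x ≠ 0 →
    ∃ y, D.s.pairing P (D.res P x) (D.res (D.L.dual P) y) ≠ 0

/-- The theorem of the fixed part (Deligne): for a Chow motive `P` over `U` there is a Chow motive
`N` over `k` (the motive of a smooth compactification) with a morphism `N ⟶ π P` such that the
images of `H^0(N)` and of `H^0(U, P)` in `H^0(P_s)` are the same. -/
def FixedPart : Prop :=
  ∀ P : D.L.C, D.L.Chow P → ∃ (N : B.C) (ν : N ⟶ D.π.obj P), B.Chow N ∧
    ∀ y, ∃ z, D.res P (B.act ν z) = D.res P y

/-- Nilpotence for the Leray filtration: if an endomorphism `g` of the Chow motive `P` over `U` is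
zero on the cohomology of the fibre, then there is `n` such that `g ^ n` is zero on the cohomology of
`U` with values in `P ⊗ Q`, for all `Q`. -/
def Leray : Prop :=
  ∀ (P : D.L.C) (g : P ⟶ P), D.L.Chow P → (∀ j : ℤ, (D.L.coh j).map g = 0) →
    ∃ n : ℕ, ∀ (Q : D.L.C) (j : ℤ), (B.coh j).map (D.π.map ((pwr g n) ▷ Q)) = 0

/-- Degeneration of the Leray spectral sequence (Deligne), for the Künneth projectors: if an
endomorphism `e` of the fibre `P_s` of a Chow motive `P` over `U` is zero or the identity on each
cohomology group, so that its class in `H^0((P ⊗ P^∨)_s)` is invariant under the monodromy, then this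
class is the restriction of a class in `H^0(U, P ⊗ P^∨)`. -/
def Degenerate : Prop :=
  ∀ (P : D.L.C) (e : D.s.F.obj P ⟶ D.s.F.obj P), D.L.Chow P → B.Projects e →
    ∃ x, D.res (D.L.ad P) x = B.cls (D.s.name e)

end FamilyData

/-- The properties of a family of motives over a smooth connected variety. -/
structure IsFamily (D : FamilyData B) : Prop where
  adjoint : D.Adjoint
  low : D.Low
  semisimple : D.Semisimple
  fixedPart : D.FixedPart
  leray : D.Leray
  degenerate : D.Degenerate

/-- The morphism `f` is isomorphic to the image of the morphism `f'` under the functor `g`. -/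
def Lifts {A B : Mot.{v, u} K} (g : MFun A B) {X' Y' : A.C} (f' : X' ⟶ Y') {X Y : B.C}
    (f : X ⟶ Y) : Prop :=
  ∃ (e : g.F.obj X' ≅ X) (e' : g.F.obj Y' ≅ Y), g.F.map f' ≫ e'.hom = e.hom ≫ f

/-- The properties used of a finite extension of fields, `A` and `B` being the categories of
constructible motives over the small and the large field: pull-back `up` and direct image `down`,
with natural direct sum decompositions, and the stalk of the direct image is a direct sum of copies
of the stalk. -/
structure FiniteExt (A B : Mot.{v, u} K) where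
  up : MFun A B
  down : B.C ⥤ A.C
  [additive : down.Additive]
  [commShift : down.CommShift ℤ]
  [tri : down.IsTriangulated]
  i : 𝟭 A.C ⟶ up.F ⋙ down
  r : up.F ⋙ down ⟶ 𝟭 A.C
  ir : i ≫ r = 𝟙 _
  i' : 𝟭 B.C ⟶ down ⋙ up.F
  r' : down ⋙ up.F ⟶ 𝟭 B.C
  ir' : i' ≫ r' = 𝟙 _
  coh (Y : B.C) (n : ℤ) : IsZero ((B.coh n).obj Y) ↔ IsZero ((A.coh n).obj (down.obj Y))

attribute [instance] FiniteExt.additive FiniteExt.commShift FiniteExt.tri

/-- The properties used of an algebraic extension, `A` and `B` being the categories of
constructible motives over the small and the large field: pull-back is faithful and every morphism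
is defined over a finite subextension. -/
structure AlgebraicExt (A B : Mot.{v, u} K) where
  b : MFun A B
  faithful : b.F.Faithful
  lift {X Y : B.C} (f : X ⟶ Y) : ∃ (A' : Mot.{v, u} K) (_ : FiniteExt A A') (g : MFun A' B)
    (X' Y' : A'.C) (f' : X' ⟶ Y'), Lifts g f' f
  lift' {X : B.C} {Y : A.C} (f : X ⟶ b.F.obj Y) : ∃ (A' : Mot.{v, u} K) (p : FiniteExt A A')
    (g : MFun A' B) (X' : A'.C) (f' : X' ⟶ p.up.F.obj Y), Lifts g f' f

/-- The properties used of an extension of algebraically closed fields `k` and `Ω`, `A` and `B` being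
the categories of constructible motives: pull-back is faithful and every morphism over `Ω` is
defined over a smooth connected variety `U` over `k`, with a geometric generic point
`Spec Ω ⟶ U`. -/
structure ClosedExt (A B : Mot.{v, u} K) where
  b : MFun A B
  faithful : b.F.Faithful
  lift {X Y : B.C} (f : X ⟶ Y) : ∃ (D : FamilyData A) (g : MFun D.L B)
    (X' Y' : D.L.C) (f' : X' ⟶ Y'), IsFamily D ∧ Lifts g f' f
  lift' {X : B.C} {Y : A.C} (f : X ⟶ b.F.obj Y) : ∃ (D : FamilyData A) (g : MFun D.L B)
    (X' Y' : D.L.C) (f' : X' ⟶ Y'), IsFamily D ∧ Lifts g f' f ∧ Nonempty (D.s.F.obj Y' ≅ Y)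

/-- The categories `M k` of constructible motives over all fields `k` of characteristic `p`, with
their realisations `R k l'`, where `l` is one fixed index. -/
structure MotSystem (p : ℕ) {Λ : Type} (E : Λ → Type w) [∀ l, Field (E l)] (l : Λ) where
  M (k : Type) [Field k] [CharP k p] : Mot.{v, u} (E l)
  R (k : Type) [Field k] [CharP k p] (l' : Λ) : Realisation (M k).C (E l')
  eq (k : Type) [Field k] [CharP k p] : R k l = (M k).R
  chow (k : Type) [Field k] [CharP k p] : IsChow (M k).Chow (M k).T (R k)
  betti (k : Type) [Field k] [CharP k p] : BettiIndependent (M k).Chow (M k).T (R k)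
  algebraic (k Ω : Type) [Field k] [Field Ω] [CharP k p] [CharP Ω p] [Algebra k Ω]
    [IsAlgClosure k Ω] : Nonempty (AlgebraicExt (M k) (M Ω))
  closed (k Ω : Type) [Field k] [Field Ω] [CharP k p] [CharP Ω p] [Algebra k Ω]
    [IsAlgClosed k] [IsAlgClosed Ω] : Nonempty (ClosedExt (M k) (M Ω))

/-- Existence of a motivic t-structure over `k`: a non-degenerate t-structure, compatible with the
tensor product and such that all realisations are t-exact. -/
def MotSystem.Exists {p : ℕ} {Λ : Type} {E : Λ → Type w} [∀ l, Field (E l)] {l : Λ}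
    (S : MotSystem.{v, u} p E l) (k : Type) [Field k] [CharP k p] : Prop :=
  ∃ t : TStructure (S.M k).C, IsMotivic t (S.R k)

end Pool.Agent.L0h15.MT
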